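import Mathlib

/-!
Labellings of paths with a prescribed end label (Rosa), in the form of bipartite labellings with
consecutive edge sums.
-/

set_option autoImplicit false

namespace SEMD

/-- A labelling of the path `0, 1, ..., n - 1`: the even vertices get the labels
1, ..., (n + 1) / 2, the odd ones `1, ..., n / 2`, all sums of consecutive labels are different,
the first label is `i` and the last one (n + 1) / 2 + 1 - i. -/
structure PL (n i : ℕ) (L : ℕ → ℕ) : Prop where
  start : L 0 = i
  pos : ∀ k < n, 1 ≤ L k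
  ev : ∀ k < n, k % 2 = 0 → L k ≤ (n + 1) / 2
  od : ∀ k < n, k % 2 = 1 → L k ≤ n / 2
  inj : ∀ k < n, ∀ j < n, k % 2 = j % 2 → L k = L j → k = j
  sinj : ∀ k, k + 1 < n → ∀ j, j + 1 < n → L k + L (k + 1) = L j + L (j + 1) → k = j
  last : L (n - 1) + i = (n + 1) / 2 + 1

/-- Reversing all labels. -/
lemma PL.mirror {n i : ℕ} {L : ℕ → ℕ} (P : PL n i L) (hn : 0 < n) :
    PL n ((n + 1) / 2 + 1 - i)
      (fun k => if k % 2 = 0 then (n + 1) / 2 + 1 - L k else n / 2 + 1 - L k) := by
  have hb : ∀ k < n, k % 2 = 0 → L k ≤ (n + 1) / 2 ∧ 1 ≤ L k := fun k hk h =>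
    ⟨P.ev k hk h, P.pos k hk⟩
  have hb' : ∀ k < n, k % 2 = 1 → L k ≤ n / 2 ∧ 1 ≤ L k := fun k hk h =>
    ⟨P.od k hk h, P.pos k hk⟩
  refine ⟨?_, ?_, ?_, ?_, ?_, ?_, ?_⟩
  · simp [P.start]
  · intro k hk
    by_cases h : k % 2 = 0
    · have := hb k hk h
      simp only [h, if_true]; omega
    · have := hb' k hk (by omega)
      simp only [h, if_false]; omega
  · intro k hk h
    have := hb k hk h
    simp only [h, if_true]; omega
  · intro k hk h
    have h0 : ¬ (k % 2 = 0) := by omega
    have := hb' k hk h
    simp only [h0, if_false]; omega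
  · intro k hk j hj hkj
    by_cases h : k % 2 = 0
    · have h' : j % 2 = 0 := by omega
      have e1 := hb k hk h
      have e2 := hb j hj h'
      simp only [h, h', if_true]
      intro h3
      exact P.inj k hk j hj hkj (by omega)
    · have h' : ¬ (j % 2 = 0) := by omega
      have e1 := hb' k hk (by omega)
      have e2 := hb' j hj (by omega)
      simp only [h, h', if_false]
      intro h3
      exact P.inj k hk j hj hkj (by omega)
  · intro k hk j hj
    by_cases h : k % 2 = 0
    · have h1 : ¬ ((k + 1) % 2 = 0) := by omega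
      have e1 := hb k (by omega) h
      have e2 := hb' (k + 1) hk (by omega)
      by_cases h' : j % 2 = 0
      · have h1' : ¬ ((j + 1) % 2 = 0) := by omega
        have e3 := hb j (by omega) h'
        have e4 := hb' (j + 1) hj (by omega)
        simp only [h, h1, h', h1', if_true, if_false]
        intro h3
        exact P.sinj k hk j hj (by omega)
      · have h1' : (j + 1) % 2 = 0 := by omega
        have e3 := hb' j (by omega) (by omega)
        have e4 := hb (j + 1) hj h1'
        simp only [h, h1, h', h1', if_true, if_false]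
        intro h3
        exact P.sinj k hk j hj (by omega)
    · have h1 : (k + 1) % 2 = 0 := by omega
      have e1 := hb' k (by omega) (by omega)
      have e2 := hb (k + 1) hk h1
      by_cases h' : j % 2 = 0
      · have h1' : ¬ ((j + 1) % 2 = 0) := by omega
        have e3 := hb j (by omega) h'
        have e4 := hb' (j + 1) hj (by omega)
        simp only [h, h1, h', h1', if_true, if_false]
        intro h3
        exact P.sinj k hk j hj (by omega)
      · have h1' : (j + 1) % 2 = 0 := by omega
        have e3 := hb' j (by omega) (by omega)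
        have e4 := hb (j + 1) hj h1'
        simp only [h, h1, h', h1', if_true, if_false]
        intro h3
        exact P.sinj k hk j hj (by omega)
  · have h1 := P.last
    have h2 := P.start
    have h3 := hb 0 hn rfl
    by_cases h : (n - 1) % 2 = 0
    · have e1 := hb (n - 1) (by omega) h
      simp only [h, if_true]
      omega
    · have e1 := hb' (n - 1) (by omega) (by omega)
      simp only [h, if_false]
      omega

/-- An even number of vertices, start in the exact middle. -/
lemma PL.middle (N i : ℕ) (hi : 2 * i = N + 1) :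
    PL (2 * N) i (fun k => if k + 2 ≤ 2 * i then i - (k + 1) / 2 else N - (k + 1 - 2 * i) / 2) := by
  refine ⟨?_, ?_, ?_, ?_, ?_, ?_, ?_⟩
  · have : 0 + 2 ≤ 2 * i := by omega
    simp only [this, if_true]; omega
  · intro k hk; split_ifs <;> omega
  · intro k hk _; split_ifs <;> omega
  · intro k hk _; split_ifs <;> omega
  · intro k hk j hj _; split_ifs <;> omega
  · intro k hk j hj; split_ifs <;> omega
  · split_ifs <;> omega

/-- Going down to the bottom first, with an even number of steps. -/
lemma PL.down (N i : ℕ) (L : ℕ → ℕ) (h1 : 1 ≤ i) (hi : 2 * i ≤ N) (P : PL (2 * (N - i)) i L) :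
    PL (2 * N) i (fun k => if k < 2 * i then i - k / 2 else i + L (k - 2 * i)) := by
  have hpos : ∀ k, 2 * i ≤ k → k < 2 * N → 1 ≤ L (k - 2 * i) ∧ L (k - 2 * i) ≤ N - i := by
    intro k hk hk2
    refine ⟨P.pos _ (by omega), ?_⟩
    rcases Nat.mod_two_eq_zero_or_one (k - 2 * i) with h | h
    · have := P.ev (k - 2 * i) (by omega) h
      omega
    · have := P.od (k - 2 * i) (by omega) h
      omega
  refine ⟨?_, ?_, ?_, ?_, ?_, ?_, ?_⟩
  · have : 0 < 2 * i := by omega
    simp only [this, if_true]; omega
  · intro k hk; split_ifs <;> omega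
  · intro k hk _
    split_ifs with h
    · omega
    · have := hpos k (by omega) hk
      omega
  · intro k hk _
    split_ifs with h
    · omega
    · have := hpos k (by omega) hk
      omega
  · intro k hk j hj hkj
    by_cases h : k < 2 * i
    · by_cases h' : j < 2 * i
      · simp only [h, h', if_true]; omega
      · simp only [h, h', if_true, if_false]
        have := hpos j (by omega) hj
        intro h3; omega
    · by_cases h' : j < 2 * i
      · simp only [h, h', if_true, if_false]
        have := hpos k (by omega) hk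
        intro h3; omega
      · simp only [h, h', if_false]
        intro h3
        have := P.inj (k - 2 * i) (by omega) (j - 2 * i) (by omega) (by omega) (by omega)
        omega
  · have hs : ∀ k, k + 1 < 2 * N → 2 * i ≤ k →
        L (k - 2 * i) + L (k + 1 - 2 * i) = L (k - 2 * i) + L (k - 2 * i + 1) := by
      intro k _ hk
      rw [show k + 1 - 2 * i = k - 2 * i + 1 by omega]
    have hval : ∀ k, k + 1 < 2 * N →
        ((if k < 2 * i then i - k / 2 else i + L (k - 2 * i)) +
          (if k + 1 < 2 * i then i - (k + 1) / 2 else i + L (k + 1 - 2 * i)) + k = 2 * i ∧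
            k + 1 < 2 * i) ∨
        ((if k < 2 * i then i - k / 2 else i + L (k - 2 * i)) +
          (if k + 1 < 2 * i then i - (k + 1) / 2 else i + L (k + 1 - 2 * i)) = 2 * i + 1 ∧
            k + 1 = 2 * i) ∨
        ((if k < 2 * i then i - k / 2 else i + L (k - 2 * i)) +
          (if k + 1 < 2 * i then i - (k + 1) / 2 else i + L (k + 1 - 2 * i)) =
            2 * i + (L (k - 2 * i) + L (k - 2 * i + 1)) ∧ 2 * i ≤ k ∧
              2 ≤ L (k - 2 * i) + L (k - 2 * i + 1)) := by
      intro k hk
      rcases Nat.lt_trichotomy (k + 1) (2 * i) with h | h | h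
      · left
        have h' : k < 2 * i := by omega
        rw [if_pos h', if_pos h]
        omega
      · right; left
        have h' : k < 2 * i := by omega
        have h'' : ¬ (k + 1 < 2 * i) := by omega
        simp only [h', h'', if_true, if_false]
        rw [show k + 1 - 2 * i = 0 by omega, P.start]
        omega
      · right; right
        have h' : ¬ (k < 2 * i) := by omega
        have h'' : ¬ (k + 1 < 2 * i) := by omega
        simp only [h', h'', if_false]
        have e1 := hpos k (by omega) (by omega)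
        have e2 := hpos (k + 1) (by omega) (by omega)
        rw [show k + 1 - 2 * i = k - 2 * i + 1 by omega] at e2 ⊢
        omega
    intro k hk j hj
    intro h3
    rcases hval k hk with ⟨a, b⟩ | ⟨a, b⟩ | ⟨a, b, c⟩ <;>
      rcases hval j hj with ⟨a', b'⟩ | ⟨a', b'⟩ | ⟨a', b', c'⟩
    · omega
    · omega
    · omega
    · omega
    · omega
    · omega
    · omega
    · omega
    · have := P.sinj (k - 2 * i) (by omega) (j - 2 * i) (by omega) (by omega)
      omega
  · have h2 := P.last
    rw [if_neg (by omega), show 2 * N - 1 - 2 * i = 2 * (N - i) - 1 by omega]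
    omega

/-- Even number of vertices: every start is possible. -/
lemma PL.even : ∀ N i : ℕ, 1 ≤ i → i ≤ N → ∃ L, PL (2 * N) i L := by
  intro N
  induction N using Nat.strong_induction_on with
  | _ N ih =>
  have low : ∀ i, 1 ≤ i → 2 * i ≤ N → ∃ L, PL (2 * N) i L := by
    intro i h1 h2
    obtain ⟨L, P⟩ := ih (N - i) (by omega) i h1 (by omega)
    exact ⟨_, PL.down N i L h1 h2 P⟩
  intro i h1 h2
  by_cases h3 : 2 * i ≤ N
  · exact low i h1 h3
  · by_cases h4 : 2 * (N + 1 - i) ≤ N
    · obtain ⟨L, P⟩ := low (N + 1 - i) (by omega) h4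
      have Q := P.mirror (by omega)
      have h5 : (2 * N + 1) / 2 + 1 - (N + 1 - i) = i := by omega
      rw [h5] at Q
      exact ⟨_, Q⟩
    · exact ⟨_, PL.middle N i (by omega)⟩

/-- Odd number of vertices, low start. -/
lemma PL.oddDown (N i : ℕ) (L : ℕ → ℕ) (h1 : 1 ≤ i) (hi : 2 * i ≤ N + 1)
    (P : PL (2 * (N + 1 - i)) i L) :
    PL (2 * N + 1) i (fun k => if k + 2 ≤ 2 * i then i - (k + 1) / 2 else
      (i - 1 + (k + 1) % 2 + L (k + 1 - 2 * i))) := by
  have hpos : ∀ k, 2 * i ≤ k + 1 → k < 2 * N + 1 →
      1 ≤ L (k + 1 - 2 * i) ∧ L (k + 1 - 2 * i) ≤ N + 1 - i := by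
    intro k hk hk2
    refine ⟨P.pos _ (by omega), ?_⟩
    rcases Nat.mod_two_eq_zero_or_one (k + 1 - 2 * i) with h | h
    · have := P.ev (k + 1 - 2 * i) (by omega) h
      omega
    · have := P.od (k + 1 - 2 * i) (by omega) h
      omega
  refine ⟨?_, ?_, ?_, ?_, ?_, ?_, ?_⟩
  · have : 0 + 2 ≤ 2 * i := by omega
    simp only [this, if_true]; omega
  · intro k hk
    split_ifs with h
    · omega
    · have := hpos k (by omega) hk
      omega
  · intro k hk _
    split_ifs with h
    · omega
    · have := hpos k (by omega) hk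
      omega
  · intro k hk _
    split_ifs with h
    · omega
    · have := hpos k (by omega) hk
      omega
  · intro k hk j hj hkj
    by_cases h : k + 2 ≤ 2 * i
    · by_cases h' : j + 2 ≤ 2 * i
      · simp only [h, h', if_true]; omega
      · simp only [h, h', if_true, if_false]
        have := hpos j (by omega) hj
        intro h3; omega
    · by_cases h' : j + 2 ≤ 2 * i
      · simp only [h, h', if_true, if_false]
        have := hpos k (by omega) hk
        intro h3; omega
      · simp only [h, h', if_false]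
        intro h3
        have := P.inj (k + 1 - 2 * i) (by omega) (j + 1 - 2 * i) (by omega) (by omega) (by omega)
        omega
  · have hval : ∀ k, k + 1 < 2 * N + 1 →
        ((if k + 2 ≤ 2 * i then i - (k + 1) / 2 else (i - 1 + (k + 1) % 2 + L (k + 1 - 2 * i))) +
          (if k + 1 + 2 ≤ 2 * i then i - (k + 1 + 1) / 2 else
            (i - 1 + (k + 1 + 1) % 2 + L (k + 1 + 1 - 2 * i))) + k + 1 = 2 * i ∧
            k + 3 ≤ 2 * i) ∨
        ((if k + 2 ≤ 2 * i then i - (k + 1) / 2 else (i - 1 + (k + 1) % 2 + L (k + 1 - 2 * i))) +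
          (if k + 1 + 2 ≤ 2 * i then i - (k + 1 + 1) / 2 else
            (i - 1 + (k + 1 + 1) % 2 + L (k + 1 + 1 - 2 * i))) = 2 * i ∧
            k + 2 = 2 * i) ∨
        ((if k + 2 ≤ 2 * i then i - (k + 1) / 2 else (i - 1 + (k + 1) % 2 + L (k + 1 - 2 * i))) +
          (if k + 1 + 2 ≤ 2 * i then i - (k + 1 + 1) / 2 else
            (i - 1 + (k + 1 + 1) % 2 + L (k + 1 + 1 - 2 * i))) + 1 =
            2 * i + (L (k + 1 - 2 * i) + L (k + 1 - 2 * i + 1)) ∧ 2 * i ≤ k + 1 ∧
              2 ≤ L (k + 1 - 2 * i) + L (k + 1 - 2 * i + 1)) := by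
      intro k hk
      rcases Nat.lt_trichotomy (k + 2) (2 * i) with h | h | h
      · left
        have h' : k + 2 ≤ 2 * i := by omega
        have h'' : k + 1 + 2 ≤ 2 * i := by omega
        rw [if_pos h', if_pos h'']
        omega
      · right; left
        have h' : k + 2 ≤ 2 * i := by omega
        have h'' : ¬ (k + 1 + 2 ≤ 2 * i) := by omega
        simp only [h', h'', if_true, if_false]
        rw [show k + 1 + 1 - 2 * i = 0 by omega, P.start]
        omega
      · right; right
        have h' : ¬ (k + 2 ≤ 2 * i) := by omega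
        have h'' : ¬ (k + 1 + 2 ≤ 2 * i) := by omega
        simp only [h', h'', if_false]
        have e1 := hpos k (by omega) (by omega)
        have e2 := hpos (k + 1) (by omega) (by omega)
        rw [show k + 1 + 1 - 2 * i = k + 1 - 2 * i + 1 by omega] at e2 ⊢
        omega
    intro k hk j hj
    intro h3
    rcases hval k hk with ⟨a, b⟩ | ⟨a, b⟩ | ⟨a, b, c⟩ <;>
      rcases hval j hj with ⟨a', b'⟩ | ⟨a', b'⟩ | ⟨a', b', c'⟩
    · omega
    · omega
    · omega
    · omega
    · omega
    · omega
    · omega
    · omega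
    · have := P.sinj (k + 1 - 2 * i) (by omega) (j + 1 - 2 * i) (by omega) (by omega)
      omega
  · have h2 := P.last
    rw [if_neg (by omega), show 2 * N + 1 - 1 + 1 - 2 * i = 2 * (N + 1 - i) - 1 by omega]
    omega

/-- Rosa's labellings of paths with a prescribed end label. -/
lemma PL.exists (n i : ℕ) (h1 : 1 ≤ i) (h2 : i ≤ (n + 1) / 2)
    (h3 : n = 1 ∨ n % 2 = 0 ∨ 2 * i ≠ (n + 1) / 2 + 1) : ∃ L, PL n i L := by
  by_cases hn1 : n = 1
  · subst hn1
    have hi : i = 1 := by omega
    subst hi
    refine ⟨fun _ => 1, rfl, ?_, ?_, ?_, ?_, ?_, ?_⟩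
    · intro k _; omega
    · intro k _ _; omega
    · intro k hk hk1; omega
    · intro k hk j hj _ _; omega
    · intro k hk; omega
    · rfl
  have h3 : n % 2 = 0 ∨ 2 * i ≠ (n + 1) / 2 + 1 := by
    rcases h3 with h | h
    · exact absurd h hn1
    · exact h
  by_cases hn : n % 2 = 0
  · obtain ⟨L, P⟩ := PL.even (n / 2) i h1 (by omega)
    rw [show 2 * (n / 2) = n by omega] at P
    exact ⟨L, P⟩
  · obtain ⟨N, rfl⟩ : ∃ N, n = 2 * N + 1 := ⟨n / 2, by omega⟩
    have low : ∀ i, 1 ≤ i → 2 * i ≤ N + 1 → ∃ L, PL (2 * N + 1) i L := by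
      intro i h1 h2
      obtain ⟨L, P⟩ := PL.even (N + 1 - i) i h1 (by omega)
      exact ⟨_, PL.oddDown N i L h1 h2 P⟩
    by_cases h4 : 2 * i ≤ N + 1
    · exact low i h1 h4
    · have h5 : 2 * (N + 2 - i) ≤ N + 1 := by
        rcases h3 with h3 | h3 <;> omega
      obtain ⟨L, P⟩ := low (N + 2 - i) (by omega) h5
      have Q := P.mirror (by omega)
      have h6 : (2 * N + 1 + 1) / 2 + 1 - (N + 2 - i) = i := by omega
      rw [h6] at Q
      exact ⟨_, Q⟩


end SEMD
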