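import Mathlib
import Pool.Agent.SEMD.PathLab

/-!
Trees with bipartite labellings with consecutive sums, and the assembly of two of them with a path
attached to one of them.
-/

set_option autoImplicit false

namespace SEMD

/-- A labelling of a graph with two colours, the labels of colour `true` being `1, ..., a`, the
labels of colour `false` being `1, ..., b`, edges join different colours and the edge sums are
different. -/
structure Blk {V : Type} [Fintype V] (T : SimpleGraph V) (c : V → Bool) (l : V → ℕ) (a b : ℕ) :
    Prop where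
  card : a + b = Fintype.card V
  pos : ∀ v, 1 ≤ l v
  le1 : ∀ v, c v = true → l v ≤ a
  le2 : ∀ v, c v = false → l v ≤ b
  inj : ∀ u v, c u = c v → l u = l v → u = v
  col : ∀ u v, T.Adj u v → c u ≠ c v
  sum : ∀ u v u' v', T.Adj u v → T.Adj u' v' → c u = true → c u' = true →
    l u + l v = l u' + l v' → u = u' ∧ v = v'

lemma Blk.other {V : Type} [Fintype V] {T : SimpleGraph V} {c : V → Bool} {l : V → ℕ} {a b : ℕ}
    (B : Blk T c l a b) {u v : V} (h : T.Adj u v) (hu : c u = true) : c v = false := by
  have := B.col u v h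
  cases hv : c v
  · rfl
  · rw [hu, hv] at this; exact absurd rfl this

/-- Exchanging the colours. -/
lemma Blk.swap {V : Type} [Fintype V] {T : SimpleGraph V} {c : V → Bool} {l : V → ℕ} {a b : ℕ}
    (B : Blk T c l a b) : Blk T (fun v => !c v) l b a := by
  refine ⟨by rw [add_comm]; exact B.card, B.pos, ?_, ?_, ?_, ?_, ?_⟩
  · intro v hv; exact B.le2 v (by simpa using hv)
  · intro v hv; exact B.le1 v (by simpa using hv)
  · intro u v h; exact B.inj u v (by simpa using h)
  · intro u v h
    have := B.col u v h
    simpa using this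
  · intro u v u' v' h h' hu hu' hs
    have hu1 : c u = false := by simpa using hu
    have hu1' : c u' = false := by simpa using hu'
    have hv : c v = true := by
      have := B.col u v h
      cases hv : c v
      · rw [hu1, hv] at this; exact absurd rfl this
      · rfl
    have hv' : c v' = true := by
      have := B.col u' v' h'
      cases hv : c v'
      · rw [hu1', hv] at this; exact absurd rfl this
      · rfl
    have := B.sum v u v' u' h.symm h'.symm hv hv' (by omega)
    exact ⟨this.2, this.1⟩

/-- Reversing the labels. -/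
lemma Blk.mirror {V : Type} [Fintype V] {T : SimpleGraph V} {c : V → Bool} {l : V → ℕ} {a b : ℕ}
    (B : Blk T c l a b) : Blk T c (fun v => if c v = true then a + 1 - l v else b + 1 - l v) a b := by
  have h1 : ∀ v, c v = true → 1 ≤ l v ∧ l v ≤ a := fun v h => ⟨B.pos v, B.le1 v h⟩
  have h2 : ∀ v, c v = false → 1 ≤ l v ∧ l v ≤ b := fun v h => ⟨B.pos v, B.le2 v h⟩
  refine ⟨B.card, ?_, ?_, ?_, ?_, B.col, ?_⟩
  · intro v
    cases hv : c v
    · have := h2 v hv
      simp; omega
    · have := h1 v hv
      simp; omega
  · intro v hv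
    have := h1 v hv
    simp only [hv, if_true]; omega
  · intro v hv
    have := h2 v hv
    simp [hv]; omega
  · intro u v huv h
    cases hu : c u
    · have hv : c v = false := by rw [← huv]; exact hu
      have e1 := h2 u hu
      have e2 := h2 v hv
      simp [hu, hv] at h
      exact B.inj u v huv (by omega)
    · have hv : c v = true := by rw [← huv]; exact hu
      have e1 := h1 u hu
      have e2 := h1 v hv
      simp [hu, hv] at h
      exact B.inj u v huv (by omega)
  · intro u v u' v' h h' hu hu' hs
    have hv := B.other h hu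
    have hv' := B.other h' hu'
    have e1 := h1 u hu
    have e2 := h2 v hv
    have e3 := h1 u' hu'
    have e4 := h2 v' hv'
    simp [hu, hv, hu', hv'] at hs
    exact B.sum u v u' v' h h' hu hu' (by omega)

/-- A bipartite labelling in which the top corner is not used gives a super edge-magic labelling. -/
lemma sem_of_blk {W : Type} [Fintype W] {G : SimpleGraph W} {cls : W → Bool} {lab : W → ℕ}
    {XT YT : ℕ} (B : Blk G cls lab XT YT)
    (hlt : ∀ x y, G.Adj x y → lab x + lab y < XT + YT)
    (hq : Fintype.card W ≤ Nat.card G.edgeSet + 2) :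
    ∃ f : W → ℕ, Function.Injective f ∧ (∀ v, 1 ≤ f v ∧ f v ≤ Fintype.card W) ∧
      ∃ g : G.edgeSet → ℕ, Function.Injective g ∧
        (∀ e, Fintype.card W + 1 ≤ g e ∧ g e ≤ Fintype.card W + Nat.card G.edgeSet) ∧
        ∃ k : ℕ, ∀ (e : G.edgeSet) (u v : W), e.val = s(u, v) → f u + f v + g e = k := by
  classical
  obtain ⟨p, hp⟩ : ∃ p, p = Fintype.card W := ⟨_, rfl⟩
  have hc : XT + YT = p := by rw [hp]; exact B.card
  obtain ⟨F, hF⟩ : ∃ F : W → ℕ, ∀ x, F x = if cls x = true then lab x else XT + lab x :=
    ⟨_, fun _ => rfl⟩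
  have F1 : ∀ x, cls x = true → F x = lab x ∧ 1 ≤ lab x ∧ lab x ≤ XT := by
    intro x hx
    exact ⟨by rw [hF, if_pos hx], B.pos x, B.le1 x hx⟩
  have F2 : ∀ x, cls x = false → F x = XT + lab x ∧ 1 ≤ lab x ∧ lab x ≤ YT := by
    intro x hx
    exact ⟨by rw [hF, if_neg (by simp [hx])], B.pos x, B.le2 x hx⟩
  have kind : ∀ x, cls x = true ∨ cls x = false := by
    intro x; cases cls x <;> simp
  obtain ⟨σ, hσ⟩ : ∃ σ : Sym2 W → ℕ, ∀ u v, σ s(u, v) = F u + F v :=
    ⟨Sym2.lift ⟨fun u v => F u + F v, fun u v => add_comm _ _⟩, fun _ _ => rfl⟩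
  have orient : ∀ e ∈ G.edgeSet, ∃ x y, e = s(x, y) ∧ G.Adj x y ∧ cls x = true ∧
      cls y = false ∧ σ e = XT + (lab x + lab y) ∧ 2 ≤ lab x + lab y ∧ lab x + lab y < p := by
    intro e he
    induction e using Sym2.inductionOn with
    | _ u v =>
    rw [SimpleGraph.mem_edgeSet] at he
    have hcol := B.col u v he
    rcases kind u with hu | hu
    · have hv := B.other he hu
      have e1 := F1 u hu
      have e2 := F2 v hv
      have e3 := hlt u v he
      refine ⟨u, v, rfl, he, hu, hv, ?_, ?_, ?_⟩
      · rw [hσ]; omega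
      · omega
      · omega
    · have hv : cls v = true := by
        rcases kind v with h | h
        · exact h
        · rw [hu, h] at hcol; exact absurd rfl hcol
      have e1 := F1 v hv
      have e2 := F2 u hu
      have e3 := hlt u v he
      refine ⟨v, u, Sym2.eq_swap, he.symm, hv, hu, ?_, ?_, ?_⟩
      · rw [hσ]; omega
      · omega
      · omega
  rw [← hp] at hq ⊢
  refine ⟨F, ?_, ?_, fun e => 2 * p + XT - σ e.val, ?_, ?_, 2 * p + XT, ?_⟩
  · intro x y h
    rcases kind x with hx | hx <;> rcases kind y with hy | hy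
    · have e1 := F1 x hx
      have e2 := F1 y hy
      exact B.inj x y (by rw [hx, hy]) (by omega)
    · have e1 := F1 x hx
      have e2 := F2 y hy
      omega
    · have e1 := F2 x hx
      have e2 := F1 y hy
      omega
    · have e1 := F2 x hx
      have e2 := F2 y hy
      exact B.inj x y (by rw [hx, hy]) (by omega)
  · intro x
    rcases kind x with hx | hx
    · have e1 := F1 x hx
      omega
    · have e1 := F2 x hx
      omega
  · intro e e' hee
    obtain ⟨x, y, h1, h2, h3, h4, h5, h6, h7⟩ := orient e.val e.2
    obtain ⟨x', y', h1', h2', h3', h4', h5', h6', h7'⟩ := orient e'.val e'.2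
    simp only at hee
    obtain ⟨r1, r2⟩ := B.sum x y x' y' h2 h2' h3 h3' (by omega)
    apply Subtype.ext
    rw [h1, h1', r1, r2]
  · intro e
    obtain ⟨x, y, h1, h2, h3, h4, h5, h6, h7⟩ := orient e.val e.2
    simp only
    omega
  · intro e u v he
    obtain ⟨x, y, h1, h2, h3, h4, h5, h6, h7⟩ := orient e.val e.2
    have : σ e.val = F u + F v := by rw [he, hσ]
    simp only
    omega

end SEMD
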