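import Mathlib
import Pool.Agent.SEMD.Blocks

/-!
The assembly of two labelled trees, a path attached to one of them, in the order: long path piece,
short path piece, the two trees, one path vertex.
-/

set_option autoImplicit false
set_option linter.unusedSectionVars false

namespace SEMD

variable {V2 V3 : Type} [Fintype V2] [Fintype V3]

/-- The disjoint union of `T2` and `T3` with a path on `m + 1` vertices whose first vertex is joined
to `t`. -/
def tailG (T2 : SimpleGraph V2) (T3 : SimpleGraph V3) (t : V3) (m : ℕ) :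
    SimpleGraph ((V2 ⊕ V3) ⊕ Fin (m + 1)) :=
  ((T2 ⊕g T3) ⊕g SimpleGraph.pathGraph (m + 1)) ⊔
    SimpleGraph.edge (Sum.inl (Sum.inr t)) (Sum.inr 0)

lemma tailG_adj (T2 : SimpleGraph V2) (T3 : SimpleGraph V3) (t : V3) (m : ℕ)
    (x y : (V2 ⊕ V3) ⊕ Fin (m + 1)) (h : (tailG T2 T3 t m).Adj x y) :
    (∃ u v, x = Sum.inl (Sum.inl u) ∧ y = Sum.inl (Sum.inl v) ∧ T2.Adj u v) ∨
    (∃ u v, x = Sum.inl (Sum.inr u) ∧ y = Sum.inl (Sum.inr v) ∧ T3.Adj u v) ∨
    (∃ j k : Fin (m + 1), x = Sum.inr j ∧ y = Sum.inr k ∧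
      (j.val + 1 = k.val ∨ k.val + 1 = j.val)) ∨
    (x = Sum.inl (Sum.inr t) ∧ y = Sum.inr 0) ∨ (x = Sum.inr 0 ∧ y = Sum.inl (Sum.inr t)) := by
  unfold tailG at h
  rw [SimpleGraph.sup_adj, SimpleGraph.edge_adj] at h
  rcases h with h | ⟨h | h, _⟩
  · rcases x with (u | u) | j <;> rcases y with (v | v) | k
    · left; exact ⟨u, v, rfl, rfl, by simpa using h⟩
    · simp at h
    · simp at h
    · simp at h
    · right; left; exact ⟨u, v, rfl, rfl, by simpa using h⟩
    · simp at h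
    · simp at h
    · simp at h
    · right; right; left
      refine ⟨j, k, rfl, rfl, ?_⟩
      have h1 : (SimpleGraph.pathGraph (m + 1)).Adj j k := by simpa using h
      rw [SimpleGraph.pathGraph_adj] at h1
      exact h1
  · right; right; right; left; exact h
  · right; right; right; right; exact h

lemma tailG_card (T2 : SimpleGraph V2) (T3 : SimpleGraph V3) (t : V3) (m : ℕ) (h2 : T2.IsTree)
    (h3 : T3.IsTree) :
    Fintype.card ((V2 ⊕ V3) ⊕ Fin (m + 1)) ≤ Nat.card (tailG T2 T3 t m).edgeSet + 2 := by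
  classical
  have hn : ¬ ((T2 ⊕g T3) ⊕g SimpleGraph.pathGraph (m + 1)).Adj (Sum.inl (Sum.inr t))
      (Sum.inr 0) := by simp
  have hne : (Sum.inl (Sum.inr t) : (V2 ⊕ V3) ⊕ Fin (m + 1)) ≠ Sum.inr 0 := by simp
  have e1 : Nat.card (tailG T2 T3 t m).edgeSet =
      Nat.card ((T2 ⊕g T3) ⊕g SimpleGraph.pathGraph (m + 1)).edgeSet + 1 := by
    have := SimpleGraph.card_edgeFinset_sup_edge
      ((T2 ⊕g T3) ⊕g SimpleGraph.pathGraph (m + 1)) hn hne
    rw [SimpleGraph.edgeFinset_card, SimpleGraph.edgeFinset_card, ← Nat.card_eq_fintype_card,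
      ← Nat.card_eq_fintype_card] at this
    exact this
  have e2 : Nat.card ((T2 ⊕g T3) ⊕g SimpleGraph.pathGraph (m + 1)).edgeSet =
      Nat.card T2.edgeSet + Nat.card T3.edgeSet + Nat.card (SimpleGraph.pathGraph (m + 1)).edgeSet := by
    rw [Nat.card_congr SimpleGraph.edgeSetSumEquiv, Nat.card_sum,
      Nat.card_congr SimpleGraph.edgeSetSumEquiv, Nat.card_sum]
  have e3 : Nat.card T2.edgeSet + 1 = Fintype.card V2 := by
    have := h2.card_edgeFinset
    rw [SimpleGraph.edgeFinset_card, ← Nat.card_eq_fintype_card] at this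
    exact this
  have e4 : Nat.card T3.edgeSet + 1 = Fintype.card V3 := by
    have := h3.card_edgeFinset
    rw [SimpleGraph.edgeFinset_card, ← Nat.card_eq_fintype_card] at this
    exact this
  have e5 : m ≤ Nat.card (SimpleGraph.pathGraph (m + 1)).edgeSet := by
    have hadj : ∀ j : Fin m, (SimpleGraph.pathGraph (m + 1)).Adj
        (⟨j.val, by omega⟩ : Fin (m + 1)) (⟨j.val + 1, by omega⟩ : Fin (m + 1)) := by
      intro j
      rw [SimpleGraph.pathGraph_adj]
      left; rfl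
    have hinj' : Function.Injective (fun j : Fin m =>
        (⟨s((⟨j.val, by omega⟩ : Fin (m + 1)), (⟨j.val + 1, by omega⟩ : Fin (m + 1))), hadj j⟩ :
          (SimpleGraph.pathGraph (m + 1)).edgeSet)) := by
      intro j j' h
      have h4 := congrArg Subtype.val h
      simp only [Sym2.eq_iff, Fin.mk.injEq] at h4
      exact Fin.ext (by omega)
    have := Nat.card_le_card_of_injective _ hinj'
    simpa using this
  rw [Fintype.card_sum, Fintype.card_sum, Fintype.card_fin]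
  omega

/-- The arithmetic of the assembly. -/
lemma nums (XL YL pX pY X2 Y2 X3 Y3 nL nP a2 b2 a3 b3 gt gw XT YT S2 S3 : ℕ)
    (hXY : XL + YL = nL) (hpXY : pX + pY = nP) (hS2 : S2 = X2 + Y2) (hS3 : S3 = X3 + Y3)
    (c2 : 1 ≤ a2 + b2) (c3 : 1 ≤ a3 + b3)
    (hord : (X3 = XL + pX ∧ Y3 = YL + pY ∧ X2 = X3 + a3 ∧ Y2 = Y3 + b3) ∨
      (X2 = XL + pX ∧ Y2 = YL + pY ∧ X3 = X2 + a2 ∧ Y3 = Y2 + b2))
    (hs : (gt = nL + nP + 1 ∧
        (gw = S2 + 1 ∧ X3 = XL + pX ∧ Y3 = YL + pY ∨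
          gw = S3 + 1 ∧ X2 = XL + pX ∧ Y2 = YL + pY)) ∨
      (gw = nL + nP + 1 ∧ gt = S3 + 1 ∧ X2 = XL + pX ∧ Y2 = YL + pY))
    (hXT : XT + YT = nL + nP + a2 + a3 + b2 + b3 + 1) :
    (S2 + (a2 + b2) ≤ S3 ∨ S3 + (a3 + b3) ≤ S2) ∧ (nL + nP ≤ S2 ∧ nL + nP ≤ S3) ∧
    (gt < XT + YT ∧ gw < XT + YT ∧ S2 + (a2 + b2) < XT + YT ∧ S3 + (a3 + b3) < XT + YT ∧
      nL + nP + 1 < XT + YT) ∧
    (∀ z, 2 ≤ z → z ≤ a2 + b2 → S2 + z ≠ gt ∧ S2 + z ≠ gw) ∧
    (∀ z, 2 ≤ z → z ≤ a3 + b3 → S3 + z ≠ gt ∧ S3 + z ≠ gw) ∧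
    (nL + nP + 1 ≤ gt ∧ nL + nP + 1 ≤ gw ∧ gt ≠ gw) := by
  rcases hord with ⟨o1, o2, o3, o4⟩ | ⟨o1, o2, o3, o4⟩ <;>
    rcases hs with ⟨s1, ⟨s2, s3, s4⟩ | ⟨s2, s3, s4⟩⟩ | ⟨s1, s2, s3, s4⟩ <;>
    refine ⟨by omega, by omega, by omega, ?_, ?_, by omega⟩ <;>
    intro z z1 z2 <;> constructor <;> omega

/-- The assembly. -/
lemma assemble {T2 : SimpleGraph V2} {T3 : SimpleGraph V3} {c2 : V2 → Bool} {l2 : V2 → ℕ}
    {a2 b2 : ℕ} {c3 : V3 → Bool} {l3 : V3 → ℕ} {a3 b3 : ℕ} (h2 : T2.IsTree) (h3 : T3.IsTree)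
    (B2 : Blk T2 c2 l2 a2 b2) (B3 : Blk T3 c3 l3 a3 b3) (t : V3) (ht : c3 t = true)
    (m nP nL s x : ℕ) (LP LL : ℕ → ℕ) (PP : PL nP s LP) (PLL : PL nL x LL)
    (XL YL pX pY X2 Y2 X3 Y3 wl pe : ℕ) (hm : m = nP + nL) (hnP : 1 ≤ nP) (hnL : 1 ≤ nL)
    (hpY : pY = (nP + 1) / 2) (hpX : pX = nP / 2)
    (hpar : (nP % 2 = 0 ∧ XL = (nL + 1) / 2 ∧ YL = nL / 2 ∧ wl = YL + pY + b2 + b3 + 1 ∧
        pe = XL + LP (nP - 1)) ∨
      (nP % 2 = 1 ∧ XL = nL / 2 ∧ YL = (nL + 1) / 2 ∧ wl = XL + pX + a2 + a3 + 1 ∧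
        pe = YL + LP (nP - 1)))
    (hord : (X3 = XL + pX ∧ Y3 = YL + pY ∧ X2 = X3 + a3 ∧ Y2 = Y3 + b3) ∨
      (X2 = XL + pX ∧ Y2 = YL + pY ∧ X3 = X2 + a2 ∧ Y3 = Y2 + b2))
    (hs : (X3 + l3 t + (YL + s) = XL + YL + (pX + pY) + 1 ∧
        (pe + wl = X2 + Y2 + 1 ∧ X3 = XL + pX ∧ Y3 = YL + pY ∨
          pe + wl = X3 + Y3 + 1 ∧ X2 = XL + pX ∧ Y2 = YL + pY)) ∨
      (pe + wl = XL + YL + (pX + pY) + 1 ∧ X3 + l3 t + (YL + s) = X3 + Y3 + 1 ∧ X2 = XL + pX ∧
        Y2 = YL + pY))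
    (hw : wl + x = nL + 1) :
    ∃ f : (V2 ⊕ V3) ⊕ Fin (m + 1) → ℕ, Function.Injective f ∧
      (∀ v, 1 ≤ f v ∧ f v ≤ Fintype.card ((V2 ⊕ V3) ⊕ Fin (m + 1))) ∧
      ∃ g : (tailG T2 T3 t m).edgeSet → ℕ, Function.Injective g ∧
        (∀ e, Fintype.card ((V2 ⊕ V3) ⊕ Fin (m + 1)) + 1 ≤ g e ∧
          g e ≤ Fintype.card ((V2 ⊕ V3) ⊕ Fin (m + 1)) + Nat.card (tailG T2 T3 t m).edgeSet) ∧
        ∃ k : ℕ, ∀ (e : (tailG T2 T3 t m).edgeSet) (u v : (V2 ⊕ V3) ⊕ Fin (m + 1)),
          e.val = s(u, v) → f u + f v + g e = k := by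
  classical
  have hXY : XL + YL = nL := by omega
  have hpXY : pX + pY = nP := by omega
  -- classes and labels
  obtain ⟨cls, hcls⟩ : ∃ cls : (V2 ⊕ V3) ⊕ Fin (m + 1) → Bool, cls =
      Sum.elim (Sum.elim c2 c3) (fun j : Fin (m + 1) => decide (j.val % 2 = 1)) := ⟨_, rfl⟩
  obtain ⟨lab, hlab⟩ : ∃ lab : (V2 ⊕ V3) ⊕ Fin (m + 1) → ℕ, lab =
      Sum.elim (Sum.elim (fun v => if c2 v = true then X2 + l2 v else Y2 + l2 v)
        (fun v => if c3 v = true then X3 + l3 v else Y3 + l3 v))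
        (fun j : Fin (m + 1) => if j.val < nP then (if j.val % 2 = 0 then YL + LP j.val else XL + LP j.val) else
          if j.val = nP then wl else LL (j.val - nP - 1)) := ⟨_, rfl⟩
  have C2 : ∀ v, cls (Sum.inl (Sum.inl v)) = c2 v := by intro v; rw [hcls]; rfl
  have C3 : ∀ v, cls (Sum.inl (Sum.inr v)) = c3 v := by intro v; rw [hcls]; rfl
  have CPt : ∀ j : Fin (m + 1), j.val % 2 = 1 → cls (Sum.inr j) = true := by
    intro j hj; rw [hcls]; simp [hj]
  have CPf : ∀ j : Fin (m + 1), j.val % 2 = 0 → cls (Sum.inr j) = false := by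
    intro j hj; rw [hcls]; simp [hj]
  have L2t : ∀ v, c2 v = true → lab (Sum.inl (Sum.inl v)) = X2 + l2 v ∧ 1 ≤ l2 v ∧ l2 v ≤ a2 := by
    intro v hv
    refine ⟨?_, B2.pos v, B2.le1 v hv⟩
    rw [hlab]; simp [hv]
  have L2f : ∀ v, c2 v = false → lab (Sum.inl (Sum.inl v)) = Y2 + l2 v ∧ 1 ≤ l2 v ∧ l2 v ≤ b2 := by
    intro v hv
    refine ⟨?_, B2.pos v, B2.le2 v hv⟩
    rw [hlab]; simp [hv]
  have L3t : ∀ v, c3 v = true → lab (Sum.inl (Sum.inr v)) = X3 + l3 v ∧ 1 ≤ l3 v ∧ l3 v ≤ a3 := by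
    intro v hv
    refine ⟨?_, B3.pos v, B3.le1 v hv⟩
    rw [hlab]; simp [hv]
  have L3f : ∀ v, c3 v = false → lab (Sum.inl (Sum.inr v)) = Y3 + l3 v ∧ 1 ≤ l3 v ∧ l3 v ≤ b3 := by
    intro v hv
    refine ⟨?_, B3.pos v, B3.le2 v hv⟩
    rw [hlab]; simp [hv]
  have LPe : ∀ j : Fin (m + 1), j.val < nP → j.val % 2 = 0 → lab (Sum.inr j) = YL + LP j.val ∧
      1 ≤ LP j.val ∧ LP j.val ≤ pY := by
    intro j h1 h2
    refine ⟨?_, PP.pos _ h1, ?_⟩
    · rw [hlab, Sum.elim_inr, if_pos h1, if_pos h2]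
    · have := PP.ev _ h1 h2
      omega
  have LPo : ∀ j : Fin (m + 1), j.val < nP → j.val % 2 = 1 → lab (Sum.inr j) = XL + LP j.val ∧
      1 ≤ LP j.val ∧ LP j.val ≤ pX := by
    intro j h1 h2
    refine ⟨?_, PP.pos _ h1, ?_⟩
    · rw [hlab, Sum.elim_inr, if_pos h1, if_neg (by omega)]
    · have := PP.od _ h1 h2
      omega
  have Lw : ∀ j : Fin (m + 1), j.val = nP → lab (Sum.inr j) = wl := by
    intro j h1
    rw [hlab, Sum.elim_inr, if_neg (by omega), if_pos h1]
  have LLo : ∀ j : Fin (m + 1), nP < j.val → j.val % 2 = 1 →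
      lab (Sum.inr j) = LL (j.val - nP - 1) ∧ 1 ≤ LL (j.val - nP - 1) ∧
        LL (j.val - nP - 1) ≤ XL := by
    intro j h1 h2
    have hj := j.isLt
    refine ⟨?_, PLL.pos _ (by omega), ?_⟩
    · rw [hlab, Sum.elim_inr, if_neg (by omega), if_neg (by omega)]
    · rcases hpar with h | h
      · have := PLL.ev (j.val - nP - 1) (by omega) (by omega)
        omega
      · have := PLL.od (j.val - nP - 1) (by omega) (by omega)
        omega
  have LLe : ∀ j : Fin (m + 1), nP < j.val → j.val % 2 = 0 →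
      lab (Sum.inr j) = LL (j.val - nP - 1) ∧ 1 ≤ LL (j.val - nP - 1) ∧
        LL (j.val - nP - 1) ≤ YL := by
    intro j h1 h2
    have hj := j.isLt
    refine ⟨?_, PLL.pos _ (by omega), ?_⟩
    · rw [hlab, Sum.elim_inr, if_neg (by omega), if_neg (by omega)]
    · rcases hpar with h | h
      · have := PLL.od (j.val - nP - 1) (by omega) (by omega)
        omega
      · have := PLL.ev (j.val - nP - 1) (by omega) (by omega)
        omega
  -- the kinds of vertices
  have Kt : ∀ z : (V2 ⊕ V3) ⊕ Fin (m + 1), cls z = true →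
      (∃ v, z = Sum.inl (Sum.inl v) ∧ c2 v = true ∧ lab z = X2 + l2 v ∧ 1 ≤ l2 v ∧ l2 v ≤ a2) ∨
      (∃ v, z = Sum.inl (Sum.inr v) ∧ c3 v = true ∧ lab z = X3 + l3 v ∧ 1 ≤ l3 v ∧ l3 v ≤ a3) ∨
      (∃ j : Fin (m + 1), z = Sum.inr j ∧ j.val < nP ∧ j.val % 2 = 1 ∧
        lab z = XL + LP j.val ∧ 1 ≤ LP j.val ∧ LP j.val ≤ pX) ∨
      (∃ j : Fin (m + 1), z = Sum.inr j ∧ j.val = nP ∧ j.val % 2 = 1 ∧ lab z = wl) ∨
      (∃ j : Fin (m + 1), z = Sum.inr j ∧ nP < j.val ∧ j.val % 2 = 1 ∧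
        lab z = LL (j.val - nP - 1) ∧ 1 ≤ LL (j.val - nP - 1) ∧ LL (j.val - nP - 1) ≤ XL) := by
    rintro ((v | v) | j) hz
    · have hv : c2 v = true := (C2 v).symm.trans hz
      left; exact ⟨v, rfl, hv, L2t v hv⟩
    · have hv : c3 v = true := (C3 v).symm.trans hz
      right; left; exact ⟨v, rfl, hv, L3t v hv⟩
    · have hp : j.val % 2 = 1 := by
        rcases Nat.mod_two_eq_zero_or_one j.val with hp | hp
        · rw [CPf j hp] at hz; exact absurd hz (by decide)
        · exact hp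
      rcases Nat.lt_trichotomy j.val nP with h | h | h
      · right; right; left
        exact ⟨j, rfl, h, hp, LPo j h hp⟩
      · right; right; right; left
        exact ⟨j, rfl, h, hp, Lw j h⟩
      · right; right; right; right
        exact ⟨j, rfl, h, hp, LLo j h hp⟩
  have Kf : ∀ z : (V2 ⊕ V3) ⊕ Fin (m + 1), cls z = false →
      (∃ v, z = Sum.inl (Sum.inl v) ∧ c2 v = false ∧ lab z = Y2 + l2 v ∧ 1 ≤ l2 v ∧ l2 v ≤ b2) ∨
      (∃ v, z = Sum.inl (Sum.inr v) ∧ c3 v = false ∧ lab z = Y3 + l3 v ∧ 1 ≤ l3 v ∧ l3 v ≤ b3) ∨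
      (∃ j : Fin (m + 1), z = Sum.inr j ∧ j.val < nP ∧ j.val % 2 = 0 ∧
        lab z = YL + LP j.val ∧ 1 ≤ LP j.val ∧ LP j.val ≤ pY) ∨
      (∃ j : Fin (m + 1), z = Sum.inr j ∧ j.val = nP ∧ j.val % 2 = 0 ∧ lab z = wl) ∨
      (∃ j : Fin (m + 1), z = Sum.inr j ∧ nP < j.val ∧ j.val % 2 = 0 ∧
        lab z = LL (j.val - nP - 1) ∧ 1 ≤ LL (j.val - nP - 1) ∧ LL (j.val - nP - 1) ≤ YL) := by
    rintro ((v | v) | j) hz
    · have hv : c2 v = false := (C2 v).symm.trans hz
      left; exact ⟨v, rfl, hv, L2f v hv⟩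
    · have hv : c3 v = false := (C3 v).symm.trans hz
      right; left; exact ⟨v, rfl, hv, L3f v hv⟩
    · have hp : j.val % 2 = 0 := by
        rcases Nat.mod_two_eq_zero_or_one j.val with hp | hp
        · exact hp
        · rw [CPt j hp] at hz; exact absurd hz (by decide)
      rcases Nat.lt_trichotomy j.val nP with h | h | h
      · right; right; left
        exact ⟨j, rfl, h, hp, LPe j h hp⟩
      · right; right; right; left
        exact ⟨j, rfl, h, hp, Lw j h⟩
      · right; right; right; right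
        exact ⟨j, rfl, h, hp, LLe j h hp⟩
  have kind : ∀ z, cls z = true ∨ cls z = false := by
    intro z; cases cls z <;> simp
  obtain ⟨XT, hXT⟩ : ∃ XT, XT = XL + pX + a2 + a3 + nP % 2 := ⟨_, rfl⟩
  obtain ⟨YT, hYT⟩ : ∃ YT, YT = YL + pY + b2 + b3 + (1 - nP % 2) := ⟨_, rfl⟩
  have hfin : ∀ j k : Fin (m + 1), j.val = k.val →
      (Sum.inr j : (V2 ⊕ V3) ⊕ Fin (m + 1)) = Sum.inr k := by
    intro j k h; rw [Fin.ext h]
  -- positions of the blocks
  have q1 : XL + pX ≤ X2 ∧ XL + pX ≤ X3 ∧ YL + pY ≤ Y2 ∧ YL + pY ≤ Y3 := by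
    clear hs hpar; omega
  have q2 : X2 + a2 ≤ X3 ∨ X3 + a3 ≤ X2 := by
    clear hs hpar; omega
  have q3 : Y2 + b2 ≤ Y3 ∨ Y3 + b3 ≤ Y2 := by
    clear hs hpar; omega
  have q4 : X2 + a2 ≤ XL + pX + a2 + a3 ∧ X3 + a3 ≤ XL + pX + a2 + a3 ∧
      Y2 + b2 ≤ YL + pY + b2 + b3 ∧ Y3 + b3 ≤ YL + pY + b2 + b3 := by
    clear hs hpar; omega
  have q5 : nP % 2 = 1 → wl = XL + pX + a2 + a3 + 1 := by
    intro hh
    rcases hpar with h | h
    · omega
    · exact h.2.2.2.1
  have q6 : nP % 2 = 0 → wl = YL + pY + b2 + b3 + 1 := by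
    intro hh
    rcases hpar with h | h
    · exact h.2.2.2.1
    · omega
  have hinjt : ∀ y z, cls y = true → cls z = true → lab y = lab z → y = z := by
    clear hs hpar hord hw hXT hYT Kf L2t L2f L3t L3f LPe LPo Lw LLo LLe C2 C3 CPt CPf q3 q6 hpX hpY
    intro y z hy hz h
    rcases Kt y hy with ⟨v, e1, e2, e3, e4, e5⟩ | ⟨v, e1, e2, e3, e4, e5⟩ |
      ⟨j, e1, e2, e3, e4, e5, e6⟩ | ⟨j, e1, e2, e3, e4⟩ | ⟨j, e1, e2, e3, e4, e5, e6⟩ <;>
    rcases Kt z hz with ⟨u, d1, d2, d3, d4, d5⟩ | ⟨u, d1, d2, d3, d4, d5⟩ |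
      ⟨k, d1, d2, d3, d4, d5, d6⟩ | ⟨k, d1, d2, d3, d4⟩ | ⟨k, d1, d2, d3, d4, d5, d6⟩
    · rw [e1, d1, B2.inj v u (by rw [e2, d2]) (by omega)]
    · omega
    · omega
    · have hwl := q5 (by rw [← d2]; exact d3)
      omega
    · omega
    · omega
    · rw [e1, d1, B3.inj v u (by rw [e2, d2]) (by omega)]
    · omega
    · have hwl := q5 (by rw [← d2]; exact d3)
      omega
    · omega
    · omega
    · omega
    · rw [e1, d1]
      exact hfin j k (PP.inj j.val e2 k.val d2 (by omega) (by omega))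
    · have hwl := q5 (by rw [← d2]; exact d3)
      omega
    · omega
    · have hwl := q5 (by rw [← e2]; exact e3)
      omega
    · have hwl := q5 (by rw [← e2]; exact e3)
      omega
    · have hwl := q5 (by rw [← e2]; exact e3)
      omega
    · rw [e1, d1]
      exact hfin j k (by omega)
    · have hwl := q5 (by rw [← e2]; exact e3)
      omega
    · omega
    · omega
    · omega
    · have hwl := q5 (by rw [← d2]; exact d3)
      omega
    · rw [e1, d1]
      have hj := j.isLt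
      have hk := k.isLt
      have := PLL.inj (j.val - nP - 1) (by omega) (k.val - nP - 1) (by omega) (by omega) (by omega)
      exact hfin j k (by omega)
  have hinjf : ∀ y z, cls y = false → cls z = false → lab y = lab z → y = z := by
    clear hs hpar hord hw hXT hYT Kt L2t L2f L3t L3f LPe LPo Lw LLo LLe C2 C3 CPt CPf q2 q5 hpX hpY
      hinjt
    intro y z hy hz h
    rcases Kf y hy with ⟨v, e1, e2, e3, e4, e5⟩ | ⟨v, e1, e2, e3, e4, e5⟩ |
      ⟨j, e1, e2, e3, e4, e5, e6⟩ | ⟨j, e1, e2, e3, e4⟩ | ⟨j, e1, e2, e3, e4, e5, e6⟩ <;>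
    rcases Kf z hz with ⟨u, d1, d2, d3, d4, d5⟩ | ⟨u, d1, d2, d3, d4, d5⟩ |
      ⟨k, d1, d2, d3, d4, d5, d6⟩ | ⟨k, d1, d2, d3, d4⟩ | ⟨k, d1, d2, d3, d4, d5, d6⟩
    · rw [e1, d1, B2.inj v u (by rw [e2, d2]) (by omega)]
    · omega
    · omega
    · have hwl := q6 (by rw [← d2]; exact d3)
      omega
    · omega
    · omega
    · rw [e1, d1, B3.inj v u (by rw [e2, d2]) (by omega)]
    · omega
    · have hwl := q6 (by rw [← d2]; exact d3)
      omega
    · omega
    · omega
    · omega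
    · rw [e1, d1]
      exact hfin j k (PP.inj j.val e2 k.val d2 (by omega) (by omega))
    · have hwl := q6 (by rw [← d2]; exact d3)
      omega
    · omega
    · have hwl := q6 (by rw [← e2]; exact e3)
      omega
    · have hwl := q6 (by rw [← e2]; exact e3)
      omega
    · have hwl := q6 (by rw [← e2]; exact e3)
      omega
    · rw [e1, d1]
      exact hfin j k (by omega)
    · have hwl := q6 (by rw [← e2]; exact e3)
      omega
    · omega
    · omega
    · omega
    · have hwl := q6 (by rw [← d2]; exact d3)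
      omega
    · rw [e1, d1]
      have hj := j.isLt
      have hk := k.isLt
      have := PLL.inj (j.val - nP - 1) (by omega) (k.val - nP - 1) (by omega) (by omega) (by omega)
      exact hfin j k (by omega)
  -- the kinds of edges
  have E : ∀ y z, (tailG T2 T3 t m).Adj y z → cls y = true → cls z = false ∧
      ((∃ u v, y = Sum.inl (Sum.inl u) ∧ z = Sum.inl (Sum.inl v) ∧ T2.Adj u v ∧ c2 u = true ∧
          lab y + lab z = X2 + Y2 + (l2 u + l2 v) ∧ 2 ≤ l2 u + l2 v ∧ l2 u + l2 v ≤ a2 + b2) ∨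
        (∃ u v, y = Sum.inl (Sum.inr u) ∧ z = Sum.inl (Sum.inr v) ∧ T3.Adj u v ∧ c3 u = true ∧
          lab y + lab z = X3 + Y3 + (l3 u + l3 v) ∧ 2 ≤ l3 u + l3 v ∧ l3 u + l3 v ≤ a3 + b3) ∨
        (∃ (j k : Fin (m + 1)) (i : ℕ), y = Sum.inr j ∧ z = Sum.inr k ∧ j.val % 2 = 1 ∧
          ((j.val = i ∧ k.val = i + 1) ∨ (j.val = i + 1 ∧ k.val = i)) ∧
          ((i + 1 < nP ∧ lab y + lab z = nL + (LP i + LP (i + 1)) ∧ 2 ≤ LP i + LP (i + 1) ∧
              LP i + LP (i + 1) ≤ nP) ∨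
            (i + 1 = nP ∧ lab y + lab z = pe + wl) ∨ (i = nP ∧ lab y + lab z = nL + 1) ∨
            (nP < i ∧ lab y + lab z = LL (i - nP - 1) + LL (i - nP - 1 + 1) ∧
              2 ≤ LL (i - nP - 1) + LL (i - nP - 1 + 1) ∧
              LL (i - nP - 1) + LL (i - nP - 1 + 1) ≤ nL ∧ i - nP - 1 + 1 < nL))) ∨
        (y = Sum.inl (Sum.inr t) ∧ z = Sum.inr 0 ∧ lab y + lab z = X3 + l3 t + (YL + s))) := by
    clear hs hord hXT hYT Kf Kt hinjt hinjf q1 q2 q3 q4 q5 q6
    intro y z hyz hy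
    rcases tailG_adj T2 T3 t m y z hyz with ⟨u, v, rfl, rfl, h⟩ | ⟨u, v, rfl, rfl, h⟩ |
      ⟨j, k, rfl, rfl, h⟩ | ⟨rfl, rfl⟩ | ⟨rfl, rfl⟩
    · have hu : c2 u = true := (C2 u).symm.trans hy
      have hv := B2.other h hu
      refine ⟨(C2 v).trans hv, Or.inl ⟨u, v, rfl, rfl, h, hu, ?_⟩⟩
      have g1 := L2t u hu
      have g2 := L2f v hv
      clear hpar; omega
    · have hu : c3 u = true := (C3 u).symm.trans hy
      have hv := B3.other h hu
      refine ⟨(C3 v).trans hv, Or.inr (Or.inl ⟨u, v, rfl, rfl, h, hu, ?_⟩)⟩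
      have g1 := L3t u hu
      have g2 := L3f v hv
      clear hpar; omega
    · have hj : j.val % 2 = 1 := by
        rcases Nat.mod_two_eq_zero_or_one j.val with hp | hp
        · rw [CPf j hp] at hy; exact absurd hy (by decide)
        · exact hp
      have hk : k.val % 2 = 0 := by clear hpar; omega
      have lj := j.isLt
      have lk := k.isLt
      refine ⟨CPf k hk, Or.inr (Or.inr (Or.inl ⟨j, k, min j.val k.val, rfl, rfl, hj, ?_, ?_⟩))⟩
      · clear hpar; omega
      · rcases h with h | h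
        · rw [show min j.val k.val = j.val by omega]
          rcases Nat.lt_trichotomy (j.val + 1) nP with h5 | h5 | h5
          · left
            have g1 := LPo j (by omega) hj
            have g2 := LPe k (by omega) hk
            rw [← h] at g2
            clear hpar; omega
          · right; left
            have g1 := LPo j (by omega) hj
            have g2 := Lw k (by omega)
            refine ⟨h5, ?_⟩
            rcases hpar with hpar | hpar
            · rw [show nP - 1 = j.val by omega] at hpar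
              omega
            · omega
          · rcases Nat.lt_trichotomy j.val nP with h6 | h6 | h6
            · omega
            · right; right; left
              have g1 := Lw j h6
              have g2 := LLe k (by omega) hk
              rw [show k.val - nP - 1 = 0 by omega, PLL.start] at g2
              refine ⟨h6, ?_⟩
              clear hpar; omega
            · right; right; right
              have g1 := LLo j h6 hj
              have g2 := LLe k (by omega) hk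
              rw [show k.val - nP - 1 = j.val - nP - 1 + 1 by omega] at g2
              clear hpar; omega
        · rw [show min j.val k.val = k.val by omega]
          rcases Nat.lt_trichotomy (k.val + 1) nP with h5 | h5 | h5
          · left
            have g1 := LPo j (by omega) hj
            have g2 := LPe k (by omega) hk
            rw [← h] at g1
            clear hpar; omega
          · right; left
            have g1 := Lw j (by omega)
            have g2 := LPe k (by omega) hk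
            refine ⟨h5, ?_⟩
            rcases hpar with hpar | hpar
            · omega
            · rw [show nP - 1 = k.val by omega] at hpar
              omega
          · rcases Nat.lt_trichotomy k.val nP with h6 | h6 | h6
            · omega
            · right; right; left
              have g1 := LLo j (by omega) hj
              have g2 := Lw k h6
              rw [show j.val - nP - 1 = 0 by omega, PLL.start] at g1
              refine ⟨h6, ?_⟩
              clear hpar; omega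
            · right; right; right
              have g1 := LLo j (by omega) hj
              have g2 := LLe k h6 hk
              rw [show j.val - nP - 1 = k.val - nP - 1 + 1 by omega] at g1
              clear hpar; omega
    · have h0 : (0 : Fin (m + 1)).val % 2 = 0 := rfl
      refine ⟨CPf 0 h0, Or.inr (Or.inr (Or.inr ⟨rfl, rfl, ?_⟩))⟩
      have g1 := L3t t ht
      have g2 := LPe 0 hnP h0
      have g3 : LP (0 : Fin (m + 1)).val = s := PP.start
      rw [g3] at g2
      clear hpar; omega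
    · have h0 : (0 : Fin (m + 1)).val % 2 = 0 := rfl
      rw [CPf 0 h0] at hy
      exact absurd hy (by decide)
  obtain ⟨gt, hgt⟩ : ∃ gt, gt = X3 + l3 t + (YL + s) := ⟨_, rfl⟩
  obtain ⟨gw, hgw⟩ : ∃ gw, gw = pe + wl := ⟨_, rfl⟩
  obtain ⟨S2, hS2⟩ : ∃ S2, S2 = X2 + Y2 := ⟨_, rfl⟩
  obtain ⟨S3, hS3⟩ : ∃ S3, S3 = X3 + Y3 := ⟨_, rfl⟩
  rw [← hgt, ← hgw, ← hS2, ← hS3, hXY, hpXY] at hs
  have card1 : 1 ≤ a2 + b2 ∧ 1 ≤ a3 + b3 := by
    rw [B2.card, B3.card]
    have i2 := h2.connected.nonempty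
    have i3 := h3.connected.nonempty
    exact ⟨Fintype.card_pos, Fintype.card_pos⟩
  have hXYT : XT + YT = nL + nP + a2 + a3 + b2 + b3 + 1 := by
    clear hs hpar hord E Kt Kf hinjt hinjf q1 q2 q3 q4 q5 q6
    omega
  have hn := nums XL YL pX pY X2 Y2 X3 Y3 nL nP a2 b2 a3 b3 gt gw XT YT S2 S3 hXY hpXY hS2 hS3
    card1.1 card1.2 hord hs hXYT
  clear hs hord
  obtain ⟨n23, nlow, nlt, n2t, n3t, nlow2⟩ := hn
  have B : Blk (tailG T2 T3 t m) cls lab XT YT := by
    refine ⟨?_, ?_, ?_, ?_, ?_, ?_, ?_⟩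
    · rw [Fintype.card_sum, Fintype.card_sum, Fintype.card_fin, ← B2.card, ← B3.card]
      clear E n2t n3t hpar n23
      omega
    · intro z
      clear E n2t n3t n23 hpar q2 q3
      rcases kind z with hz | hz
      · rcases Kt z hz with ⟨v, e1, e2, e3, e4, e5⟩ | ⟨v, e1, e2, e3, e4, e5⟩ |
          ⟨j, e1, e2, e3, e4, e5, e6⟩ | ⟨j, e1, e2, e3, e4⟩ | ⟨j, e1, e2, e3, e4, e5, e6⟩
        · omega
        · omega
        · omega
        · have := q5 (by rw [← e2]; exact e3)
          omega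
        · omega
      · rcases Kf z hz with ⟨v, e1, e2, e3, e4, e5⟩ | ⟨v, e1, e2, e3, e4, e5⟩ |
          ⟨j, e1, e2, e3, e4, e5, e6⟩ | ⟨j, e1, e2, e3, e4⟩ | ⟨j, e1, e2, e3, e4, e5, e6⟩
        · omega
        · omega
        · omega
        · have := q6 (by rw [← e2]; exact e3)
          omega
        · omega
    · intro z hz
      clear E n2t n3t n23 hpar q2 q3
      rcases Kt z hz with ⟨v, e1, e2, e3, e4, e5⟩ | ⟨v, e1, e2, e3, e4, e5⟩ |
        ⟨j, e1, e2, e3, e4, e5, e6⟩ | ⟨j, e1, e2, e3, e4⟩ | ⟨j, e1, e2, e3, e4, e5, e6⟩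
      · omega
      · omega
      · omega
      · have := q5 (by rw [← e2]; exact e3)
        omega
      · omega
    · intro z hz
      clear E n2t n3t n23 hpar q2 q3
      rcases Kf z hz with ⟨v, e1, e2, e3, e4, e5⟩ | ⟨v, e1, e2, e3, e4, e5⟩ |
        ⟨j, e1, e2, e3, e4, e5, e6⟩ | ⟨j, e1, e2, e3, e4⟩ | ⟨j, e1, e2, e3, e4, e5, e6⟩
      · omega
      · omega
      · omega
      · have := q6 (by rw [← e2]; exact e3)
        omega
      · omega
    · intro y z hyz h
      rcases kind y with hy | hy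
      · exact hinjt y z hy (by rw [← hyz]; exact hy) h
      · exact hinjf y z hy (by rw [← hyz]; exact hy) h
    · intro y z h
      rcases kind y with hy | hy
      · rw [hy, (E y z h hy).1]; decide
      · rcases kind z with hz | hz
        · rw [hy, hz]; decide
        · exfalso
          rcases tailG_adj T2 T3 t m y z h with ⟨u, v, rfl, rfl, h5⟩ | ⟨u, v, rfl, rfl, h5⟩ |
            ⟨j, k, rfl, rfl, h5⟩ | ⟨rfl, rfl⟩ | ⟨rfl, rfl⟩
          · rw [C2] at hy hz
            exact B2.col u v h5 (by rw [hy, hz])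
          · rw [C3] at hy hz
            exact B3.col u v h5 (by rw [hy, hz])
          · have p1 : j.val % 2 = 0 := by
              rcases Nat.mod_two_eq_zero_or_one j.val with hp | hp
              · exact hp
              · rw [CPt j hp] at hy; exact absurd hy (by decide)
            have p2 : k.val % 2 = 0 := by
              rcases Nat.mod_two_eq_zero_or_one k.val with hp | hp
              · exact hp
              · rw [CPt k hp] at hz; exact absurd hz (by decide)
            clear E n2t n3t n23 hpar q2 q3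
            omega
          · rw [C3, ht] at hy; exact absurd hy (by decide)
          · rw [C3, ht] at hz; exact absurd hz (by decide)
    · intro y z y' z' h h' hy hy' hsum
      have f1 := (E y z h hy).2
      have f2 := (E y' z' h' hy').2
      rw [← hS2, ← hS3, ← hgt, ← hgw] at f1 f2
      clear E hpar nlt hinjt hinjf Kt Kf L2t L2f L3t L3f LPe LPo Lw LLo LLe C2 C3 CPt
        CPf q1 q2 q3 q4 q5 q6 kind hXT hYT hpX hpY hXY hpXY hw hcls hlab hgt hgw hS2 hS3 h h'
      rcases f1 with ⟨u, v, e1, e2, e3, e4, e5, e6, e7⟩ | ⟨u, v, e1, e2, e3, e4, e5, e6, e7⟩ |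
        ⟨j, k, i, e1, e2, e3, e4, e5⟩ | ⟨e1, e2, e3⟩ <;>
      rcases f2 with ⟨u', v', d1, d2, d3, d4, d5, d6, d7⟩ |
        ⟨u', v', d1, d2, d3, d4, d5, d6, d7⟩ | ⟨j', k', i', d1, d2, d3, d4, d5⟩ | ⟨d1, d2, d3⟩
      · obtain ⟨r1, r2⟩ := B2.sum u v u' v' e3 d3 e4 d4 (by omega)
        rw [e1, e2, d1, d2, r1, r2]; exact ⟨rfl, rfl⟩
      · exfalso; omega
      · exfalso
        have n1 := n2t _ e6 e7
        rcases d5 with d5 | d5 | d5 | d5 <;> omega
      · exfalso
        have n1 := n2t _ e6 e7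
        omega
      · exfalso; omega
      · obtain ⟨r1, r2⟩ := B3.sum u v u' v' e3 d3 e4 d4 (by omega)
        rw [e1, e2, d1, d2, r1, r2]; exact ⟨rfl, rfl⟩
      · exfalso
        have n1 := n3t _ e6 e7
        rcases d5 with d5 | d5 | d5 | d5 <;> omega
      · exfalso
        have n1 := n3t _ e6 e7
        omega
      · exfalso
        have n1 := n2t _ d6 d7
        rcases e5 with e5 | e5 | e5 | e5 <;> omega
      · exfalso
        have n1 := n3t _ d6 d7
        rcases e5 with e5 | e5 | e5 | e5 <;> omega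
      · have hii : i = i' := by
          rcases e5 with e5 | e5 | e5 | e5 <;> rcases d5 with d5 | d5 | d5 | d5
          · exact PP.sinj i e5.1 i' d5.1 (by omega)
          · omega
          · omega
          · omega
          · omega
          · omega
          · omega
          · omega
          · omega
          · omega
          · omega
          · omega
          · omega
          · omega
          · omega
          · have := PLL.sinj (i - nP - 1) e5.2.2.2.2 (i' - nP - 1) d5.2.2.2.2 (by omega)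
            omega
        have r1 : j = j' := Fin.ext (by omega)
        have r2 : k = k' := Fin.ext (by omega)
        rw [e1, e2, d1, d2, r1, r2]; exact ⟨rfl, rfl⟩
      · exfalso
        rcases e5 with e5 | e5 | e5 | e5 <;> omega
      · exfalso
        have n1 := n2t _ d6 d7
        omega
      · exfalso
        have n1 := n3t _ d6 d7
        omega
      · exfalso
        rcases d5 with d5 | d5 | d5 | d5 <;> omega
      · rw [e1, e2, d1, d2]; exact ⟨rfl, rfl⟩
  refine sem_of_blk B ?_ (tailG_card T2 T3 t m h2 h3)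
  have key : ∀ y z, (tailG T2 T3 t m).Adj y z → cls y = true → lab y + lab z < XT + YT := by
    intro y z h hy
    have f1 := (E y z h hy).2
    rw [← hS2, ← hS3, ← hgt, ← hgw] at f1
    clear E hpar n23 n2t n3t nlow2 nlow hinjt hinjf Kt Kf
    rcases f1 with ⟨u, v, e1, e2, e3, e4, e5, e6, e7⟩ | ⟨u, v, e1, e2, e3, e4, e5, e6, e7⟩ |
        ⟨j, k, i, e1, e2, e3, e4, e5⟩ | ⟨e1, e2, e3⟩
    · omega
    · omega
    · rcases e5 with e5 | e5 | e5 | e5 <;> omega
    · omega
  intro y z h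
  rcases kind y with hy | hy
  · exact key y z h hy
  · have hz : cls z = true := by
      have := B.col y z h
      rcases kind z with hz | hz
      · exact hz
      · rw [hy, hz] at this; exact absurd rfl this
    rw [add_comm]
    exact key z y h.symm hz

end SEMD
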