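import Mathlib
import Pool.Agent.SEMD.Blocks

/-!
A labelled graph, a path with an even number of vertices starting at one of its vertices and
leading to a labelled tree.
-/

set_option autoImplicit false

namespace SEMD

/-- Transfer of a labelling along an injective map between types of the same size. -/
lemma Blk.transfer {V W : Type} [Fintype V] [Fintype W] {G : SimpleGraph V} {G' : SimpleGraph W}
    {c : W → Bool} {l : W → ℕ} {a b : ℕ} (B : Blk G' c l a b) (e : V → W)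
    (he : Function.Injective e) (hc : Fintype.card V = Fintype.card W)
    (h : ∀ x y, G.Adj x y → G'.Adj (e x) (e y)) :
    Blk G (fun x => c (e x)) (fun x => l (e x)) a b := by
  refine ⟨?_, ?_, ?_, ?_, ?_, ?_, ?_⟩
  · rw [hc]; exact B.card
  · intro v; exact B.pos _
  · intro v hv; exact B.le1 _ hv
  · intro v hv; exact B.le2 _ hv
  · intro u v h1 h2
    exact he (B.inj _ _ h1 h2)
  · intro u v h1
    exact B.col _ _ (h _ _ h1)
  · intro u v u' v' h1 h2 h3 h4 h5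
    obtain ⟨r1, r2⟩ := B.sum _ _ _ _ (h _ _ h1) (h _ _ h2) h3 h4 h5
    exact ⟨he r1, he r2⟩

lemma Blk.sum_le {V : Type} [Fintype V] {T : SimpleGraph V} {c : V → Bool} {l : V → ℕ} {a b : ℕ}
    (B : Blk T c l a b) {u v : V} (h : T.Adj u v) : 2 ≤ l u + l v ∧ l u + l v ≤ a + b := by
  have p1 := B.pos u
  have p2 := B.pos v
  have hc := B.col u v h
  cases hu : c u
  · cases hv : c v
    · rw [hu, hv] at hc; exact absurd rfl hc
    · have e1 := B.le2 u hu
      have e2 := B.le1 v hv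
      omega
  · cases hv : c v
    · have e1 := B.le1 u hu
      have e2 := B.le2 v hv
      omega
    · rw [hu, hv] at hc; exact absurd rfl hc

/-- Gluing. -/
lemma glue {U V4 W : Type} [Fintype U] [Fintype V4] [Fintype W] {H : SimpleGraph U}
    {T4 : SimpleGraph V4} {G : SimpleGraph W} {cT : U → Bool} {lT : U → ℕ} {XT YT : ℕ}
    {c4 : V4 → Bool} {l4 : V4 → ℕ} {a4 b4 : ℕ} (BT : Blk H cT lT XT YT) (B4 : Blk T4 c4 l4 a4 b4)
    (N q : ℕ) (LQ : ℕ → ℕ) (e : U) (t4 : V4) (PQ : PL (2 * N) (l4 t4) LQ)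
    (iT : U → W) (i4 : V4 → W) (iQ : ℕ → W)
    (hcard : Fintype.card W = Fintype.card U + Fintype.card V4 + 2 * N)
    (hcov : ∀ z : W, (∃ u, z = iT u) ∨ (∃ v, z = i4 v) ∨ (∃ k, k < 2 * N ∧ z = iQ k))
    (cls : W → Bool) (lab : W → ℕ) (hcT : ∀ u, cls (iT u) = cT u)
    (hlT1 : ∀ u, cT u = true → lab (iT u) = N + a4 + lT u)
    (hlT2 : ∀ u, cT u = false → lab (iT u) = N + b4 + lT u)
    (hc4 : ∀ v, cls (i4 v) = c4 v) (hl4 : ∀ v, lab (i4 v) = N + l4 v)
    (hcQ : ∀ k, k < 2 * N → cls (iQ k) = decide ((q + k) % 2 = 1))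
    (hlQ : ∀ k, k < 2 * N → lab (iQ k) = LQ k) (hN : 1 ≤ N)
    (hlt : ∀ y z, H.Adj y z → lT y + lT z < XT + YT) (hXY : 2 ≤ XT + YT)
    (heQ : cT e = decide (q % 2 = 0)) (h4Q : c4 t4 = decide (q % 2 = 1))
    (hk : (q % 2 = 1 ∧ N + 1 + a4 = lT e + l4 t4) ∨ (q % 2 = 0 ∧ N + 1 + b4 = lT e + l4 t4))
    (hE : ∀ x y, G.Adj x y → (∃ u v, H.Adj u v ∧ x = iT u ∧ y = iT v) ∨
      (∃ u v, T4.Adj u v ∧ x = i4 u ∧ y = i4 v) ∨
      (∃ k, k + 1 < 2 * N ∧ ((x = iQ k ∧ y = iQ (k + 1)) ∨ (x = iQ (k + 1) ∧ y = iQ k))) ∨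
      ((x = iT e ∧ y = iQ 0) ∨ (x = iQ 0 ∧ y = iT e)) ∨
      ((x = i4 t4 ∧ y = iQ (2 * N - 1)) ∨ (x = iQ (2 * N - 1) ∧ y = i4 t4))) :
    Blk G cls lab (XT + N + a4) (YT + N + b4) ∧
      ∀ x y, G.Adj x y → lab x + lab y < (XT + N + a4) + (YT + N + b4) := by
  have kind : ∀ z, cls z = true ∨ cls z = false := by
    intro z; cases cls z <;> simp
  have kindT : ∀ z, cT z = true ∨ cT z = false := by
    intro z; cases cT z <;> simp
  have QX : ∀ k, k < 2 * N → 1 ≤ LQ k ∧ LQ k ≤ N := by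
    intro k hk'
    refine ⟨PQ.pos k hk', ?_⟩
    rcases Nat.mod_two_eq_zero_or_one k with h | h
    · have := PQ.ev k hk' h; omega
    · have := PQ.od k hk' h; omega
  have hc4' : 1 ≤ a4 + b4 := by
    rw [B4.card]
    have : Nonempty V4 := ⟨t4⟩
    exact Fintype.card_pos
  have hlast : LQ (2 * N - 1) + l4 t4 = N + 1 := by
    have := PQ.last
    omega
  -- edges and their sums
  have E : ∀ x y, G.Adj x y → cls x ≠ cls y ∧
      ((∃ u v, H.Adj u v ∧ x = iT u ∧ y = iT v ∧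
          lab x + lab y = 2 * N + a4 + b4 + (lT u + lT v) ∧ 2 ≤ lT u + lT v ∧
          lT u + lT v < XT + YT) ∨
        (∃ u v, T4.Adj u v ∧ x = i4 u ∧ y = i4 v ∧ lab x + lab y = 2 * N + (l4 u + l4 v) ∧
          2 ≤ l4 u + l4 v ∧ l4 u + l4 v ≤ a4 + b4) ∨
        (∃ k, k + 1 < 2 * N ∧ ((x = iQ k ∧ y = iQ (k + 1)) ∨ (x = iQ (k + 1) ∧ y = iQ k)) ∧
          lab x + lab y = LQ k + LQ (k + 1) ∧ 2 ≤ LQ k + LQ (k + 1) ∧
          LQ k + LQ (k + 1) ≤ 2 * N) ∨
        (((x = iT e ∧ y = iQ 0) ∨ (x = iQ 0 ∧ y = iT e)) ∧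
          lab x + lab y = 2 * N + a4 + b4 + 1) ∨
        (((x = i4 t4 ∧ y = iQ (2 * N - 1)) ∨ (x = iQ (2 * N - 1) ∧ y = i4 t4)) ∧
          lab x + lab y = 2 * N + 1)) := by
    intro x y hxy
    rcases hE x y hxy with ⟨u, v, h1, h2, h3⟩ | ⟨u, v, h1, h2, h3⟩ | ⟨k, h1, h2⟩ | h1 | h1
    · have hc := BT.col u v h1
      have hs := BT.sum_le h1
      have hs2 := hlt u v h1
      refine ⟨by rw [h2, h3, hcT, hcT]; exact hc, Or.inl ⟨u, v, h1, h2, h3, ?_, hs.1, hs2⟩⟩
      rcases kindT u with hu | hu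
      · rcases kindT v with hv | hv
        · rw [hu, hv] at hc; exact absurd rfl hc
        · rw [h2, h3, hlT1 u hu, hlT2 v hv]; omega
      · rcases kindT v with hv | hv
        · rw [h2, h3, hlT2 u hu, hlT1 v hv]; omega
        · rw [hu, hv] at hc; exact absurd rfl hc
    · have hc := B4.col u v h1
      have hs := B4.sum_le h1
      refine ⟨by rw [h2, h3, hc4, hc4]; exact hc,
        Or.inr (Or.inl ⟨u, v, h1, h2, h3, ?_, hs.1, hs.2⟩)⟩
      rw [h2, h3, hl4, hl4]; omega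
    · have q1 := QX k (by omega)
      have q2 := QX (k + 1) (by omega)
      refine ⟨?_, Or.inr (Or.inr (Or.inl ⟨k, h1, h2, ?_, by omega, by omega⟩))⟩
      · rcases h2 with ⟨r1, r2⟩ | ⟨r1, r2⟩
        · rw [r1, r2, hcQ k (by omega), hcQ (k + 1) (by omega)]
          intro hh
          rw [decide_eq_decide] at hh
          omega
        · rw [r1, r2, hcQ k (by omega), hcQ (k + 1) (by omega)]
          intro hh
          rw [decide_eq_decide] at hh
          omega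
      · rcases h2 with ⟨r1, r2⟩ | ⟨r1, r2⟩
        · rw [r1, r2, hlQ k (by omega), hlQ (k + 1) (by omega)]
        · rw [r1, r2, hlQ k (by omega), hlQ (k + 1) (by omega), add_comm]
    · have hcc : cls (iT e) ≠ cls (iQ 0) := by
        rw [hcT, heQ, hcQ 0 (by omega)]
        intro hh
        rw [decide_eq_decide] at hh
        omega
      have hss : lab (iT e) + lab (iQ 0) = 2 * N + a4 + b4 + 1 := by
        rw [hlQ 0 (by omega), PQ.start]
        rcases hk with ⟨k1, k2⟩ | ⟨k1, k2⟩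
        · have : cT e = false := by rw [heQ]; simp [k1]
          rw [hlT2 e this]; omega
        · have : cT e = true := by rw [heQ]; simp [k1]
          rw [hlT1 e this]; omega
      refine ⟨?_, Or.inr (Or.inr (Or.inr (Or.inl ⟨h1, ?_⟩)))⟩
      · rcases h1 with ⟨r1, r2⟩ | ⟨r1, r2⟩
        · rw [r1, r2]; exact hcc
        · rw [r1, r2]; exact hcc.symm
      · rcases h1 with ⟨r1, r2⟩ | ⟨r1, r2⟩
        · rw [r1, r2]; exact hss
        · rw [r1, r2, add_comm]; exact hss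
    · have hcc : cls (i4 t4) ≠ cls (iQ (2 * N - 1)) := by
        rw [hc4, h4Q, hcQ (2 * N - 1) (by omega)]
        intro hh
        rw [decide_eq_decide] at hh
        omega
      have hss : lab (i4 t4) + lab (iQ (2 * N - 1)) = 2 * N + 1 := by
        rw [hlQ (2 * N - 1) (by omega), hl4]
        omega
      refine ⟨?_, Or.inr (Or.inr (Or.inr (Or.inr ⟨h1, ?_⟩)))⟩
      · rcases h1 with ⟨r1, r2⟩ | ⟨r1, r2⟩
        · rw [r1, r2]; exact hcc
        · rw [r1, r2]; exact hcc.symm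
      · rcases h1 with ⟨r1, r2⟩ | ⟨r1, r2⟩
        · rw [r1, r2]; exact hss
        · rw [r1, r2, add_comm]; exact hss
  refine ⟨⟨?_, ?_, ?_, ?_, ?_, ?_, ?_⟩, ?_⟩
  · have k1 := BT.card
    have k2 := B4.card
    omega
  · intro z
    rcases hcov z with ⟨u, rfl⟩ | ⟨v, rfl⟩ | ⟨k, h1, rfl⟩
    · have := BT.pos u
      rcases kindT u with hu | hu
      · rw [hlT1 u hu]; omega
      · rw [hlT2 u hu]; omega
    · have := B4.pos v
      rw [hl4]; omega
    · rw [hlQ k h1]; exact (QX k h1).1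
  · intro z hz
    rcases hcov z with ⟨u, rfl⟩ | ⟨v, rfl⟩ | ⟨k, h1, rfl⟩
    · rw [hcT] at hz
      have := BT.le1 u hz
      rw [hlT1 u hz]; omega
    · rw [hc4] at hz
      have := B4.le1 v hz
      rw [hl4]; omega
    · have := (QX k h1).2
      rw [hlQ k h1]; omega
  · intro z hz
    rcases hcov z with ⟨u, rfl⟩ | ⟨v, rfl⟩ | ⟨k, h1, rfl⟩
    · rw [hcT] at hz
      have := BT.le2 u hz
      rw [hlT2 u hz]; omega
    · rw [hc4] at hz
      have := B4.le2 v hz
      rw [hl4]; omega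
    · have := (QX k h1).2
      rw [hlQ k h1]; omega
  · -- injectivity
    have shape : ∀ z, (cls z = true → (∃ u, z = iT u ∧ cT u = true ∧ lab z = N + a4 + lT u ∧
          1 ≤ lT u) ∨ (∃ v, z = i4 v ∧ c4 v = true ∧ lab z = N + l4 v ∧ 1 ≤ l4 v ∧ l4 v ≤ a4) ∨
          (∃ k, k < 2 * N ∧ z = iQ k ∧ (q + k) % 2 = 1 ∧ lab z = LQ k ∧ LQ k ≤ N)) ∧
        (cls z = false → (∃ u, z = iT u ∧ cT u = false ∧ lab z = N + b4 + lT u ∧
          1 ≤ lT u) ∨ (∃ v, z = i4 v ∧ c4 v = false ∧ lab z = N + l4 v ∧ 1 ≤ l4 v ∧ l4 v ≤ b4) ∨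
          (∃ k, k < 2 * N ∧ z = iQ k ∧ (q + k) % 2 = 0 ∧ lab z = LQ k ∧ LQ k ≤ N)) := by
      intro z
      rcases hcov z with ⟨u, rfl⟩ | ⟨v, rfl⟩ | ⟨k, h1, rfl⟩
      · constructor
        · intro hz
          rw [hcT] at hz
          left; exact ⟨u, rfl, hz, hlT1 u hz, BT.pos u⟩
        · intro hz
          rw [hcT] at hz
          left; exact ⟨u, rfl, hz, hlT2 u hz, BT.pos u⟩
      · constructor
        · intro hz
          rw [hc4] at hz
          right; left; exact ⟨v, rfl, hz, hl4 v, B4.pos v, B4.le1 v hz⟩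
        · intro hz
          rw [hc4] at hz
          right; left; exact ⟨v, rfl, hz, hl4 v, B4.pos v, B4.le2 v hz⟩
      · constructor
        · intro hz
          rw [hcQ k h1] at hz
          right; right; exact ⟨k, h1, rfl, by simpa using hz, hlQ k h1, (QX k h1).2⟩
        · intro hz
          rw [hcQ k h1] at hz
          have hz' : ¬ ((q + k) % 2 = 1) := by simpa using hz
          right; right; exact ⟨k, h1, rfl, by omega, hlQ k h1, (QX k h1).2⟩
    intro y z hyz h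
    rcases kind y with hy | hy
    · have hz : cls z = true := by rw [← hyz]; exact hy
      rcases (shape y).1 hy with ⟨u, e1, e2, e3, e4⟩ | ⟨v, e1, e2, e3, e4, e5⟩ |
        ⟨k, e1, e2, e3, e4, e5⟩ <;>
      rcases (shape z).1 hz with ⟨u', d1, d2, d3, d4⟩ | ⟨v', d1, d2, d3, d4, d5⟩ |
        ⟨k', d1, d2, d3, d4, d5⟩
      · rw [e1, d1, BT.inj u u' (by rw [e2, d2]) (by omega)]
      · omega
      · omega
      · omega
      · rw [e1, d1, B4.inj v v' (by rw [e2, d2]) (by omega)]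
      · omega
      · omega
      · omega
      · rw [e2, d2, PQ.inj k e1 k' d1 (by omega) (by omega)]
    · have hz : cls z = false := by rw [← hyz]; exact hy
      rcases (shape y).2 hy with ⟨u, e1, e2, e3, e4⟩ | ⟨v, e1, e2, e3, e4, e5⟩ |
        ⟨k, e1, e2, e3, e4, e5⟩ <;>
      rcases (shape z).2 hz with ⟨u', d1, d2, d3, d4⟩ | ⟨v', d1, d2, d3, d4, d5⟩ |
        ⟨k', d1, d2, d3, d4, d5⟩
      · rw [e1, d1, BT.inj u u' (by rw [e2, d2]) (by omega)]
      · omega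
      · omega
      · omega
      · rw [e1, d1, B4.inj v v' (by rw [e2, d2]) (by omega)]
      · omega
      · omega
      · omega
      · rw [e2, d2, PQ.inj k e1 k' d1 (by omega) (by omega)]
  · intro u v h
    exact (E u v h).1
  · intro x y x' y' h h' hx hx' hsum
    obtain ⟨c1, f1⟩ := E x y h
    obtain ⟨c2, f2⟩ := E x' y' h'
    have hcx : cls x = cls x' := by rw [hx, hx']
    rcases f1 with ⟨u, v, e1, e2, e3, e4, e5, e6⟩ | ⟨u, v, e1, e2, e3, e4, e5, e6⟩ |
      ⟨k, e1, e2, e3, e4, e5⟩ | ⟨e1, e2⟩ | ⟨e1, e2⟩ <;>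
    rcases f2 with ⟨u', v', d1, d2, d3, d4, d5, d6⟩ | ⟨u', v', d1, d2, d3, d4, d5, d6⟩ |
      ⟨k', d1, d2, d3, d4, d5⟩ | ⟨d1, d2⟩ | ⟨d1, d2⟩
    · rw [e2, hcT] at hx
      rw [d2, hcT] at hx'
      obtain ⟨r1, r2⟩ := BT.sum u v u' v' e1 d1 hx hx' (by omega)
      rw [e2, e3, d2, d3, r1, r2]; exact ⟨rfl, rfl⟩
    · exfalso; omega
    · exfalso; omega
    · exfalso; omega
    · exfalso; omega
    · exfalso; omega
    · rw [e2, hc4] at hx
      rw [d2, hc4] at hx'
      obtain ⟨r1, r2⟩ := B4.sum u v u' v' e1 d1 hx hx' (by omega)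
      rw [e2, e3, d2, d3, r1, r2]; exact ⟨rfl, rfl⟩
    · exfalso; omega
    · exfalso; omega
    · exfalso; omega
    · exfalso; omega
    · exfalso; omega
    · have hkk : k = k' := PQ.sinj k e1 k' d1 (by omega)
      subst hkk
      rcases e2 with ⟨r1, r2⟩ | ⟨r1, r2⟩ <;> rcases d2 with ⟨s1, s2⟩ | ⟨s1, s2⟩
      · rw [r1, r2, s1, s2]; exact ⟨rfl, rfl⟩
      · exfalso
        rw [r1, hcQ k (by omega)] at hx
        rw [s1, hcQ (k + 1) (by omega)] at hx'
        have g1 : (q + k) % 2 = 1 := by simpa using hx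
        have g2 : (q + (k + 1)) % 2 = 1 := by simpa using hx'
        omega
      · exfalso
        rw [r1, hcQ (k + 1) (by omega)] at hx
        rw [s1, hcQ k (by omega)] at hx'
        have g1 : (q + (k + 1)) % 2 = 1 := by simpa using hx
        have g2 : (q + k) % 2 = 1 := by simpa using hx'
        omega
      · rw [r1, r2, s1, s2]; exact ⟨rfl, rfl⟩
    · exfalso; omega
    · exfalso; omega
    · exfalso; omega
    · exfalso; omega
    · exfalso; omega
    · rcases e1 with ⟨r1, r2⟩ | ⟨r1, r2⟩ <;> rcases d1 with ⟨s1, s2⟩ | ⟨s1, s2⟩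
      · rw [r1, r2, s1, s2]; exact ⟨rfl, rfl⟩
      · exfalso
        rw [s1, s2, ← r1, ← r2] at c2
        rw [s1, ← r2] at hx'
        exact c1 (by rw [hx, hx'])
      · exfalso
        rw [s1, ← r2] at hx'
        exact c1 (by rw [hx, hx'])
      · rw [r1, r2, s1, s2]; exact ⟨rfl, rfl⟩
    · exfalso; omega
    · exfalso; omega
    · exfalso; omega
    · exfalso; omega
    · exfalso; omega
    · rcases e1 with ⟨r1, r2⟩ | ⟨r1, r2⟩ <;> rcases d1 with ⟨s1, s2⟩ | ⟨s1, s2⟩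
      · rw [r1, r2, s1, s2]; exact ⟨rfl, rfl⟩
      · exfalso
        rw [s1, ← r2] at hx'
        exact c1 (by rw [hx, hx'])
      · exfalso
        rw [s1, ← r2] at hx'
        exact c1 (by rw [hx, hx'])
      · rw [r1, r2, s1, s2]; exact ⟨rfl, rfl⟩
  · intro x y h
    have k1 := BT.card
    have k2 := B4.card
    rcases (E x y h).2 with ⟨u, v, e1, e2, e3, e4, e5, e6⟩ | ⟨u, v, e1, e2, e3, e4, e5, e6⟩ |
      ⟨k, e1, e2, e3, e4, e5⟩ | ⟨e1, e2⟩ | ⟨e1, e2⟩
    · omega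
    · omega
    · omega
    · omega
    · omega

end SEMD
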