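import Mathlib
import Pool.Agent.SEMD.Glue

/-!
Attaching a long path to an arbitrary vertex of a labelled graph.
-/

set_option autoImplicit false
set_option linter.unusedSectionVars false

namespace SEMD

/-- The graph `G` together with a new path on `n + 1` vertices whose first vertex is joined to
`e`. -/
def attach {U : Type} (G : SimpleGraph U) (e : U) (n : ℕ) : SimpleGraph (U ⊕ Fin (n + 1)) :=
  (G ⊕g SimpleGraph.pathGraph (n + 1)) ⊔ SimpleGraph.edge (Sum.inl e) (Sum.inr 0)

lemma attach_adj {U : Type} (G : SimpleGraph U) (e : U) (n : ℕ) (x y : U ⊕ Fin (n + 1))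
    (h : (attach G e n).Adj x y) :
    (∃ u v, x = Sum.inl u ∧ y = Sum.inl v ∧ G.Adj u v) ∨
    (∃ j k : Fin (n + 1), j.val + 1 = k.val ∧
      ((x = Sum.inr j ∧ y = Sum.inr k) ∨ (x = Sum.inr k ∧ y = Sum.inr j))) ∨
    ((x = Sum.inl e ∧ y = Sum.inr 0) ∨ (x = Sum.inr 0 ∧ y = Sum.inl e)) := by
  unfold attach at h
  rw [SimpleGraph.sup_adj, SimpleGraph.edge_adj] at h
  rcases h with h | ⟨h, _⟩
  · rcases x with u | j <;> rcases y with v | k
    · left; exact ⟨u, v, rfl, rfl, by simpa using h⟩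
    · simp at h
    · simp at h
    · right; left
      have h1 : (SimpleGraph.pathGraph (n + 1)).Adj j k := by simpa using h
      rw [SimpleGraph.pathGraph_adj] at h1
      rcases h1 with h1 | h1
      · exact ⟨j, k, h1, Or.inl ⟨rfl, rfl⟩⟩
      · exact ⟨k, j, h1, Or.inr ⟨rfl, rfl⟩⟩
  · right; right; exact h

lemma attach_inl {U : Type} {G : SimpleGraph U} {e : U} {n : ℕ} {u v : U} (h : G.Adj u v) :
    (attach G e n).Adj (Sum.inl u) (Sum.inl v) := by
  unfold attach
  rw [SimpleGraph.sup_adj]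
  left; simpa using h

lemma attach_inr {U : Type} {G : SimpleGraph U} {e : U} {n : ℕ} {j k : Fin (n + 1)}
    (h : j.val + 1 = k.val) : (attach G e n).Adj (Sum.inr j) (Sum.inr k) := by
  unfold attach
  rw [SimpleGraph.sup_adj]
  left
  have : (SimpleGraph.pathGraph (n + 1)).Adj j k := by
    rw [SimpleGraph.pathGraph_adj]
    left; exact h
  simpa using this

lemma attach_edge {U : Type} {G : SimpleGraph U} {e : U} {n : ℕ} :
    (attach G e n).Adj (Sum.inl e) (Sum.inr 0) := by
  unfold attach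
  rw [SimpleGraph.sup_adj]
  right
  rw [SimpleGraph.edge_adj]
  simp

/-- The statement of the extension lemma. -/
def Extended {U : Type} [Fintype U] (G : SimpleGraph U) (c : U → Bool) (l : U → ℕ) (a b : ℕ)
    (e : U) (n : ℕ) : Prop :=
  ∃ (c' : U ⊕ Fin (n + 1) → Bool) (l' : U ⊕ Fin (n + 1) → ℕ) (a' b' : ℕ),
    Blk (attach G e n) c' l' a' b' ∧ (∀ u, c' (Sum.inl u) = c u) ∧
    (∀ u, l u + (n + 1) / 2 ≤ l' (Sum.inl u) ∧ l' (Sum.inl u) ≤ l u + (n + 1)) ∧
    (∀ j, l' (Sum.inr j) ≤ n + 1) ∧ l' (Sum.inr (Fin.last n)) = l e ∧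
    (n % 2 = 1 → c' (Sum.inr (Fin.last n)) = c e ∧ a' = a + (n + 1) / 2 ∧
      b' = b + (n + 1) / 2) ∧
    (2 ≤ a + b → (∀ x y, G.Adj x y → l x + l y < a + b) →
      ∀ x y, (attach G e n).Adj x y → l' x + l' y < a' + b')

lemma extend1 {U : Type} [Fintype U] {G : SimpleGraph U} {c : U → Bool} {l : U → ℕ} {a b : ℕ}
    (B : Blk G c l a b) (e : U) (he : c e = true) (n : ℕ) (hn : 2 * l e ≤ n + 1)
    (hn2 : n % 2 = 1 ∨ 4 * l e ≤ n) : Extended G c l a b e n := by
  have le1 := B.pos e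
  have le2 := B.le1 e he
  obtain ⟨s, hs⟩ : ∃ s, s = (n + 2) / 2 + 1 - l e := ⟨_, rfl⟩
  obtain ⟨LP, PP⟩ := PL.exists (n + 1) s (by omega) (by omega) (by omega)
  have hlast := PP.last
  obtain ⟨c', hc'⟩ : ∃ c' : U ⊕ Fin (n + 1) → Bool, c' =
    Sum.elim c (fun j : Fin (n + 1) => decide (j.val % 2 = 1)) := ⟨_, rfl⟩
  obtain ⟨l', hl'⟩ : ∃ l' : U ⊕ Fin (n + 1) → ℕ, l' =
    Sum.elim (fun u => if c u = true then (n + 1) / 2 + l u else (n + 2) / 2 + l u)
      (fun j : Fin (n + 1) => LP j.val) := ⟨_, rfl⟩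
  have C1 : ∀ u, c' (Sum.inl u) = c u := by intro u; rw [hc']; rfl
  have C2 : ∀ j : Fin (n + 1), c' (Sum.inr j) = decide (j.val % 2 = 1) := by
    intro j; rw [hc']; rfl
  have L1 : ∀ u, c u = true → l' (Sum.inl u) = (n + 1) / 2 + l u := by
    intro u hu; rw [hl', Sum.elim_inl, if_pos hu]
  have L2 : ∀ u, c u = false → l' (Sum.inl u) = (n + 2) / 2 + l u := by
    intro u hu; rw [hl', Sum.elim_inl, if_neg (by simp [hu])]
  have L3 : ∀ j : Fin (n + 1), l' (Sum.inr j) = LP j.val := by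
    intro j; rw [hl']; rfl
  have kind : ∀ u, c u = true ∨ c u = false := by
    intro u; cases c u <;> simp
  have PX : ∀ j : Fin (n + 1), 1 ≤ LP j.val ∧ (j.val % 2 = 1 → LP j.val ≤ (n + 1) / 2) ∧
      (j.val % 2 = 0 → LP j.val ≤ (n + 2) / 2) := by
    intro j
    refine ⟨PP.pos _ j.isLt, ?_, ?_⟩
    · intro h
      have := PP.od _ j.isLt h
      omega
    · intro h
      have := PP.ev _ j.isLt h
      omega
  have E : ∀ x y, (attach G e n).Adj x y → c' x ≠ c' y ∧
      ((∃ u v, x = Sum.inl u ∧ y = Sum.inl v ∧ G.Adj u v ∧ l' x + l' y = n + 1 + (l u + l v) ∧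
          2 ≤ l u + l v) ∨
        (∃ j k : Fin (n + 1), j.val + 1 = k.val ∧
          ((x = Sum.inr j ∧ y = Sum.inr k) ∨ (x = Sum.inr k ∧ y = Sum.inr j)) ∧
          l' x + l' y = LP j.val + LP (j.val + 1) ∧ LP j.val + LP (j.val + 1) ≤ n + 1) ∨
        (((x = Sum.inl e ∧ y = Sum.inr 0) ∨ (x = Sum.inr 0 ∧ y = Sum.inl e)) ∧
          l' x + l' y = n + 2)) := by
    intro x y hxy
    rcases attach_adj G e n x y hxy with ⟨u, v, h1, h2, h3⟩ | ⟨j, k, h1, h2⟩ | h1
    · have hc := B.col u v h3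
      have hs := B.sum_le h3
      refine ⟨by rw [h1, h2, C1, C1]; exact hc, Or.inl ⟨u, v, h1, h2, h3, ?_, hs.1⟩⟩
      rcases kind u with hu | hu
      · rcases kind v with hv | hv
        · rw [hu, hv] at hc; exact absurd rfl hc
        · rw [h1, h2, L1 u hu, L2 v hv]; omega
      · rcases kind v with hv | hv
        · rw [h1, h2, L2 u hu, L1 v hv]; omega
        · rw [hu, hv] at hc; exact absurd rfl hc
    · have p1 := PX j
      have p2 := PX k
      have hjk : c' (Sum.inr j) ≠ c' (Sum.inr k) := by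
        rw [C2, C2]
        intro hh
        rw [decide_eq_decide] at hh
        omega
      have hsum : l' (Sum.inr j) + l' (Sum.inr k) = LP j.val + LP (j.val + 1) := by
        rw [L3, L3, h1]
      refine ⟨?_, Or.inr (Or.inl ⟨j, k, h1, h2, ?_, ?_⟩)⟩
      · rcases h2 with ⟨r1, r2⟩ | ⟨r1, r2⟩
        · rw [r1, r2]; exact hjk
        · rw [r1, r2]; exact hjk.symm
      · rcases h2 with ⟨r1, r2⟩ | ⟨r1, r2⟩
        · rw [r1, r2]; exact hsum
        · rw [r1, r2, add_comm]; exact hsum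
      · rw [← h1] at p2
        rcases Nat.mod_two_eq_zero_or_one j.val with hp | hp
        · have q1 := p1.2.2 hp
          have q2 := p2.2.1 (by omega)
          omega
        · have q1 := p1.2.1 hp
          have q2 := p2.2.2 (by omega)
          omega
    · have h0 : LP (0 : Fin (n + 1)).val = s := PP.start
      have hcc : c' (Sum.inl e) ≠ c' (Sum.inr 0) := by
        rw [C1, C2, he]; simp
      have hss : l' (Sum.inl e) + l' (Sum.inr 0) = n + 2 := by
        rw [L1 e he, L3, h0]; omega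
      refine ⟨?_, Or.inr (Or.inr ⟨h1, ?_⟩)⟩
      · rcases h1 with ⟨r1, r2⟩ | ⟨r1, r2⟩
        · rw [r1, r2]; exact hcc
        · rw [r1, r2]; exact hcc.symm
      · rcases h1 with ⟨r1, r2⟩ | ⟨r1, r2⟩
        · rw [r1, r2]; exact hss
        · rw [r1, r2, add_comm]; exact hss
  have inj1 : ∀ x y, c' x = true → c' y = true → l' x = l' y → x = y := by
    rintro (u | j) (v | k) hx hy hxy
    · rw [C1] at hx hy
      rw [L1 u hx, L1 v hy] at hxy
      rw [B.inj u v (by rw [hx, hy]) (by omega)]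
    · exfalso
      rw [C1] at hx
      rw [C2] at hy
      rw [L1 u hx, L3] at hxy
      have g1 := (PX k).2.1 (by simpa using hy)
      have g2 := B.pos u
      omega
    · exfalso
      rw [C1] at hy
      rw [C2] at hx
      rw [L1 v hy, L3] at hxy
      have g1 := (PX j).2.1 (by simpa using hx)
      have g2 := B.pos v
      omega
    · rw [C2] at hx hy
      rw [L3, L3] at hxy
      have g1 : j.val % 2 = 1 := by simpa using hx
      have g2 : k.val % 2 = 1 := by simpa using hy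
      rw [Fin.ext (PP.inj j.val j.isLt k.val k.isLt (by omega) hxy)]
  have inj2 : ∀ x y, c' x = false → c' y = false → l' x = l' y → x = y := by
    rintro (u | j) (v | k) hx hy hxy
    · rw [C1] at hx hy
      rw [L2 u hx, L2 v hy] at hxy
      rw [B.inj u v (by rw [hx, hy]) (by omega)]
    · exfalso
      rw [C1] at hx
      rw [C2] at hy
      rw [L2 u hx, L3] at hxy
      have g0 : ¬ (k.val % 2 = 1) := by simpa using hy
      have g1 := (PX k).2.2 (by omega)
      have g2 := B.pos u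
      omega
    · exfalso
      rw [C1] at hy
      rw [C2] at hx
      rw [L2 v hy, L3] at hxy
      have g0 : ¬ (j.val % 2 = 1) := by simpa using hx
      have g1 := (PX j).2.2 (by omega)
      have g2 := B.pos v
      omega
    · rw [C2] at hx hy
      rw [L3, L3] at hxy
      have g1 : ¬ (j.val % 2 = 1) := by simpa using hx
      have g2 : ¬ (k.val % 2 = 1) := by simpa using hy
      rw [Fin.ext (PP.inj j.val j.isLt k.val k.isLt (by omega) hxy)]
  refine ⟨c', l', a + (n + 1) / 2, b + (n + 2) / 2, ⟨?_, ?_, ?_, ?_, ?_, ?_, ?_⟩, C1, ?_, ?_, ?_,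
    ?_, ?_⟩
  · have := B.card
    rw [Fintype.card_sum, Fintype.card_fin]
    omega
  · rintro (u | j)
    · have := B.pos u
      rcases kind u with hu | hu
      · rw [L1 u hu]; omega
      · rw [L2 u hu]; omega
    · rw [L3]; exact (PX j).1
  · rintro (u | j) hx
    · rw [C1] at hx
      have := B.le1 u hx
      rw [L1 u hx]; omega
    · rw [C2] at hx
      have := (PX j).2.1 (by simpa using hx)
      rw [L3]; omega
  · rintro (u | j) hx
    · rw [C1] at hx
      have := B.le2 u hx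
      rw [L2 u hx]; omega
    · rw [C2] at hx
      have g0 : ¬ (j.val % 2 = 1) := by simpa using hx
      have := (PX j).2.2 (by omega)
      rw [L3]; omega
  · intro x y hxy h
    cases hx : c' x
    · exact inj2 x y hx (by rw [← hxy]; exact hx) h
    · exact inj1 x y hx (by rw [← hxy]; exact hx) h
  · intro x y h
    exact (E x y h).1
  · intro x y x' y' h h' hx hx' hsum
    obtain ⟨d1, f1⟩ := E x y h
    obtain ⟨d2, f2⟩ := E x' y' h'
    rcases f1 with ⟨u, v, e1, e2, e3, e4, e5⟩ | ⟨j, k, e1, e2, e3, e4⟩ | ⟨e1, e2⟩ <;>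
    rcases f2 with ⟨u', v', g1, g2, g3, g4, g5⟩ | ⟨j', k', g1, g2, g3, g4⟩ | ⟨g1, g2⟩
    · rw [e1, C1] at hx
      rw [g1, C1] at hx'
      obtain ⟨r1, r2⟩ := B.sum u v u' v' e3 g3 hx hx' (by omega)
      rw [e1, e2, g1, g2, r1, r2]; exact ⟨rfl, rfl⟩
    · exfalso; omega
    · exfalso; omega
    · exfalso; omega
    · have hk := k.isLt
      have hk' := k'.isLt
      have hjj : j.val = j'.val := PP.sinj j.val (by omega) j'.val (by omega) (by omega)
      have hkk : k.val = k'.val := by omega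
      have hj1 : j = j' := Fin.ext hjj
      have hk1 : k = k' := Fin.ext hkk
      subst hj1
      subst hk1
      rcases e2 with ⟨r1, r2⟩ | ⟨r1, r2⟩ <;> rcases g2 with ⟨s1, s2⟩ | ⟨s1, s2⟩
      · rw [r1, r2, s1, s2]; exact ⟨rfl, rfl⟩
      · exfalso
        rw [s1, ← r2] at hx'
        exact d1 (by rw [hx, hx'])
      · exfalso
        rw [s1, ← r2] at hx'
        exact d1 (by rw [hx, hx'])
      · rw [r1, r2, s1, s2]; exact ⟨rfl, rfl⟩
    · exfalso; omega
    · exfalso; omega
    · exfalso; omega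
    · rcases e1 with ⟨r1, r2⟩ | ⟨r1, r2⟩ <;> rcases g1 with ⟨s1, s2⟩ | ⟨s1, s2⟩
      · rw [r1, r2, s1, s2]; exact ⟨rfl, rfl⟩
      · exfalso
        rw [s1, ← r2] at hx'
        exact d1 (by rw [hx, hx'])
      · exfalso
        rw [s1, ← r2] at hx'
        exact d1 (by rw [hx, hx'])
      · rw [r1, r2, s1, s2]; exact ⟨rfl, rfl⟩
  · intro u
    rcases kind u with hu | hu
    · rw [L1 u hu]; omega
    · rw [L2 u hu]; omega
  · intro j
    have := PX j
    rw [L3]
    rcases Nat.mod_two_eq_zero_or_one j.val with hp | hp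
    · have q1 := this.2.2 hp
      omega
    · have q1 := this.2.1 hp
      omega
  · rw [L3]
    have h1 : (Fin.last n).val = n := rfl
    rw [h1]
    have h2 : n + 1 - 1 = n := rfl
    rw [h2] at hlast
    omega
  · intro hp
    refine ⟨?_, rfl, by omega⟩
    rw [C2, he]
    simp [hp]
  · intro hab hlt x y h
    rcases (E x y h).2 with ⟨u, v, e1, e2, e3, e4, e5⟩ | ⟨j, k, e1, e2, e3, e4⟩ | ⟨e1, e2⟩
    · have := hlt u v e3
      omega
    · omega
    · omega

lemma extend {U : Type} [Fintype U] {G : SimpleGraph U} {c : U → Bool} {l : U → ℕ} {a b : ℕ}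
    (B : Blk G c l a b) (e : U) (n : ℕ) (hn : 2 * l e ≤ n + 1)
    (hn2 : n % 2 = 1 ∨ 4 * l e ≤ n) : Extended G c l a b e n := by
  cases he : c e
  · obtain ⟨c', l', a', b', k1, k2, k3, k4, k5, k6, k7⟩ :=
      extend1 B.swap e (by simp [he]) n hn hn2
    refine ⟨fun x => !c' x, l', b', a', k1.swap, ?_, k3, k4, k5, ?_, ?_⟩
    · intro u; simp [k2]
    · intro hp
      obtain ⟨m1, m2, m3⟩ := k6 hp
      refine ⟨?_, m3, m2⟩
      show (!c' (Sum.inr (Fin.last n))) = c e
      rw [m1]; simp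
    · intro hab hlt x y h
      rw [add_comm b' a']
      exact k7 (by omega) (fun x y h => by rw [add_comm b a]; exact hlt x y h) x y h
  · exact extend1 B e he n hn hn2

end SEMD
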