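import Mathlib
import Pool.Agent.SEMD.Extend

/-!
Attaching a labelled tree to a labelled graph through a long path.
-/

set_option autoImplicit false
set_option linter.unusedSectionVars false

namespace SEMD

/-- The disjoint union of `G`, `T` and a path on `n + 1` vertices, together with an edge between `e`
and the first vertex of the path and an edge between `t` and the last vertex of the path. -/
def join {U V : Type} (G : SimpleGraph U) (T : SimpleGraph V) (e : U) (t : V) (n : ℕ) :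
    SimpleGraph ((U ⊕ V) ⊕ Fin (n + 1)) :=
  (((G ⊕g T) ⊕g SimpleGraph.pathGraph (n + 1)) ⊔
    SimpleGraph.edge (Sum.inl (Sum.inl e)) (Sum.inr 0)) ⊔
    SimpleGraph.edge (Sum.inl (Sum.inr t)) (Sum.inr (Fin.last n))

lemma join_adj {U V : Type} (G : SimpleGraph U) (T : SimpleGraph V) (e : U) (t : V) (n : ℕ)
    (x y : (U ⊕ V) ⊕ Fin (n + 1)) (h : (join G T e t n).Adj x y) :
    (∃ u v, x = Sum.inl (Sum.inl u) ∧ y = Sum.inl (Sum.inl v) ∧ G.Adj u v) ∨
    (∃ u v, x = Sum.inl (Sum.inr u) ∧ y = Sum.inl (Sum.inr v) ∧ T.Adj u v) ∨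
    (∃ j k : Fin (n + 1), j.val + 1 = k.val ∧
      ((x = Sum.inr j ∧ y = Sum.inr k) ∨ (x = Sum.inr k ∧ y = Sum.inr j))) ∨
    ((x = Sum.inl (Sum.inl e) ∧ y = Sum.inr 0) ∨ (x = Sum.inr 0 ∧ y = Sum.inl (Sum.inl e))) ∨
    ((x = Sum.inl (Sum.inr t) ∧ y = Sum.inr (Fin.last n)) ∨
      (x = Sum.inr (Fin.last n) ∧ y = Sum.inl (Sum.inr t))) := by
  unfold join at h
  rw [SimpleGraph.sup_adj, SimpleGraph.sup_adj, SimpleGraph.edge_adj, SimpleGraph.edge_adj] at h
  rcases h with (h | ⟨h, _⟩) | ⟨h, _⟩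
  · rcases x with (u | u) | j <;> rcases y with (v | v) | k
    · left; exact ⟨u, v, rfl, rfl, by simpa using h⟩
    · simp at h
    · simp at h
    · simp at h
    · right; left; exact ⟨u, v, rfl, rfl, by simpa using h⟩
    · simp at h
    · simp at h
    · simp at h
    · right; right; left
      have h1 : (SimpleGraph.pathGraph (n + 1)).Adj j k := by simpa using h
      rw [SimpleGraph.pathGraph_adj] at h1
      rcases h1 with h1 | h1
      · exact ⟨j, k, h1, Or.inl ⟨rfl, rfl⟩⟩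
      · exact ⟨k, j, h1, Or.inr ⟨rfl, rfl⟩⟩
  · right; right; right; left; exact h
  · right; right; right; right; exact h

lemma path_card (m : ℕ) : m ≤ Nat.card (SimpleGraph.pathGraph (m + 1)).edgeSet := by
  have hadj : ∀ j : Fin m, (SimpleGraph.pathGraph (m + 1)).Adj
      (⟨j.val, by omega⟩ : Fin (m + 1)) (⟨j.val + 1, by omega⟩ : Fin (m + 1)) := by
    intro j
    rw [SimpleGraph.pathGraph_adj]
    left; rfl
  have hinj' : Function.Injective (fun j : Fin m =>
      (⟨s((⟨j.val, by omega⟩ : Fin (m + 1)), (⟨j.val + 1, by omega⟩ : Fin (m + 1))), hadj j⟩ :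
        (SimpleGraph.pathGraph (m + 1)).edgeSet)) := by
    intro j j' h
    have h4 := congrArg Subtype.val h
    simp only [Sym2.eq_iff, Fin.mk.injEq] at h4
    exact Fin.ext (by omega)
  have := Nat.card_le_card_of_injective _ hinj'
  simpa using this

lemma card_tree {V : Type} [Fintype V] {T : SimpleGraph V} (h : T.IsTree) :
    Nat.card T.edgeSet + 1 = Fintype.card V := by
  classical
  have := h.card_edgeFinset
  rw [SimpleGraph.edgeFinset_card, ← Nat.card_eq_fintype_card] at this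
  exact this

lemma card_sup_edge {W : Type} [Fintype W] (G : SimpleGraph W) {x y : W} (h : ¬ G.Adj x y)
    (hne : x ≠ y) : Nat.card (G ⊔ SimpleGraph.edge x y).edgeSet = Nat.card G.edgeSet + 1 := by
  classical
  have := SimpleGraph.card_edgeFinset_sup_edge G h hne
  rw [SimpleGraph.edgeFinset_card, SimpleGraph.edgeFinset_card, ← Nat.card_eq_fintype_card,
    ← Nat.card_eq_fintype_card] at this
  exact this

lemma card_sum {A B : Type} [Fintype A] [Fintype B] (G : SimpleGraph A) (H : SimpleGraph B) :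
    Nat.card (G ⊕g H).edgeSet = Nat.card G.edgeSet + Nat.card H.edgeSet := by
  rw [Nat.card_congr SimpleGraph.edgeSetSumEquiv, Nat.card_sum]

lemma attach_card {U : Type} [Fintype U] (G : SimpleGraph U) (e : U) (n : ℕ) (d : ℕ)
    (h : Fintype.card U ≤ Nat.card G.edgeSet + d) :
    Fintype.card (U ⊕ Fin (n + 1)) ≤ Nat.card (attach G e n).edgeSet + d := by
  have e1 : Nat.card (attach G e n).edgeSet =
      Nat.card (G ⊕g SimpleGraph.pathGraph (n + 1)).edgeSet + 1 := by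
    unfold attach
    rw [card_sup_edge]
    · simp
    · simp
  rw [card_sum] at e1
  have e5 := path_card n
  rw [Fintype.card_sum, Fintype.card_fin]
  omega

lemma join_card {U V : Type} [Fintype U] [Fintype V] (G : SimpleGraph U) (T : SimpleGraph V)
    (e : U) (t : V) (n : ℕ) (d : ℕ) (h : Fintype.card U ≤ Nat.card G.edgeSet + d)
    (hT : T.IsTree) :
    Fintype.card ((U ⊕ V) ⊕ Fin (n + 1)) ≤ Nat.card (join G T e t n).edgeSet + d := by
  have e1 : Nat.card (join G T e t n).edgeSet =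
      Nat.card ((G ⊕g T) ⊕g SimpleGraph.pathGraph (n + 1)).edgeSet + 1 + 1 := by
    unfold join
    rw [card_sup_edge, card_sup_edge]
    · simp
    · simp
    · rw [SimpleGraph.sup_adj, SimpleGraph.edge_adj]
      simp
    · simp
  rw [card_sum, card_sum] at e1
  have e4 := card_tree hT
  have e5 := path_card n
  rw [Fintype.card_sum, Fintype.card_sum, Fintype.card_fin]
  omega

/-- The forest from the top part and the remaining part. -/
lemma glue_path {U V4 : Type} [Fintype U] [Fintype V4] {G : SimpleGraph U} {T4 : SimpleGraph V4}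
    {e : U} {t4 : V4} {m1 : ℕ} {cT : U ⊕ Fin (m1 + 1) → Bool} {lT : U ⊕ Fin (m1 + 1) → ℕ}
    {XT YT : ℕ} (BT : Blk (attach G e m1) cT lT XT YT)
    (hlt : ∀ y z, (attach G e m1).Adj y z → lT y + lT z < XT + YT)
    {c4 : V4 → Bool} {l4 : V4 → ℕ} {a4 b4 : ℕ} (B4 : Blk T4 c4 l4 a4 b4) (N q : ℕ) (hN : 1 ≤ N)
    (hNt : l4 t4 ≤ N) (hq : cT (Sum.inr (Fin.last m1)) = decide (q % 2 = 0))
    (h4Q : c4 t4 = decide (q % 2 = 1))
    (hk : (q % 2 = 1 ∧ N + 1 + a4 = lT (Sum.inr (Fin.last m1)) + l4 t4) ∨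
      (q % 2 = 0 ∧ N + 1 + b4 = lT (Sum.inr (Fin.last m1)) + l4 t4)) :
    ∃ (cls : (U ⊕ V4) ⊕ Fin (m1 + 2 * N + 1) → Bool)
      (lab : (U ⊕ V4) ⊕ Fin (m1 + 2 * N + 1) → ℕ),
      Blk (join G T4 e t4 (m1 + 2 * N)) cls lab (XT + N + a4) (YT + N + b4) ∧
      (∀ x y, (join G T4 e t4 (m1 + 2 * N)).Adj x y →
        lab x + lab y < (XT + N + a4) + (YT + N + b4)) ∧
      (∀ u, lT (Sum.inl u) ≤ lab (Sum.inl (Sum.inl u)) ∧
        lab (Sum.inl (Sum.inl u)) ≤ lT (Sum.inl u) + N + a4 + b4) ∧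
      (∀ v, lab (Sum.inl (Sum.inr v)) = N + l4 v) ∧
      (∀ j, lab (Sum.inr j) ≤ N + a4 + b4 ∨
        ∃ i, lab (Sum.inr j) ≤ lT (Sum.inr i) + N + a4 + b4) := by
  classical
  have ht1 := B4.pos t4
  obtain ⟨LQ, PQ⟩ := PL.exists (2 * N) (l4 t4) ht1 (by omega) (Or.inr (Or.inl (by omega)))
  obtain ⟨m, hm⟩ : ∃ m, m = m1 + 2 * N := ⟨_, rfl⟩
  rw [← hm]
  obtain ⟨iT, hiT⟩ : ∃ iT : U ⊕ Fin (m1 + 1) → (U ⊕ V4) ⊕ Fin (m + 1),
    iT = Sum.elim (fun u => Sum.inl (Sum.inl u))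
      (fun j => Sum.inr ⟨j.val, by have := j.isLt; omega⟩) := ⟨_, rfl⟩
  have hiT1 : ∀ u, iT (Sum.inl u) = Sum.inl (Sum.inl u) := by intro u; rw [hiT]; rfl
  have hiT2 : ∀ (j : Fin (m1 + 1)) (h : j.val < m + 1), iT (Sum.inr j) = Sum.inr ⟨j.val, h⟩ := by
    intro j h; rw [hiT]; rfl
  obtain ⟨iQ, hiQ⟩ : ∃ iQ : ℕ → (U ⊕ V4) ⊕ Fin (m + 1),
    iQ = fun k => Sum.inr ⟨min (m1 + 1 + k) m, by omega⟩ := ⟨_, rfl⟩
  have hiQ1 : ∀ k, k < 2 * N → ∀ h : m1 + 1 + k < m + 1, iQ k = Sum.inr ⟨m1 + 1 + k, h⟩ := by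
    intro k hk' h
    rw [hiQ]
    simp only [Sum.inr.injEq, Fin.mk.injEq]
    omega
  obtain ⟨cls, hcls⟩ : ∃ cls : (U ⊕ V4) ⊕ Fin (m + 1) → Bool, cls =
    Sum.elim (Sum.elim (fun z => cT (Sum.inl z)) c4)
      (fun j : Fin (m + 1) => if h : j.val < m1 + 1 then cT (Sum.inr ⟨j.val, h⟩)
        else decide ((q + (j.val - (m1 + 1))) % 2 = 1)) := ⟨_, rfl⟩
  obtain ⟨lab, hlab⟩ : ∃ lab : (U ⊕ V4) ⊕ Fin (m + 1) → ℕ, lab =
    Sum.elim (Sum.elim (fun z => (if cT (Sum.inl z) = true then N + a4 else N + b4) +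
        lT (Sum.inl z)) (fun v => N + l4 v))
      (fun j : Fin (m + 1) => if h : j.val < m1 + 1 then
          (if cT (Sum.inr ⟨j.val, h⟩) = true then N + a4 else N + b4) + lT (Sum.inr ⟨j.val, h⟩)
        else LQ (j.val - (m1 + 1))) :=
    ⟨_, rfl⟩
  have hcT : ∀ u, cls (iT u) = cT u := by
    rintro (u | j)
    · rw [hiT1, hcls]; rfl
    · have hj := j.isLt
      rw [hiT2 j (by omega), hcls, Sum.elim_inr]
      rw [dif_pos (show (⟨j.val, by omega⟩ : Fin (m + 1)).val < m1 + 1 from hj)]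
  have hlT : ∀ u, lab (iT u) = (if cT u = true then N + a4 else N + b4) + lT u := by
    rintro (u | j)
    · rw [hiT1, hlab]; rfl
    · have hj := j.isLt
      rw [hiT2 j (by omega), hlab, Sum.elim_inr]
      rw [dif_pos (show (⟨j.val, by omega⟩ : Fin (m + 1)).val < m1 + 1 from hj)]
  have hXY : 2 ≤ XT + YT := by
    rw [BT.card, Fintype.card_sum, Fintype.card_fin]
    have : 1 ≤ Fintype.card U := by
      have : Nonempty U := ⟨e⟩
      exact Fintype.card_pos
    omega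
  have hcard : Fintype.card ((U ⊕ V4) ⊕ Fin (m + 1)) =
      Fintype.card (U ⊕ Fin (m1 + 1)) + Fintype.card V4 + 2 * N := by
    simp only [Fintype.card_sum, Fintype.card_fin]
    omega
  have hcov : ∀ z : (U ⊕ V4) ⊕ Fin (m + 1), (∃ u, z = iT u) ∨
      (∃ v : V4, z = Sum.inl (Sum.inr v)) ∨ (∃ k, k < 2 * N ∧ z = iQ k) := by
    rintro ((u | v) | j)
    · left; exact ⟨Sum.inl u, (hiT1 u).symm⟩
    · right; left; exact ⟨v, rfl⟩
    · have hj := j.isLt
      by_cases h : j.val < m1 + 1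
      · left
        exact ⟨Sum.inr ⟨j.val, h⟩, (hiT2 ⟨j.val, h⟩ hj).symm⟩
      · right; right
        refine ⟨j.val - (m1 + 1), by omega, ?_⟩
        rw [hiQ1 _ (by omega) (by omega)]
        congr 1
        apply Fin.ext
        simp only
        omega
  have hcQ : ∀ k, k < 2 * N → cls (iQ k) = decide ((q + k) % 2 = 1) := by
    intro k hk'
    rw [hiQ1 k hk' (by omega), hcls, Sum.elim_inr, dif_neg (by
      show ¬ (m1 + 1 + k < m1 + 1)
      omega)]
    rw [show m1 + 1 + k - (m1 + 1) = k by omega]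
  have hlQ : ∀ k, k < 2 * N → lab (iQ k) = LQ k := by
    intro k hk'
    rw [hiQ1 k hk' (by omega), hlab, Sum.elim_inr, dif_neg (by
      show ¬ (m1 + 1 + k < m1 + 1)
      omega)]
    congr 1
    simp
  have key : ∀ j k : Fin (m + 1), j.val + 1 = k.val →
      (∃ u v, (attach G e m1).Adj u v ∧ (Sum.inr j : (U ⊕ V4) ⊕ Fin (m + 1)) = iT u ∧
        (Sum.inr k : (U ⊕ V4) ⊕ Fin (m + 1)) = iT v) ∨
      (∃ i, i + 1 < 2 * N ∧ (Sum.inr j : (U ⊕ V4) ⊕ Fin (m + 1)) = iQ i ∧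
        (Sum.inr k : (U ⊕ V4) ⊕ Fin (m + 1)) = iQ (i + 1)) ∨
      ((Sum.inr j : (U ⊕ V4) ⊕ Fin (m + 1)) = iT (Sum.inr (Fin.last m1)) ∧
        (Sum.inr k : (U ⊕ V4) ⊕ Fin (m + 1)) = iQ 0) := by
    intro j k hjk
    have hj := j.isLt
    have hk' := k.isLt
    rcases Nat.lt_trichotomy j.val m1 with h | h | h
    · left
      refine ⟨Sum.inr ⟨j.val, by omega⟩, Sum.inr ⟨k.val, by omega⟩, attach_inr hjk, ?_, ?_⟩
      · rw [hiT2 _ hj]
      · rw [hiT2 _ hk']
    · right; right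
      constructor
      · rw [hiT2 _ (show (Fin.last m1).val < m + 1 by have : (Fin.last m1).val = m1 := rfl
                                                      omega)]
        congr 1
        apply Fin.ext
        exact h
      · rw [hiQ1 0 (by omega) (by omega)]
        congr 1
        apply Fin.ext
        simp only
        omega
    · right; left
      refine ⟨j.val - (m1 + 1), by omega, ?_, ?_⟩
      · rw [hiQ1 _ (by omega) (by omega)]
        congr 1
        apply Fin.ext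
        simp only
        omega
      · rw [hiQ1 _ (by omega) (by omega)]
        congr 1
        apply Fin.ext
        simp only
        omega
  have hE : ∀ x y, (join G T4 e t4 m).Adj x y →
      (∃ u v, (attach G e m1).Adj u v ∧ x = iT u ∧ y = iT v) ∨
      (∃ u v, T4.Adj u v ∧ x = Sum.inl (Sum.inr u) ∧ y = Sum.inl (Sum.inr v)) ∨
      (∃ k, k + 1 < 2 * N ∧ ((x = iQ k ∧ y = iQ (k + 1)) ∨ (x = iQ (k + 1) ∧ y = iQ k))) ∨
      ((x = iT (Sum.inr (Fin.last m1)) ∧ y = iQ 0) ∨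
        (x = iQ 0 ∧ y = iT (Sum.inr (Fin.last m1)))) ∨
      ((x = Sum.inl (Sum.inr t4) ∧ y = iQ (2 * N - 1)) ∨
        (x = iQ (2 * N - 1) ∧ y = Sum.inl (Sum.inr t4))) := by
    intro x y hxy
    rcases join_adj G T4 e t4 m x y hxy with ⟨u, v, h1, h2, h3⟩ | ⟨u, v, h1, h2, h3⟩ |
      ⟨j, k, h1, h2⟩ | h1 | h1
    · left
      exact ⟨Sum.inl u, Sum.inl v, attach_inl h3, by rw [h1, hiT1], by rw [h2, hiT1]⟩
    · right; left
      exact ⟨u, v, h3, h1, h2⟩
    · rcases key j k h1 with ⟨u, v, g1, g2, g3⟩ | ⟨i, g1, g2, g3⟩ | ⟨g1, g2⟩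
      · left
        rcases h2 with ⟨r1, r2⟩ | ⟨r1, r2⟩
        · exact ⟨u, v, g1, by rw [r1, g2], by rw [r2, g3]⟩
        · exact ⟨v, u, g1.symm, by rw [r1, g3], by rw [r2, g2]⟩
      · right; right; left
        rcases h2 with ⟨r1, r2⟩ | ⟨r1, r2⟩
        · exact ⟨i, g1, Or.inl ⟨by rw [r1, g2], by rw [r2, g3]⟩⟩
        · exact ⟨i, g1, Or.inr ⟨by rw [r1, g3], by rw [r2, g2]⟩⟩
      · right; right; right; left
        rcases h2 with ⟨r1, r2⟩ | ⟨r1, r2⟩
        · left; exact ⟨by rw [r1, g1], by rw [r2, g2]⟩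
        · right; exact ⟨by rw [r1, g2], by rw [r2, g1]⟩
    · left
      have h0 : (Sum.inr 0 : (U ⊕ V4) ⊕ Fin (m + 1)) = iT (Sum.inr 0) := by
        rw [hiT2 0 (show (0 : Fin (m1 + 1)).val < m + 1 from Nat.succ_pos m)]
        rfl
      rcases h1 with ⟨r1, r2⟩ | ⟨r1, r2⟩
      · exact ⟨_, _, attach_edge, by rw [r1, hiT1], by rw [r2, h0]⟩
      · exact ⟨_, _, attach_edge.symm, by rw [r1, h0], by rw [r2, hiT1]⟩
    · right; right; right; right
      have h0 : (Sum.inr (Fin.last m) : (U ⊕ V4) ⊕ Fin (m + 1)) = iQ (2 * N - 1) := by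
        rw [hiQ1 _ (by omega) (by omega)]
        congr 1
        apply Fin.ext
        simp only [Fin.val_last]
        omega
      rcases h1 with ⟨r1, r2⟩ | ⟨r1, r2⟩
      · left; exact ⟨r1, by rw [r2, h0]⟩
      · right; exact ⟨by rw [r1, h0], r2⟩
  have hg := glue (G := join G T4 e t4 m) BT B4 N q LQ (Sum.inr (Fin.last m1)) t4 PQ
    iT (fun v => Sum.inl (Sum.inr v)) iQ hcard hcov cls lab hcT
    (fun u hu => by rw [hlT u, if_pos hu]) (fun u hu => by rw [hlT u, if_neg (by simp [hu])])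
    (fun v => by rw [hcls]; rfl) (fun v => by rw [hlab]; rfl) hcQ hlQ hN hlt hXY
    hq h4Q hk hE
  refine ⟨cls, lab, hg.1, hg.2, ?_, ?_, ?_⟩
  · intro u
    have := hlT (Sum.inl u)
    rw [hiT1] at this
    rw [this]
    split_ifs <;> omega
  · intro v; rw [hlab]; rfl
  · intro j
    rcases hcov (Sum.inr j) with ⟨u, hu⟩ | ⟨v, hv⟩ | ⟨k, hk1, hk2⟩
    · rcases u with u | i
      · rw [hiT1] at hu; exact absurd hu (by simp)
      · right
        refine ⟨i, ?_⟩
        rw [hu, hlT]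
        split_ifs <;> omega
    · exact absurd hv (by simp)
    · left
      rw [hk2, hlQ k hk1]
      rcases Nat.mod_two_eq_zero_or_one k with hp | hp
      · have := PQ.ev k hk1 hp
        omega
      · have := PQ.od k hk1 hp
        omega

end SEMD
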