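import Mathlib
import Pool.Agent.SEMD.BridgeStep

/-!
Adding a leaf at an arbitrary vertex and a long path at an arbitrary vertex.
-/

set_option autoImplicit false
set_option linter.unusedSectionVars false

namespace SEMD

/-- The graph `G` together with a new vertex joined to `y`. -/
def addLeaf {U : Type} (G : SimpleGraph U) (y : U) : SimpleGraph (U ⊕ Unit) :=
  (G ⊕g (⊥ : SimpleGraph Unit)) ⊔ SimpleGraph.edge (Sum.inl y) (Sum.inr ())

lemma leaf_adj {U : Type} (G : SimpleGraph U) (y : U) (x z : U ⊕ Unit)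
    (h : (addLeaf G y).Adj x z) :
    (∃ u v, x = Sum.inl u ∧ z = Sum.inl v ∧ G.Adj u v) ∨
    ((x = Sum.inl y ∧ z = Sum.inr ()) ∨ (x = Sum.inr () ∧ z = Sum.inl y)) := by
  unfold addLeaf at h
  rw [SimpleGraph.sup_adj, SimpleGraph.edge_adj] at h
  rcases h with h | ⟨h, _⟩
  · rcases x with u | j <;> rcases z with v | k
    · left; exact ⟨u, v, rfl, rfl, by simpa using h⟩
    · simp at h
    · simp at h
    · simp at h
  · right; exact h

lemma leaf_inl {U : Type} {G : SimpleGraph U} {y u v : U} (h : G.Adj u v) :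
    (addLeaf G y).Adj (Sum.inl u) (Sum.inl v) := by
  unfold addLeaf
  rw [SimpleGraph.sup_adj]
  left; simpa using h

lemma leaf_edge {U : Type} {G : SimpleGraph U} {y : U} :
    (addLeaf G y).Adj (Sum.inl y) (Sum.inr ()) := by
  unfold addLeaf
  rw [SimpleGraph.sup_adj]
  right
  rw [SimpleGraph.edge_adj]
  simp

/-- The statement of the leaf lemma. -/
def Leafed {U : Type} [Fintype U] (G : SimpleGraph U) (c : U → Bool) (l : U → ℕ) (y t : U)
    (n : ℕ) : Prop :=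
  ∃ (c' : (U ⊕ Unit) ⊕ Fin (n + 1) → Bool) (l' : (U ⊕ Unit) ⊕ Fin (n + 1) → ℕ) (a' b' : ℕ),
    Blk (attach (addLeaf G y) (Sum.inl t) n) c' l' a' b' ∧
    (∀ x z, (attach (addLeaf G y) (Sum.inl t) n).Adj x z → l' x + l' z < a' + b') ∧
    (∀ u, l u ≤ l' (Sum.inl (Sum.inl u))) ∧ 2 ≤ l' (Sum.inl (Sum.inr ())) ∧
    l' (Sum.inr (Fin.last n)) = 2 * (l y - 1) + l t + (if c y = c t then 0 else 1)

lemma leaf1 {U : Type} [Fintype U] {G : SimpleGraph U} {c : U → Bool} {l : U → ℕ} {a b : ℕ}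
    (B : Blk G c l a b) (hlt : ∀ x z, G.Adj x z → l x + l z < a + b) (hab : 2 ≤ a + b)
    (y t : U) (ht : c t = true) (hy : 2 ≤ l y) (n : ℕ) (hn : 20 * (a + b) ≤ n) :
    Leafed G c l y t n := by
  have lt1 := B.pos t
  have lt2 := B.le1 t ht
  have ly2 : l y ≤ a + b := by
    cases hc : c y
    · have := B.le2 y hc; omega
    · have := B.le1 y hc; omega
  obtain ⟨q, hq⟩ : ∃ q, q = l y - 1 := ⟨_, rfl⟩
  obtain ⟨p, hp⟩ : ∃ p, p = q + l t := ⟨_, rfl⟩
  obtain ⟨n3, hn3⟩ : ∃ n3, n3 = n + 1 - 2 * p - 2 * q := ⟨_, rfl⟩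
  obtain ⟨g, hg⟩ : ∃ g, g = n3 / 2 := ⟨_, rfl⟩
  obtain ⟨h, hh⟩ : ∃ h, h = (n3 + 1) / 2 := ⟨_, rfl⟩
  have hgh : g + h = n3 := by omega
  obtain ⟨d, hd⟩ : ∃ d, (c y = true ∧ d = 1) ∨ (c y = false ∧ d = 0) := by
    cases hc : c y
    · exact ⟨0, Or.inr ⟨rfl, rfl⟩⟩
    · exact ⟨1, Or.inl ⟨rfl, rfl⟩⟩
  have hd1 : d ≤ 1 := by rcases hd with ⟨_, h1⟩ | ⟨_, h1⟩ <;> omega
  obtain ⟨s3, hs3⟩ : ∃ s3, s3 + (2 * q + l t) = h + d := ⟨h + d - (2 * q + l t), by omega⟩
  obtain ⟨L3, P3⟩ := PL.exists n3 s3 (by omega) (by omega) (by omega)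
  have hn4 : n + 1 = n3 + 2 * p + 2 * q := by omega
  have hq1 : 1 ≤ q := by omega
  have hp1 : 2 ≤ p := by omega
  have hstart := P3.start
  obtain ⟨Λ, hΛ⟩ : ∃ Λ : ℕ → ℕ, Λ = fun j =>
      if j < 2 * p then (if j % 2 = 0 then h + (j / 2 + 1) else g + (j / 2 + 1))
      else if j < 2 * p + 2 * q then
        (if j % 2 = 0 then h + p + d + ((j - 2 * p) / 2 + 1)
          else g + p + (1 - d) + ((j - 2 * p) / 2 + 1))
      else L3 (j - 2 * p - 2 * q) := ⟨_, rfl⟩
  have ΛX : ∀ j, j ≤ n → j % 2 = 1 →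
      (j < 2 * p ∧ Λ j = g + (j / 2 + 1)) ∨
      (2 * p ≤ j ∧ j < 2 * p + 2 * q ∧ Λ j = g + p + (1 - d) + ((j - 2 * p) / 2 + 1)) ∨
      (2 * p + 2 * q ≤ j ∧ Λ j = L3 (j - 2 * p - 2 * q) ∧ 1 ≤ L3 (j - 2 * p - 2 * q) ∧
        L3 (j - 2 * p - 2 * q) ≤ g) := by
    intro j hj hj2
    rw [hΛ]
    simp only
    by_cases h1 : j < 2 * p
    · left
      rw [if_pos h1, if_neg (by omega)]
      exact ⟨h1, rfl⟩
    · by_cases h2 : j < 2 * p + 2 * q
      · right; left
        rw [if_neg h1, if_pos h2, if_neg (by omega)]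
        exact ⟨by omega, h2, rfl⟩
      · right; right
        rw [if_neg h1, if_neg h2]
        have r1 := P3.pos (j - 2 * p - 2 * q) (by omega)
        have r2 := P3.od (j - 2 * p - 2 * q) (by omega) (by omega)
        exact ⟨by omega, rfl, r1, by omega⟩
  have ΛY : ∀ j, j ≤ n → j % 2 = 0 →
      (j < 2 * p ∧ Λ j = h + (j / 2 + 1)) ∨
      (2 * p ≤ j ∧ j < 2 * p + 2 * q ∧ Λ j = h + p + d + ((j - 2 * p) / 2 + 1)) ∨
      (2 * p + 2 * q ≤ j ∧ Λ j = L3 (j - 2 * p - 2 * q) ∧ 1 ≤ L3 (j - 2 * p - 2 * q) ∧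
        L3 (j - 2 * p - 2 * q) ≤ h) := by
    intro j hj hj2
    rw [hΛ]
    simp only
    by_cases h1 : j < 2 * p
    · left
      rw [if_pos h1, if_pos hj2]
      exact ⟨h1, rfl⟩
    · by_cases h2 : j < 2 * p + 2 * q
      · right; left
        rw [if_neg h1, if_pos h2, if_pos hj2]
        exact ⟨by omega, h2, rfl⟩
      · right; right
        rw [if_neg h1, if_neg h2]
        have r1 := P3.pos (j - 2 * p - 2 * q) (by omega)
        have r2 := P3.ev (j - 2 * p - 2 * q) (by omega) (by omega)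
        exact ⟨by omega, rfl, r1, by omega⟩
  -- sums of consecutive path labels
  have Λs : ∀ j, j + 1 ≤ n →
      (j + 1 < 2 * p ∧ Λ j + Λ (j + 1) = n3 + j + 2) ∨
      (j + 1 = 2 * p ∧ Λ j + Λ (j + 1) = n3 + 2 * p + d + 1) ∨
      (2 * p ≤ j ∧ j + 1 < 2 * p + 2 * q ∧ Λ j + Λ (j + 1) = n3 + j + 3) ∨
      (j + 1 = 2 * p + 2 * q ∧ Λ j + Λ (j + 1) = n3 + 1) ∨
      (2 * p + 2 * q ≤ j ∧ j - 2 * p - 2 * q + 1 < n3 ∧ Λ j + Λ (j + 1) =
        L3 (j - 2 * p - 2 * q) + L3 (j - 2 * p - 2 * q + 1) ∧ 2 ≤ Λ j + Λ (j + 1) ∧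
        Λ j + Λ (j + 1) ≤ n3) := by
    intro j hj
    rcases Nat.mod_two_eq_zero_or_one j with hj2 | hj2
    · have r1 := ΛY j (by omega) hj2
      have r2 := ΛX (j + 1) hj (by omega)
      rcases r1 with ⟨r3, r4⟩ | ⟨r3, r4, r5⟩ | ⟨r3, r4, r5, r6⟩ <;>
      rcases r2 with ⟨u3, u4⟩ | ⟨u3, u4, u5⟩ | ⟨u3, u4, u5, u6⟩
      · left; omega
      · omega
      · omega
      · omega
      · right; right; left; omega
      · omega
      · omega
      · omega
      · right; right; right; right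
        rw [show j + 1 - 2 * p - 2 * q = j - 2 * p - 2 * q + 1 by omega] at u4 u5 u6
        omega
    · have r1 := ΛX j (by omega) hj2
      have r2 := ΛY (j + 1) hj (by omega)
      rcases r1 with ⟨r3, r4⟩ | ⟨r3, r4, r5⟩ | ⟨r3, r4, r5, r6⟩ <;>
      rcases r2 with ⟨u3, u4⟩ | ⟨u3, u4, u5⟩ | ⟨u3, u4, u5, u6⟩
      · left; omega
      · right; left; omega
      · omega
      · omega
      · right; right; left; omega
      · right; right; right; left
        rw [show j + 1 - 2 * p - 2 * q = 0 by omega, hstart] at u4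
        omega
      · omega
      · omega
      · right; right; right; right
        rw [show j + 1 - 2 * p - 2 * q = j - 2 * p - 2 * q + 1 by omega] at u4 u5 u6
        omega
  have Λinj : ∀ j k, j ≤ n → k ≤ n → j % 2 = k % 2 → Λ j = Λ k → j = k := by
    intro j k hj hk hjk hjk2
    rcases Nat.mod_two_eq_zero_or_one j with hj2 | hj2
    · have r1 := ΛY j hj hj2
      have r2 := ΛY k hk (by omega)
      rcases r1 with ⟨r3, r4⟩ | ⟨r3, r4, r5⟩ | ⟨r3, r4, r5, r6⟩ <;>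
      rcases r2 with ⟨u3, u4⟩ | ⟨u3, u4, u5⟩ | ⟨u3, u4, u5, u6⟩
      · omega
      · omega
      · omega
      · omega
      · omega
      · omega
      · omega
      · omega
      · have := P3.inj (j - 2 * p - 2 * q) (by omega) (k - 2 * p - 2 * q) (by omega) (by omega)
          (by omega)
        omega
    · have r1 := ΛX j hj hj2
      have r2 := ΛX k hk (by omega)
      rcases r1 with ⟨r3, r4⟩ | ⟨r3, r4, r5⟩ | ⟨r3, r4, r5, r6⟩ <;>
      rcases r2 with ⟨u3, u4⟩ | ⟨u3, u4, u5⟩ | ⟨u3, u4, u5, u6⟩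
      · omega
      · omega
      · omega
      · omega
      · omega
      · omega
      · omega
      · omega
      · have := P3.inj (j - 2 * p - 2 * q) (by omega) (k - 2 * p - 2 * q) (by omega) (by omega)
          (by omega)
        omega
  obtain ⟨OX, hOX⟩ : ∃ OX, OX = g + p + (1 - d) + q := ⟨_, rfl⟩
  obtain ⟨OY, hOY⟩ : ∃ OY, OY = h + p + d + q := ⟨_, rfl⟩
  have hO : OX + OY = n + 2 := by omega
  obtain ⟨c', hc'⟩ : ∃ c' : (U ⊕ Unit) ⊕ Fin (n + 1) → Bool, c' =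
    Sum.elim (Sum.elim c (fun _ => !(c y))) (fun j : Fin (n + 1) => decide (j.val % 2 = 1)) :=
      ⟨_, rfl⟩
  obtain ⟨l', hl'⟩ : ∃ l' : (U ⊕ Unit) ⊕ Fin (n + 1) → ℕ, l' =
    Sum.elim (Sum.elim (fun u => if c u = true then OX + l u else OY + l u)
      (fun _ => if c y = true then h + p + 1 else g + p + 1))
      (fun j : Fin (n + 1) => Λ j.val) := ⟨_, rfl⟩
  have C1 : ∀ u, c' (Sum.inl (Sum.inl u)) = c u := by intro u; rw [hc']; rfl
  have C2 : ∀ j : Fin (n + 1), c' (Sum.inr j) = decide (j.val % 2 = 1) := by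
    intro j; rw [hc']; rfl
  have C3 : c' (Sum.inl (Sum.inr ())) = !(c y) := by rw [hc']; rfl
  have L1 : ∀ u, c u = true → l' (Sum.inl (Sum.inl u)) = OX + l u := by
    intro u hu; rw [hl', Sum.elim_inl, Sum.elim_inl, if_pos hu]
  have L2 : ∀ u, c u = false → l' (Sum.inl (Sum.inl u)) = OY + l u := by
    intro u hu; rw [hl', Sum.elim_inl, Sum.elim_inl, if_neg (by simp [hu])]
  have L4 : ∀ j : Fin (n + 1), l' (Sum.inr j) = Λ j.val := by
    intro j; rw [hl']; rfl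
  have L5 : (c y = true ∧ d = 1 ∧ l' (Sum.inl (Sum.inr ())) = h + p + 1) ∨
      (c y = false ∧ d = 0 ∧ l' (Sum.inl (Sum.inr ())) = g + p + 1) := by
    rcases hd with ⟨h1, h2⟩ | ⟨h1, h2⟩
    · left; exact ⟨h1, h2, by rw [hl', Sum.elim_inl, Sum.elim_inr, if_pos h1]⟩
    · right; exact ⟨h1, h2, by rw [hl', Sum.elim_inl, Sum.elim_inr, if_neg (by simp [h1])]⟩
  have kind : ∀ u, c u = true ∨ c u = false := by
    intro u; cases c u <;> simp
  have hle1 : ∀ u, c u = true → l u ≤ a := B.le1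
  have hle2 : ∀ u, c u = false → l u ≤ b := B.le2
  have E : ∀ x z, (attach (addLeaf G y) (Sum.inl t) n).Adj x z → c' x ≠ c' z ∧
      ((∃ u v, x = Sum.inl (Sum.inl u) ∧ z = Sum.inl (Sum.inl v) ∧ G.Adj u v ∧
          l' x + l' z = n + 2 + (l u + l v) ∧ 2 ≤ l u + l v) ∨
        (((x = Sum.inl (Sum.inl y) ∧ z = Sum.inl (Sum.inr ())) ∨
          (x = Sum.inl (Sum.inr ()) ∧ z = Sum.inl (Sum.inl y))) ∧ l' x + l' z = n + 3) ∨
        (((x = Sum.inl (Sum.inl t) ∧ z = Sum.inr 0) ∨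
          (x = Sum.inr 0 ∧ z = Sum.inl (Sum.inl t))) ∧ l' x + l' z + d = n3 + 2 * p + 2) ∨
        (∃ j k : Fin (n + 1), j.val + 1 = k.val ∧
          ((x = Sum.inr j ∧ z = Sum.inr k) ∨ (x = Sum.inr k ∧ z = Sum.inr j)) ∧
          l' x + l' z = Λ j.val + Λ (j.val + 1))) := by
    intro x z hxz
    rcases attach_adj (addLeaf G y) (Sum.inl t) n x z hxz with ⟨u, v, h1, h2, h3⟩ |
      ⟨j, k, h1, h2⟩ | h1
    · rcases leaf_adj G y u v h3 with ⟨u', v', e1, e2, e3⟩ | e1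
      · have hc := B.col u' v' e3
        have hs := B.sum_le e3
        refine ⟨by rw [h1, h2, e1, e2, C1, C1]; exact hc,
          Or.inl ⟨u', v', by rw [h1, e1], by rw [h2, e2], e3, ?_, hs.1⟩⟩
        rcases kind u' with hu | hu
        · rcases kind v' with hv | hv
          · rw [hu, hv] at hc; exact absurd rfl hc
          · rw [h1, h2, e1, e2, L1 u' hu, L2 v' hv]; omega
        · rcases kind v' with hv | hv
          · rw [h1, h2, e1, e2, L2 u' hu, L1 v' hv]; omega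
          · rw [hu, hv] at hc; exact absurd rfl hc
      · have hcc : c' (Sum.inl (Sum.inl y)) ≠ c' (Sum.inl (Sum.inr ())) := by
          rw [C1, C3]; cases c y <;> simp
        have hss : l' (Sum.inl (Sum.inl y)) + l' (Sum.inl (Sum.inr ())) = n + 3 := by
          rcases L5 with ⟨m1, m2, m3⟩ | ⟨m1, m2, m3⟩
          · rw [L1 y m1, m3]; omega
          · rw [L2 y m1, m3]; omega
        refine ⟨?_, Or.inr (Or.inl ⟨?_, ?_⟩)⟩
        · rcases e1 with ⟨r1, r2⟩ | ⟨r1, r2⟩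
          · rw [h1, h2, r1, r2]; exact hcc
          · rw [h1, h2, r1, r2]; exact hcc.symm
        · rcases e1 with ⟨r1, r2⟩ | ⟨r1, r2⟩
          · left; rw [h1, h2, r1, r2]; exact ⟨rfl, rfl⟩
          · right; rw [h1, h2, r1, r2]; exact ⟨rfl, rfl⟩
        · rcases e1 with ⟨r1, r2⟩ | ⟨r1, r2⟩
          · rw [h1, h2, r1, r2]; exact hss
          · rw [h1, h2, r1, r2, add_comm]; exact hss
    · have hjk : c' (Sum.inr j) ≠ c' (Sum.inr k) := by
        rw [C2, C2]
        intro hh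
        rw [decide_eq_decide] at hh
        omega
      have hsum : l' (Sum.inr j) + l' (Sum.inr k) = Λ j.val + Λ (j.val + 1) := by
        rw [L4, L4, h1]
      refine ⟨?_, Or.inr (Or.inr (Or.inr ⟨j, k, h1, h2, ?_⟩))⟩
      · rcases h2 with ⟨r1, r2⟩ | ⟨r1, r2⟩
        · rw [r1, r2]; exact hjk
        · rw [r1, r2]; exact hjk.symm
      · rcases h2 with ⟨r1, r2⟩ | ⟨r1, r2⟩
        · rw [r1, r2]; exact hsum
        · rw [r1, r2, add_comm]; exact hsum
    · have h0 : (0 : Fin (n + 1)).val = 0 := rfl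
      have hcc : c' (Sum.inl (Sum.inl t)) ≠ c' (Sum.inr 0) := by
        rw [C1, C2, ht]; simp
      have hss : l' (Sum.inl (Sum.inl t)) + l' (Sum.inr 0) + d = n3 + 2 * p + 2 := by
        rw [L1 t ht, L4, h0]
        rcases ΛY 0 (by omega) rfl with ⟨r3, r4⟩ | ⟨r3, r4, r5⟩ | ⟨r3, r4, r5, r6⟩ <;> omega
      refine ⟨?_, Or.inr (Or.inr (Or.inl ⟨h1, ?_⟩))⟩
      · rcases h1 with ⟨r1, r2⟩ | ⟨r1, r2⟩
        · rw [r1, r2]; exact hcc
        · rw [r1, r2]; exact hcc.symm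
      · rcases h1 with ⟨r1, r2⟩ | ⟨r1, r2⟩
        · rw [r1, r2]; exact hss
        · rw [r1, r2, add_comm (l' (Sum.inr 0))]; exact hss
  -- labels in the two classes
  have KX : ∀ z, c' z = true → (∃ u, z = Sum.inl (Sum.inl u) ∧ c u = true ∧ l' z = OX + l u ∧
        1 ≤ l u ∧ l u ≤ a) ∨ (z = Sum.inl (Sum.inr ()) ∧ d = 0 ∧ l' z = g + p + 1) ∨
      (∃ j : Fin (n + 1), z = Sum.inr j ∧ j.val % 2 = 1 ∧ l' z = Λ j.val ∧ 1 ≤ Λ j.val ∧
        Λ j.val ≤ OX ∧ (d = 0 → Λ j.val ≠ g + p + 1)) := by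
    rintro ((u | u) | j) hz
    · rw [C1] at hz
      left; exact ⟨u, rfl, hz, L1 u hz, B.pos u, B.le1 u hz⟩
    · right; left
      rcases L5 with ⟨m1, m2, m3⟩ | ⟨m1, m2, m3⟩
      · rw [C3, m1] at hz; exact absurd hz (by decide)
      · exact ⟨rfl, m2, m3⟩
    · right; right
      rw [C2] at hz
      have h1 : j.val % 2 = 1 := by simpa using hz
      refine ⟨j, rfl, h1, L4 j, ?_⟩
      have hj := j.isLt
      rcases ΛX j.val (by omega) h1 with ⟨r3, r4⟩ | ⟨r3, r4, r5⟩ | ⟨r3, r4, r5, r6⟩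
      · refine ⟨by omega, by omega, by omega⟩
      · refine ⟨by omega, by omega, by omega⟩
      · refine ⟨by omega, by omega, by omega⟩
  have KY : ∀ z, c' z = false → (∃ u, z = Sum.inl (Sum.inl u) ∧ c u = false ∧ l' z = OY + l u ∧
        1 ≤ l u ∧ l u ≤ b) ∨ (z = Sum.inl (Sum.inr ()) ∧ d = 1 ∧ l' z = h + p + 1) ∨
      (∃ j : Fin (n + 1), z = Sum.inr j ∧ j.val % 2 = 0 ∧ l' z = Λ j.val ∧ 1 ≤ Λ j.val ∧
        Λ j.val ≤ OY ∧ (d = 1 → Λ j.val ≠ h + p + 1)) := by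
    rintro ((u | u) | j) hz
    · rw [C1] at hz
      left; exact ⟨u, rfl, hz, L2 u hz, B.pos u, B.le2 u hz⟩
    · right; left
      rcases L5 with ⟨m1, m2, m3⟩ | ⟨m1, m2, m3⟩
      · exact ⟨rfl, m2, m3⟩
      · rw [C3, m1] at hz; exact absurd hz (by decide)
    · right; right
      rw [C2] at hz
      have h0 : ¬ (j.val % 2 = 1) := by simpa using hz
      have h1 : j.val % 2 = 0 := by omega
      refine ⟨j, rfl, h1, L4 j, ?_⟩
      have hj := j.isLt
      rcases ΛY j.val (by omega) h1 with ⟨r3, r4⟩ | ⟨r3, r4, r5⟩ | ⟨r3, r4, r5, r6⟩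
      · refine ⟨by omega, by omega, by omega⟩
      · refine ⟨by omega, by omega, by omega⟩
      · refine ⟨by omega, by omega, by omega⟩
  have inj1 : ∀ x z, c' x = true → c' z = true → l' x = l' z → x = z := by
    intro x z hx hz hxz
    rcases KX x hx with ⟨u, e1, e2, e3, e4, e5⟩ | ⟨e1, e2, e3⟩ | ⟨j, e1, e2, e3, e4, e5, e6⟩ <;>
    rcases KX z hz with ⟨u', f1, f2, f3, f4, f5⟩ | ⟨f1, f2, f3⟩ | ⟨j', f1, f2, f3, f4, f5, f6⟩
    · rw [e1, f1, B.inj u u' (by rw [e2, f2]) (by omega)]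
    · exfalso; omega
    · exfalso; omega
    · exfalso; omega
    · rw [e1, f1]
    · exfalso
      have := f6 e2
      omega
    · exfalso; omega
    · exfalso
      have := e6 f2
      omega
    · have hj := j.isLt
      have hj' := j'.isLt
      rw [e1, f1, Fin.ext (Λinj j.val j'.val (by omega) (by omega) (by omega) (by omega))]
  have inj2 : ∀ x z, c' x = false → c' z = false → l' x = l' z → x = z := by
    intro x z hx hz hxz
    rcases KY x hx with ⟨u, e1, e2, e3, e4, e5⟩ | ⟨e1, e2, e3⟩ | ⟨j, e1, e2, e3, e4, e5, e6⟩ <;>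
    rcases KY z hz with ⟨u', f1, f2, f3, f4, f5⟩ | ⟨f1, f2, f3⟩ | ⟨j', f1, f2, f3, f4, f5, f6⟩
    · rw [e1, f1, B.inj u u' (by rw [e2, f2]) (by omega)]
    · exfalso; omega
    · exfalso; omega
    · exfalso; omega
    · rw [e1, f1]
    · exfalso
      have := f6 e2
      omega
    · exfalso; omega
    · exfalso
      have := e6 f2
      omega
    · have hj := j.isLt
      have hj' := j'.isLt
      rw [e1, f1, Fin.ext (Λinj j.val j'.val (by omega) (by omega) (by omega) (by omega))]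
  have two : ∀ {α : Type} (w1 w2 x z x' z' : α) (C : α → Bool), C x ≠ C z → C x = true →
      C x' = true → ((x = w1 ∧ z = w2) ∨ (x = w2 ∧ z = w1)) →
      ((x' = w1 ∧ z' = w2) ∨ (x' = w2 ∧ z' = w1)) → x = x' ∧ z = z' := by
    intro α w1 w2 x z x' z' C h1 h2 h3 h4 h5
    rcases h4 with ⟨r1, r2⟩ | ⟨r1, r2⟩ <;> rcases h5 with ⟨s1, s2⟩ | ⟨s1, s2⟩
    · rw [r1, r2, s1, s2]; exact ⟨rfl, rfl⟩
    · exfalso
      rw [s1, ← r2] at h3
      exact h1 (by rw [h2, h3])
    · exfalso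
      rw [s1, ← r2] at h3
      exact h1 (by rw [h2, h3])
    · rw [r1, r2, s1, s2]; exact ⟨rfl, rfl⟩
  have hend : l' (Sum.inr (Fin.last n)) =
      2 * (l y - 1) + l t + (if c y = c t then 0 else 1) := by
    have h1 : (Fin.last n).val = n := rfl
    have hlast := P3.last
    rw [L4, h1, ht]
    have h2 : Λ n = L3 (n3 - 1) := by
      rw [hΛ]
      simp only
      rw [if_neg (by omega), if_neg (by omega)]
      congr 1
      omega
    rw [h2]
    rcases hd with ⟨m1, m2⟩ | ⟨m1, m2⟩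
    · rw [if_pos m1]; omega
    · rw [if_neg (by simp [m1])]; omega
  refine ⟨c', l', OX + a, OY + b, ⟨?_, ?_, ?_, ?_, ?_, ?_, ?_⟩, ?_, ?_, ?_, hend⟩
  · have := B.card
    simp only [Fintype.card_sum, Fintype.card_fin, Fintype.card_unit]
    omega
  · intro z
    cases hz : c' z
    · rcases KY z hz with ⟨u, e1, e2, e3, e4, e5⟩ | ⟨e1, e2, e3⟩ | ⟨j, e1, e2, e3, e4, e5, e6⟩ <;>
        omega
    · rcases KX z hz with ⟨u, e1, e2, e3, e4, e5⟩ | ⟨e1, e2, e3⟩ | ⟨j, e1, e2, e3, e4, e5, e6⟩ <;>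
        omega
  · intro z hz
    rcases KX z hz with ⟨u, e1, e2, e3, e4, e5⟩ | ⟨e1, e2, e3⟩ | ⟨j, e1, e2, e3, e4, e5, e6⟩ <;>
      omega
  · intro z hz
    rcases KY z hz with ⟨u, e1, e2, e3, e4, e5⟩ | ⟨e1, e2, e3⟩ | ⟨j, e1, e2, e3, e4, e5, e6⟩ <;>
      omega
  · intro x z hxz h1
    cases hx : c' x
    · exact inj2 x z hx (by rw [← hxz]; exact hx) h1
    · exact inj1 x z hx (by rw [← hxz]; exact hx) h1
  · intro x z h1
    exact (E x z h1).1
  · intro x z x' z' h1 h2 hx hx' hsum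
    obtain ⟨d1, f1⟩ := E x z h1
    obtain ⟨d2, f2⟩ := E x' z' h2
    clear E KX KY inj1 inj2 Λinj ΛX ΛY L5 hOX hOY
    rcases f1 with ⟨u, v, e1, e2, e3, e4, e5⟩ | ⟨e1, e2⟩ | ⟨e1, e2⟩ | ⟨j, k, e1, e2, e3⟩ <;>
    rcases f2 with ⟨u', v', g1, g2, g3, g4, g5⟩ | ⟨g1, g2⟩ | ⟨g1, g2⟩ | ⟨j', k', g1, g2, g3⟩
    · rw [e1, C1] at hx
      rw [g1, C1] at hx'
      obtain ⟨r1, r2⟩ := B.sum u v u' v' e3 g3 hx hx' (by omega)
      rw [e1, e2, g1, g2, r1, r2]; exact ⟨rfl, rfl⟩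
    · exfalso; omega
    · exfalso; omega
    · exfalso
      have hk' := k'.isLt
      rcases Λs j'.val (by omega) with m1 | m1 | m1 | m1 | m1 <;> omega
    · exfalso; omega
    · exact two _ _ x z x' z' c' d1 hx hx' e1 g1
    · exfalso; omega
    · exfalso
      have hk' := k'.isLt
      rcases Λs j'.val (by omega) with m1 | m1 | m1 | m1 | m1 <;> omega
    · exfalso; omega
    · exfalso; omega
    · exact two _ _ x z x' z' c' d1 hx hx' e1 g1
    · exfalso
      have hk' := k'.isLt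
      rcases Λs j'.val (by omega) with m1 | m1 | m1 | m1 | m1 <;> omega
    · exfalso
      have hk' := k.isLt
      rcases Λs j.val (by omega) with m1 | m1 | m1 | m1 | m1 <;> omega
    · exfalso
      have hk' := k.isLt
      rcases Λs j.val (by omega) with m1 | m1 | m1 | m1 | m1 <;> omega
    · exfalso
      have hk' := k.isLt
      rcases Λs j.val (by omega) with m1 | m1 | m1 | m1 | m1 <;> omega
    · have hk := k.isLt
      have hk' := k'.isLt
      have hjj : j.val = j'.val := by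
        have hs : Λ j.val + Λ (j.val + 1) = Λ j'.val + Λ (j'.val + 1) := by omega
        rcases Λs j.val (by omega) with m1 | m1 | m1 | m1 | m1 <;>
        rcases Λs j'.val (by omega) with m2 | m2 | m2 | m2 | m2
        · omega
        · omega
        · omega
        · omega
        · omega
        · omega
        · omega
        · omega
        · omega
        · omega
        · omega
        · omega
        · omega
        · omega
        · omega
        · omega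
        · omega
        · omega
        · omega
        · omega
        · omega
        · omega
        · omega
        · omega
        · have := P3.sinj (j.val - 2 * p - 2 * q) m1.2.1 (j'.val - 2 * p - 2 * q) m2.2.1
            (by omega)
          omega
      have hj1 : j = j' := Fin.ext hjj
      have hk1 : k = k' := Fin.ext (by omega)
      subst hj1
      subst hk1
      exact two _ _ x z x' z' c' d1 hx hx' e2 g2
  · intro x z h1
    rcases (E x z h1).2 with ⟨u, v, e1, e2, e3, e4, e5⟩ | ⟨e1, e2⟩ | ⟨e1, e2⟩ |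
      ⟨j, k, e1, e2, e3⟩
    · have := hlt u v e3
      omega
    · omega
    · omega
    · have hk := k.isLt
      rcases Λs j.val (by omega) with m1 | m1 | m1 | m1 | m1 <;> omega
  · intro u
    rcases kind u with hu | hu
    · rw [L1 u hu]; omega
    · rw [L2 u hu]; omega
  · rcases L5 with ⟨m1, m2, m3⟩ | ⟨m1, m2, m3⟩ <;> omega

lemma leafed {U : Type} [Fintype U] {G : SimpleGraph U} {c : U → Bool} {l : U → ℕ} {a b : ℕ}
    (B : Blk G c l a b) (hlt : ∀ x z, G.Adj x z → l x + l z < a + b) (hab : 2 ≤ a + b)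
    (y t : U) (hy : 2 ≤ l y) (n : ℕ) (hn : 20 * (a + b) ≤ n) :
    Leafed G c l y t n := by
  cases ht : c t
  · obtain ⟨c', l', a', b', k1, k2, k3, k4, k5⟩ :=
      leaf1 B.swap (fun x z h => by rw [add_comm b a]; exact hlt x z h) (by omega) y t
        (by simp [ht]) hy n (by omega)
    refine ⟨c', l', a', b', k1, k2, k3, k4, ?_⟩
    rw [k5]
    simp [ht]
  · exact leaf1 B hlt hab y t ht hy n hn

end SEMD
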