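import Mathlib
import Pool.Agent.SEMD.TopN
import Pool.Agent.SEMD.BridgeStep

/-!
Two labelled trees and a long path attached to one of them, with control of the label of the last
vertex of the path.
-/

set_option autoImplicit false
set_option linter.unusedSectionVars false

namespace SEMD

variable {V2 V3 : Type} [Fintype V2] [Fintype V3]

/-- The top part of the layout. -/
def TopOK (T2 : SimpleGraph V2) (T3 : SimpleGraph V3) (t : V3) (m w : ℕ) : Prop :=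
  ∃ (cls : (V2 ⊕ V3) ⊕ Fin (m + 1) → Bool) (lab : (V2 ⊕ V3) ⊕ Fin (m + 1) → ℕ) (XT YT : ℕ),
      Blk (tailG T2 T3 t m) cls lab XT YT ∧
      (∀ y z, (tailG T2 T3 t m).Adj y z → lab y + lab z < XT + YT) ∧
      lab (Sum.inr (Fin.last m)) = w ∧ ∀ v, m ≤ 2 * lab (Sum.inl v) + 2 * w

lemma one_of_zero {V : Type} [Fintype V] {T : SimpleGraph V} {c : V → Bool} {l : V → ℕ} {a b : ℕ}
    (h : T.IsTree) (B : Blk T c l a b) (hb : b = 0) : a = 1 := by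
  classical
  have h1 := h.card_edgeFinset
  have h2 : T.edgeFinset = ∅ := by
    rw [Finset.eq_empty_iff_forall_notMem]
    intro e he
    rw [SimpleGraph.mem_edgeFinset] at he
    induction e using Sym2.inductionOn with
    | _ u v =>
      rw [SimpleGraph.mem_edgeSet] at he
      have p1 := B.pos u
      have p2 := B.pos v
      cases hu : c u
      · have := B.le2 u hu; omega
      · have hv := B.other he hu
        have := B.le2 v hv; omega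
  rw [h2] at h1
  simp at h1
  have := B.card
  omega

lemma core1 {T2 : SimpleGraph V2} {T3 : SimpleGraph V3} {c2 : V2 → Bool} {l2 : V2 → ℕ}
    {a2 b2 : ℕ} {c3 : V3 → Bool} {l3 : V3 → ℕ} {a3 b3 : ℕ} (ne2 : 1 ≤ a2 + b2) (ne3 : 1 ≤ a3 + b3)
    (B2 : Blk T2 c2 l2 a2 b2) (B3 : Blk T3 c3 l3 a3 b3) (t : V3) (ht : c3 t = true)
    (h : a3 ≤ b2) : ∃ w, a3 + 1 ≤ w ∧ w ≤ 3 * (a2 + b2 + (a3 + b3)) + 1 ∧
      ∀ m, 16 * (a2 + b2 + (a3 + b3)) ≤ m → TopOK T2 T3 t m w := by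
  have t1 := B3.pos t
  have t2 := B3.le1 t ht
  obtain ⟨N, hN⟩ : ∃ N, N = l3 t + b2 - a3 := ⟨_, rfl⟩
  refine ⟨N + b2 + b3 + 1, by omega, by omega, ?_⟩
  intro m hm
  obtain ⟨s, hs⟩ : ∃ s, s = N + 1 - l3 t := ⟨_, rfl⟩
  obtain ⟨nL, hnL⟩ : ∃ nL, nL = m - 2 * N := ⟨_, rfl⟩
  obtain ⟨XL, hXL⟩ : ∃ XL, XL = (nL + 1) / 2 := ⟨_, rfl⟩
  obtain ⟨YL, hYL⟩ : ∃ YL, YL = nL / 2 := ⟨_, rfl⟩
  obtain ⟨x, hx⟩ : ∃ x, x = XL - (N + b2 + b3) := ⟨_, rfl⟩
  obtain ⟨LP, PP⟩ := PL.exists (2 * N) s (by omega) (by omega) (Or.inr (Or.inl (by omega)))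
  obtain ⟨LL, PLL⟩ := PL.exists nL x (by omega) (by omega) (Or.inr (Or.inr (by omega)))
  have hlast := PP.last
  have hlast2 := PLL.last
  obtain ⟨cls, lab, XT, YT, r1, r2, r3, r4, r5⟩ :=
    topN ne2 ne3 B2 B3 t ht m (2 * N) nL s x LP LL PP PLL XL YL N N
    (XL + N + a3) (YL + N + b3) (XL + N) (YL + N) (YL + N + b2 + b3 + 1) (XL + LP (2 * N - 1))
    (by omega) (by omega) (by omega) (by omega) (by omega)
    (Or.inl ⟨by omega, hXL, hYL, rfl, rfl⟩) (Or.inl ⟨rfl, rfl, rfl, rfl⟩)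
    (Or.inl ⟨by omega, Or.inl ⟨by omega, rfl, rfl⟩⟩) (by omega)
  refine ⟨cls, lab, XT, YT, r1, r2, by rw [r4]; omega, ?_⟩
  intro v
  have := r5 v
  omega

lemma core2 {T2 : SimpleGraph V2} {T3 : SimpleGraph V3} {c2 : V2 → Bool} {l2 : V2 → ℕ}
    {a2 b2 : ℕ} {c3 : V3 → Bool} {l3 : V3 → ℕ} {a3 b3 : ℕ} (ne2 : 1 ≤ a2 + b2) (ne3 : 1 ≤ a3 + b3)
    (B2 : Blk T2 c2 l2 a2 b2) (B3 : Blk T3 c3 l3 a3 b3) (t : V3) (ht : c3 t = true)
    (h : b2 < a3) (hne : a3 + 1 ≠ a2 + b2 + l3 t) :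
    ∃ w, a3 + 1 ≤ w ∧ w ≤ 3 * (a2 + b2 + (a3 + b3)) + 1 ∧
      ∀ m, 16 * (a2 + b2 + (a3 + b3)) ≤ m → TopOK T2 T3 t m w := by
  have t1 := B3.pos t
  have t2 := B3.le1 t ht
  obtain ⟨N, hN⟩ : ∃ N, N = a2 + a3 + l3 t - b2 - 1 := ⟨_, rfl⟩
  refine ⟨N + a2 + a3 + 1, by omega, by omega, ?_⟩
  intro m hm
  obtain ⟨s, hs⟩ : ∃ s, s = a3 - b2 + 1 := ⟨_, rfl⟩
  obtain ⟨nL, hnL⟩ : ∃ nL, nL = m - (2 * N + 1) := ⟨_, rfl⟩
  obtain ⟨XL, hXL⟩ : ∃ XL, XL = nL / 2 := ⟨_, rfl⟩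
  obtain ⟨YL, hYL⟩ : ∃ YL, YL = (nL + 1) / 2 := ⟨_, rfl⟩
  obtain ⟨x, hx⟩ : ∃ x, x = YL - (N + a2 + a3) := ⟨_, rfl⟩
  obtain ⟨LP, PP⟩ := PL.exists (2 * N + 1) s (by omega) (by omega) (Or.inr (Or.inr (by omega)))
  obtain ⟨LL, PLL⟩ := PL.exists nL x (by omega) (by omega) (Or.inr (Or.inr (by omega)))
  have hlast := PP.last
  have hlast2 := PLL.last
  obtain ⟨cls, lab, XT, YT, r1, r2, r3, r4, r5⟩ :=
    topN ne2 ne3 B2 B3 t ht m (2 * N + 1) nL s x LP LL PP PLL XL YL N (N + 1)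
    (XL + N) (YL + (N + 1)) (XL + N + a2) (YL + (N + 1) + b2) (XL + N + a2 + a3 + 1)
    (YL + LP (2 * N + 1 - 1))
    (by omega) (by omega) (by omega) (by omega) (by omega)
    (Or.inr ⟨by omega, hXL, hYL, rfl, rfl⟩) (Or.inr ⟨rfl, rfl, rfl, rfl⟩)
    (Or.inl ⟨by omega, Or.inr ⟨by omega, rfl, rfl⟩⟩) (by omega)
  refine ⟨cls, lab, XT, YT, r1, r2, by rw [r4]; omega, ?_⟩
  intro v
  have := r5 v
  omega

lemma core3 {T2 : SimpleGraph V2} {T3 : SimpleGraph V3} {c2 : V2 → Bool} {l2 : V2 → ℕ}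
    {a2 b2 : ℕ} {c3 : V3 → Bool} {l3 : V3 → ℕ} {a3 b3 : ℕ} (ne2 : 1 ≤ a2 + b2) (ne3 : 1 ≤ a3 + b3)
    (B2 : Blk T2 c2 l2 a2 b2) (B3 : Blk T3 c3 l3 a3 b3) (t : V3) (ht : c3 t = true)
    (h : b2 + 1 ≤ l3 t) (hw : a3 ≤ l3 t + b3 + b2 + b3) :
    ∃ w, a3 + 1 ≤ w ∧ w ≤ 3 * (a2 + b2 + (a3 + b3)) + 1 ∧
      ∀ m, 16 * (a2 + b2 + (a3 + b3)) ≤ m → TopOK T2 T3 t m w := by
  have t1 := B3.pos t
  have t2 := B3.le1 t ht
  obtain ⟨N, hN⟩ : ∃ N, N = l3 t + b3 := ⟨_, rfl⟩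
  refine ⟨N + b2 + b3 + 1, by omega, by omega, ?_⟩
  intro m hm
  obtain ⟨s, hs⟩ : ∃ s, s = b3 + b2 + 1 := ⟨_, rfl⟩
  obtain ⟨nL, hnL⟩ : ∃ nL, nL = m - 2 * N := ⟨_, rfl⟩
  obtain ⟨XL, hXL⟩ : ∃ XL, XL = (nL + 1) / 2 := ⟨_, rfl⟩
  obtain ⟨YL, hYL⟩ : ∃ YL, YL = nL / 2 := ⟨_, rfl⟩
  obtain ⟨x, hx⟩ : ∃ x, x = XL - (N + b2 + b3) := ⟨_, rfl⟩
  obtain ⟨LP, PP⟩ := PL.exists (2 * N) s (by omega) (by omega) (Or.inr (Or.inl (by omega)))
  obtain ⟨LL, PLL⟩ := PL.exists nL x (by omega) (by omega) (Or.inr (Or.inr (by omega)))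
  have hlast := PP.last
  have hlast2 := PLL.last
  obtain ⟨cls, lab, XT, YT, r1, r2, r3, r4, r5⟩ :=
    topN ne2 ne3 B2 B3 t ht m (2 * N) nL s x LP LL PP PLL XL YL N N
    (XL + N) (YL + N) (XL + N + a2) (YL + N + b2) (YL + N + b2 + b3 + 1) (XL + LP (2 * N - 1))
    (by omega) (by omega) (by omega) (by omega) (by omega)
    (Or.inl ⟨by omega, hXL, hYL, rfl, rfl⟩) (Or.inr ⟨rfl, rfl, rfl, rfl⟩)
    (Or.inr ⟨by omega, by omega, rfl, rfl⟩) (by omega)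
  refine ⟨cls, lab, XT, YT, r1, r2, by rw [r4]; omega, ?_⟩
  intro v
  have := r5 v
  omega

lemma core4 {T2 : SimpleGraph V2} {T3 : SimpleGraph V3} {c2 : V2 → Bool} {l2 : V2 → ℕ}
    {a2 b2 : ℕ} {c3 : V3 → Bool} {l3 : V3 → ℕ} {a3 b3 : ℕ} (ne2 : 1 ≤ a2 + b2) (ne3 : 1 ≤ a3 + b3)
    (B2 : Blk T2 c2 l2 a2 b2) (B3 : Blk T3 c3 l3 a3 b3) (t : V3) (ht : c3 t = true)
    (h : b3 ≤ a2) (hl : l3 t = a2 + b2) (hb : b2 + b3 ≠ 1) :
    ∃ w, a3 + 1 ≤ w ∧ w ≤ 3 * (a2 + b2 + (a3 + b3)) + 1 ∧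
      ∀ m, 16 * (a2 + b2 + (a3 + b3)) ≤ m → TopOK T2 T3 t m w := by
  have t1 := B3.pos t
  have t2 := B3.le1 t ht
  obtain ⟨N, hN⟩ : ∃ N, N = a2 + l3 t - b3 - 1 := ⟨_, rfl⟩
  refine ⟨N + a2 + a3 + 1, by omega, by omega, ?_⟩
  intro m hm
  obtain ⟨s, hs⟩ : ∃ s, s = N + 2 - l3 t := ⟨_, rfl⟩
  obtain ⟨nL, hnL⟩ : ∃ nL, nL = m - (2 * N + 1) := ⟨_, rfl⟩
  obtain ⟨XL, hXL⟩ : ∃ XL, XL = nL / 2 := ⟨_, rfl⟩
  obtain ⟨YL, hYL⟩ : ∃ YL, YL = (nL + 1) / 2 := ⟨_, rfl⟩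
  obtain ⟨x, hx⟩ : ∃ x, x = YL - (N + a2 + a3) := ⟨_, rfl⟩
  obtain ⟨LP, PP⟩ := PL.exists (2 * N + 1) s (by omega) (by omega) (Or.inr (Or.inr (by omega)))
  obtain ⟨LL, PLL⟩ := PL.exists nL x (by omega) (by omega) (Or.inr (Or.inr (by omega)))
  have hlast := PP.last
  have hlast2 := PLL.last
  obtain ⟨cls, lab, XT, YT, r1, r2, r3, r4, r5⟩ :=
    topN ne2 ne3 B2 B3 t ht m (2 * N + 1) nL s x LP LL PP PLL XL YL N (N + 1)
    (XL + N + a3) (YL + (N + 1) + b3) (XL + N) (YL + (N + 1)) (XL + N + a2 + a3 + 1)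
    (YL + LP (2 * N + 1 - 1))
    (by omega) (by omega) (by omega) (by omega) (by omega)
    (Or.inr ⟨by omega, hXL, hYL, rfl, rfl⟩) (Or.inl ⟨rfl, rfl, rfl, rfl⟩)
    (Or.inl ⟨by omega, Or.inl ⟨by omega, rfl, rfl⟩⟩) (by omega)
  refine ⟨cls, lab, XT, YT, r1, r2, by rw [r4]; omega, ?_⟩
  intro v
  have := r5 v
  omega

/-- All cases, `t` of colour `true`. -/
lemma core {T2 : SimpleGraph V2} {T3 : SimpleGraph V3} {c2 : V2 → Bool} {l2 : V2 → ℕ}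
    {a2 b2 : ℕ} {c3 : V3 → Bool} {l3 : V3 → ℕ} {a3 b3 : ℕ} (ne2 : 1 ≤ a2 + b2) (ne3 : 1 ≤ a3 + b3)
    (B2 : Blk T2 c2 l2 a2 b2) (B3 : Blk T3 c3 l3 a3 b3) (t : V3) (ht : c3 t = true)
    (hb2 : b2 = 0 → a2 = 1) (ha2 : a2 = 0 → b2 = 1) (hb3 : b3 = 0 → a3 = 1) :
    ∃ w, a3 + 1 ≤ w ∧ w ≤ 3 * (a2 + b2 + (a3 + b3)) + 1 ∧
      ∀ m, 16 * (a2 + b2 + (a3 + b3)) ≤ m → TopOK T2 T3 t m w := by
  have t2 := B3.le1 t ht
  have t1 := B3.pos t
  by_cases q1 : a3 ≤ b2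
  · exact core1 ne2 ne3 B2 B3 t ht q1
  by_cases q2 : a3 ≤ a2
  · obtain ⟨w, w1, w2, w3⟩ := core1 (by omega) ne3 B2.swap B3 t ht q2
    exact ⟨w, w1, by omega, fun m hm => w3 m (by omega)⟩
  by_cases q3 : a3 + 1 = a2 + b2 + l3 t
  · have hl : (if c3 t = true then a3 + 1 - l3 t else b3 + 1 - l3 t) = a3 + 1 - l3 t := by
      rw [if_pos ht]
    by_cases q4 : a3 + 1 = a2 + b2 + (a3 + 1 - l3 t)
    · by_cases q5 : a2 ≤ 2 * b3 + 1
      · exact core3 ne2 ne3 B2 B3 t ht (by omega) (by omega)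
      · exact core4 ne2 ne3 B2 B3 t ht (by omega) (by omega) (by omega)
    · obtain ⟨w, w1, w2, w3⟩ := core2 ne2 ne3 B2 B3.mirror t ht (by omega) (by rw [hl]; exact q4)
      exact ⟨w, w1, w2, w3⟩
  · exact core2 ne2 ne3 B2 B3 t ht (by omega) q3

lemma le_card {V : Type} [Fintype V] {T : SimpleGraph V} {c : V → Bool} {l : V → ℕ} {a b : ℕ}
    (B : Blk T c l a b) (v : V) : l v ≤ Fintype.card V := by
  have h := B.card
  cases hv : c v
  · have := B.le2 v hv; omega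
  · have := B.le1 v hv; omega

lemma start_layout {A B : Type} [Fintype A] [Fintype B] {S : SimpleGraph A} {T : SimpleGraph B}
    {c2 : A → Bool} {l2 : A → ℕ} {a2 b2 : ℕ} {c3 : B → Bool} {l3 : B → ℕ} {a3 b3 : ℕ}
    (B2 : Blk S c2 l2 a2 b2) (B3 : Blk T c3 l3 a3 b3) (r : A) (t : B) (u3 : c3 t = true) {N : ℕ}
    (hS : S.IsTree) (hN : Fintype.card A + Fintype.card B ≤ N) :
    ∃ w, N + 1 ≤ w ∧ w ≤ 10 * N ∧ ∀ m, 50 * N ≤ m →
      ∃ (c : (A ⊕ B) ⊕ Fin (m + 1) → Bool) (l : (A ⊕ B) ⊕ Fin (m + 1) → ℕ) (X Y : ℕ),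
        Blk (attach (S ⊕g T) (Sum.inr t) m) c l X Y ∧
        (∀ x y, (attach (S ⊕g T) (Sum.inr t) m).Adj x y → l x + l y < X + Y) ∧
        (∀ v, N + 1 ≤ l (Sum.inl v)) ∧ l (Sum.inr (Fin.last m)) = w := by
  classical
  have s2 := B2.card
  have s3 := B3.card
  have p2 : 1 ≤ Fintype.card A := by
    have : Nonempty A := ⟨r⟩
    exact Fintype.card_pos
  have p3 : 1 ≤ Fintype.card B := by
    have : Nonempty B := ⟨t⟩
    exact Fintype.card_pos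
  have t1 := B3.pos t
  have t2 := B3.le1 t u3
  obtain ⟨n, hn⟩ : ∃ n, n = 2 * N - 1 := ⟨_, rfl⟩
  obtain ⟨c', l', a', b', k1, k2, k3, k4, k5, k6, k7⟩ :=
    extend B3 t n (by omega) (Or.inl (by omega))
  obtain ⟨k8, k9, k10⟩ := k6 (by omega)
  have hb2 : b2 = 0 → a2 = 1 := one_of_zero hS B2
  have ha2 : a2 = 0 → b2 = 1 := one_of_zero hS B2.swap
  obtain ⟨w, w1, w2, w3⟩ := core (by omega) (by omega) B2 k1 (Sum.inr (Fin.last n))
    (by rw [k8, u3]) hb2 ha2 (by omega)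
  refine ⟨w, by omega, by omega, ?_⟩
  intro m hm
  obtain ⟨m1, hm1⟩ : ∃ m1, m1 = m - 2 * N := ⟨_, rfl⟩
  obtain ⟨cls, lab, XT, YT, BT, hlt, hw, hlow⟩ := w3 m1 (by omega)
  obtain ⟨e, he⟩ : ∃ e : (A ⊕ B) ⊕ Fin (m + 1) → (A ⊕ (B ⊕ Fin (n + 1))) ⊕ Fin (m1 + 1), e =
    Sum.elim (Sum.elim (fun a => Sum.inl (Sum.inl a)) (fun b => Sum.inl (Sum.inr (Sum.inl b))))
      (fun j : Fin (m + 1) => if h : j.val < n + 1 then Sum.inl (Sum.inr (Sum.inr ⟨j.val, h⟩))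
        else Sum.inr ⟨j.val - (n + 1), by have := j.isLt; omega⟩) := ⟨_, rfl⟩
  have e1 : ∀ a, e (Sum.inl (Sum.inl a)) = Sum.inl (Sum.inl a) := by intro a; rw [he]; rfl
  have e2 : ∀ b, e (Sum.inl (Sum.inr b)) = Sum.inl (Sum.inr (Sum.inl b)) := by
    intro b; rw [he]; rfl
  have e3 : ∀ (j : Fin (m + 1)) (h : j.val < n + 1),
      e (Sum.inr j) = Sum.inl (Sum.inr (Sum.inr ⟨j.val, h⟩)) := by
    intro j h
    rw [he, Sum.elim_inr, dif_pos h]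
  have e4 : ∀ (j : Fin (m + 1)) (_ : n + 1 ≤ j.val) (h' : j.val - (n + 1) < m1 + 1),
      e (Sum.inr j) = Sum.inr ⟨j.val - (n + 1), h'⟩ := by
    intro j h h'
    rw [he, Sum.elim_inr, dif_neg (by omega)]
  have hinj : Function.Injective e := by
    rintro ((u | u) | j) ((v | v) | k) huv
    · rw [e1, e1] at huv
      simp only [Sum.inl.injEq] at huv
      rw [huv]
    · rw [e1, e2] at huv; simp at huv
    · exfalso
      rw [e1] at huv
      have hk := k.isLt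
      rcases Nat.lt_or_ge k.val (n + 1) with h | h
      · rw [e3 k h] at huv; simp at huv
      · rw [e4 k h (by omega)] at huv; simp at huv
    · rw [e1, e2] at huv; simp at huv
    · rw [e2, e2] at huv
      simp only [Sum.inl.injEq, Sum.inr.injEq] at huv
      rw [huv]
    · exfalso
      rw [e2] at huv
      have hk := k.isLt
      rcases Nat.lt_or_ge k.val (n + 1) with h | h
      · rw [e3 k h] at huv; simp at huv
      · rw [e4 k h (by omega)] at huv; simp at huv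
    · exfalso
      rw [e1] at huv
      have hk := j.isLt
      rcases Nat.lt_or_ge j.val (n + 1) with h | h
      · rw [e3 j h] at huv; simp at huv
      · rw [e4 j h (by omega)] at huv; simp at huv
    · exfalso
      rw [e2] at huv
      have hk := j.isLt
      rcases Nat.lt_or_ge j.val (n + 1) with h | h
      · rw [e3 j h] at huv; simp at huv
      · rw [e4 j h (by omega)] at huv; simp at huv
    · have hj := j.isLt
      have hk := k.isLt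
      have hjk : j.val = k.val := by
        rcases Nat.lt_or_ge j.val (n + 1) with h | h <;>
          rcases Nat.lt_or_ge k.val (n + 1) with h' | h'
        · rw [e3 j h, e3 k h'] at huv
          simp only [Sum.inl.injEq, Sum.inr.injEq, Fin.mk.injEq] at huv
          exact huv
        · rw [e3 j h, e4 k h' (by omega)] at huv; simp at huv
        · rw [e4 j h (by omega), e3 k h'] at huv; simp at huv
        · rw [e4 j h (by omega), e4 k h' (by omega)] at huv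
          simp only [Sum.inr.injEq, Fin.mk.injEq] at huv
          omega
      rw [Fin.ext hjk]
  have hpath : ∀ j k : Fin (m + 1), j.val + 1 = k.val →
      (tailG S (attach T t n) (Sum.inr (Fin.last n)) m1).Adj (e (Sum.inr j)) (e (Sum.inr k)) := by
    intro j k hjk
    have hj := j.isLt
    have hk := k.isLt
    rcases Nat.lt_trichotomy k.val (n + 1) with h | h | h
    · rw [e3 j (by omega), e3 k h]
      have h1 : (attach T t n).Adj (Sum.inr ⟨j.val, by omega⟩) (Sum.inr ⟨k.val, h⟩) :=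
        attach_inr hjk
      exact attach_inl (G := S ⊕g attach T t n) (by simpa using h1)
    · rw [e3 j (by omega), e4 k (by omega) (by omega)]
      have h1 : (⟨j.val, by omega⟩ : Fin (n + 1)) = Fin.last n := Fin.ext (by
        show j.val = n
        omega)
      have h2 : (⟨k.val - (n + 1), by omega⟩ : Fin (m1 + 1)) = 0 := Fin.ext (by
        show k.val - (n + 1) = 0
        omega)
      rw [h1, h2]
      exact attach_edge (G := S ⊕g attach T t n)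
    · rw [e4 j (by omega) (by omega), e4 k (by omega) (by omega)]
      exact attach_inr (G := S ⊕g attach T t n) (by
        show j.val - (n + 1) + 1 = k.val - (n + 1)
        omega)
  have hadj : ∀ x y, (attach (S ⊕g T) (Sum.inr t) m).Adj x y →
      (tailG S (attach T t n) (Sum.inr (Fin.last n)) m1).Adj (e x) (e y) := by
    intro x y hxy
    rcases attach_adj (S ⊕g T) (Sum.inr t) m x y hxy with ⟨u, v, h1, h2, h3⟩ | ⟨j, k, h1, h2⟩ | h1
    · rcases u with u | u <;> rcases v with v | v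
      · rw [h1, h2, e1, e1]
        exact attach_inl (G := S ⊕g attach T t n) (by simpa using h3)
      · simp at h3
      · simp at h3
      · rw [h1, h2, e2, e2]
        have h4 : T.Adj u v := by simpa using h3
        have h5 : (attach T t n).Adj (Sum.inl u) (Sum.inl v) := attach_inl h4
        exact attach_inl (G := S ⊕g attach T t n) (by simpa using h5)
    · rcases h2 with ⟨r1, r2⟩ | ⟨r1, r2⟩
      · rw [r1, r2]; exact hpath j k h1
      · rw [r1, r2]; exact (hpath j k h1).symm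
    · have h5 : (attach T t n).Adj (Sum.inl t) (Sum.inr 0) := attach_edge
      have h6 : (tailG S (attach T t n) (Sum.inr (Fin.last n)) m1).Adj
          (e (Sum.inl (Sum.inr t))) (e (Sum.inr 0)) := by
        rw [e2, e3 0 (Nat.succ_pos n)]
        exact attach_inl (G := S ⊕g attach T t n) (by simpa using h5)
      rcases h1 with ⟨r1, r2⟩ | ⟨r1, r2⟩
      · rw [r1, r2]; exact h6
      · rw [r1, r2]; exact h6.symm
  have hcard : Fintype.card ((A ⊕ B) ⊕ Fin (m + 1)) =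
      Fintype.card ((A ⊕ (B ⊕ Fin (n + 1))) ⊕ Fin (m1 + 1)) := by
    simp only [Fintype.card_sum, Fintype.card_fin]
    omega
  have BG : Blk (attach (S ⊕g T) (Sum.inr t) m) (fun x => cls (e x)) (fun x => lab (e x)) XT YT :=
    BT.transfer e hinj hcard hadj
  have hend : e (Sum.inr (Fin.last m)) = Sum.inr (Fin.last m1) := by
    rw [e4 (Fin.last m) (by rw [Fin.val_last]; omega) (by rw [Fin.val_last]; omega)]
    congr 1
    apply Fin.ext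
    show (Fin.last m).val - (n + 1) = m1
    rw [Fin.val_last]; omega
  refine ⟨_, _, XT, YT, BG, ?_, ?_, ?_⟩
  · intro x y hxy
    exact hlt _ _ (hadj x y hxy)
  · rintro (u | u)
    · show N + 1 ≤ lab (e (Sum.inl (Sum.inl u)))
      rw [e1]
      have := hlow (Sum.inl u)
      omega
    · show N + 1 ≤ lab (e (Sum.inl (Sum.inr u)))
      rw [e2]
      have := hlow (Sum.inr (Sum.inl u))
      omega
  · show lab (e (Sum.inr (Fin.last m))) = w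
    rw [hend, hw]

end SEMD
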