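import Mathlib
import Pool.Agent.SEMD.Start
import Pool.Agent.SEMD.Leaf

/-!
Refined versions of the extension lemma and of the leaf lemma.
-/

set_option autoImplicit false
set_option linter.unusedSectionVars false

namespace SEMD

/-- The statement of the extension lemma. -/
def Extended2 {U : Type} [Fintype U] (G : SimpleGraph U) (c : U → Bool) (l : U → ℕ) (a b : ℕ)
    (e : U) (n : ℕ) : Prop :=
  ∃ (c' : U ⊕ Fin (n + 1) → Bool) (l' : U ⊕ Fin (n + 1) → ℕ) (a' b' : ℕ),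
    Blk (attach G e n) c' l' a' b' ∧ (∀ u, c' (Sum.inl u) = c u) ∧
    (∀ u, l u + (n + 1) / 2 ≤ l' (Sum.inl u) ∧ l' (Sum.inl u) ≤ l u + (n + 1)) ∧
    (∀ j, l' (Sum.inr j) ≤ n + 1) ∧ l' (Sum.inr (Fin.last n)) = l e ∧
    (n % 2 = 1 → c' (Sum.inr (Fin.last n)) = c e ∧ a' = a + (n + 1) / 2 ∧
      b' = b + (n + 1) / 2) ∧
    (2 ≤ a + b → (∀ x y, G.Adj x y → l x + l y < a + b) →
      ∀ x y, (attach G e n).Adj x y → l' x + l' y < a' + b') ∧
    (∀ u, 2 * l' (Sum.inl u) + (if c' (Sum.inl u) = c' (Sum.inr (Fin.last n)) then 0 else 1) =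
      2 * l u + (n + 1) + (if c u = c e then 0 else 1))

lemma extend1b {U : Type} [Fintype U] {G : SimpleGraph U} {c : U → Bool} {l : U → ℕ} {a b : ℕ}
    (B : Blk G c l a b) (e : U) (he : c e = true) (n : ℕ) (hn : 2 * l e ≤ n + 1)
    (hn2 : n % 2 = 1 ∨ 4 * l e ≤ n) : Extended2 G c l a b e n := by
  have le1 := B.pos e
  have le2 := B.le1 e he
  obtain ⟨s, hs⟩ : ∃ s, s = (n + 2) / 2 + 1 - l e := ⟨_, rfl⟩
  obtain ⟨LP, PP⟩ := PL.exists (n + 1) s (by omega) (by omega) (by omega)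
  have hlast := PP.last
  obtain ⟨c', hc'⟩ : ∃ c' : U ⊕ Fin (n + 1) → Bool, c' =
    Sum.elim c (fun j : Fin (n + 1) => decide (j.val % 2 = 1)) := ⟨_, rfl⟩
  obtain ⟨l', hl'⟩ : ∃ l' : U ⊕ Fin (n + 1) → ℕ, l' =
    Sum.elim (fun u => if c u = true then (n + 1) / 2 + l u else (n + 2) / 2 + l u)
      (fun j : Fin (n + 1) => LP j.val) := ⟨_, rfl⟩
  have C1 : ∀ u, c' (Sum.inl u) = c u := by intro u; rw [hc']; rfl
  have C2 : ∀ j : Fin (n + 1), c' (Sum.inr j) = decide (j.val % 2 = 1) := by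
    intro j; rw [hc']; rfl
  have L1 : ∀ u, c u = true → l' (Sum.inl u) = (n + 1) / 2 + l u := by
    intro u hu; rw [hl', Sum.elim_inl, if_pos hu]
  have L2 : ∀ u, c u = false → l' (Sum.inl u) = (n + 2) / 2 + l u := by
    intro u hu; rw [hl', Sum.elim_inl, if_neg (by simp [hu])]
  have L3 : ∀ j : Fin (n + 1), l' (Sum.inr j) = LP j.val := by
    intro j; rw [hl']; rfl
  have kind : ∀ u, c u = true ∨ c u = false := by
    intro u; cases c u <;> simp
  have PX : ∀ j : Fin (n + 1), 1 ≤ LP j.val ∧ (j.val % 2 = 1 → LP j.val ≤ (n + 1) / 2) ∧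
      (j.val % 2 = 0 → LP j.val ≤ (n + 2) / 2) := by
    intro j
    refine ⟨PP.pos _ j.isLt, ?_, ?_⟩
    · intro h
      have := PP.od _ j.isLt h
      omega
    · intro h
      have := PP.ev _ j.isLt h
      omega
  have E : ∀ x y, (attach G e n).Adj x y → c' x ≠ c' y ∧
      ((∃ u v, x = Sum.inl u ∧ y = Sum.inl v ∧ G.Adj u v ∧ l' x + l' y = n + 1 + (l u + l v) ∧
          2 ≤ l u + l v) ∨
        (∃ j k : Fin (n + 1), j.val + 1 = k.val ∧
          ((x = Sum.inr j ∧ y = Sum.inr k) ∨ (x = Sum.inr k ∧ y = Sum.inr j)) ∧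
          l' x + l' y = LP j.val + LP (j.val + 1) ∧ LP j.val + LP (j.val + 1) ≤ n + 1) ∨
        (((x = Sum.inl e ∧ y = Sum.inr 0) ∨ (x = Sum.inr 0 ∧ y = Sum.inl e)) ∧
          l' x + l' y = n + 2)) := by
    intro x y hxy
    rcases attach_adj G e n x y hxy with ⟨u, v, h1, h2, h3⟩ | ⟨j, k, h1, h2⟩ | h1
    · have hc := B.col u v h3
      have hs := B.sum_le h3
      refine ⟨by rw [h1, h2, C1, C1]; exact hc, Or.inl ⟨u, v, h1, h2, h3, ?_, hs.1⟩⟩
      rcases kind u with hu | hu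
      · rcases kind v with hv | hv
        · rw [hu, hv] at hc; exact absurd rfl hc
        · rw [h1, h2, L1 u hu, L2 v hv]; omega
      · rcases kind v with hv | hv
        · rw [h1, h2, L2 u hu, L1 v hv]; omega
        · rw [hu, hv] at hc; exact absurd rfl hc
    · have p1 := PX j
      have p2 := PX k
      have hjk : c' (Sum.inr j) ≠ c' (Sum.inr k) := by
        rw [C2, C2]
        intro hh
        rw [decide_eq_decide] at hh
        omega
      have hsum : l' (Sum.inr j) + l' (Sum.inr k) = LP j.val + LP (j.val + 1) := by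
        rw [L3, L3, h1]
      refine ⟨?_, Or.inr (Or.inl ⟨j, k, h1, h2, ?_, ?_⟩)⟩
      · rcases h2 with ⟨r1, r2⟩ | ⟨r1, r2⟩
        · rw [r1, r2]; exact hjk
        · rw [r1, r2]; exact hjk.symm
      · rcases h2 with ⟨r1, r2⟩ | ⟨r1, r2⟩
        · rw [r1, r2]; exact hsum
        · rw [r1, r2, add_comm]; exact hsum
      · rw [← h1] at p2
        rcases Nat.mod_two_eq_zero_or_one j.val with hp | hp
        · have q1 := p1.2.2 hp
          have q2 := p2.2.1 (by omega)
          omega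
        · have q1 := p1.2.1 hp
          have q2 := p2.2.2 (by omega)
          omega
    · have h0 : LP (0 : Fin (n + 1)).val = s := PP.start
      have hcc : c' (Sum.inl e) ≠ c' (Sum.inr 0) := by
        rw [C1, C2, he]; simp
      have hss : l' (Sum.inl e) + l' (Sum.inr 0) = n + 2 := by
        rw [L1 e he, L3, h0]; omega
      refine ⟨?_, Or.inr (Or.inr ⟨h1, ?_⟩)⟩
      · rcases h1 with ⟨r1, r2⟩ | ⟨r1, r2⟩
        · rw [r1, r2]; exact hcc
        · rw [r1, r2]; exact hcc.symm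
      · rcases h1 with ⟨r1, r2⟩ | ⟨r1, r2⟩
        · rw [r1, r2]; exact hss
        · rw [r1, r2, add_comm]; exact hss
  have inj1 : ∀ x y, c' x = true → c' y = true → l' x = l' y → x = y := by
    rintro (u | j) (v | k) hx hy hxy
    · rw [C1] at hx hy
      rw [L1 u hx, L1 v hy] at hxy
      rw [B.inj u v (by rw [hx, hy]) (by omega)]
    · exfalso
      rw [C1] at hx
      rw [C2] at hy
      rw [L1 u hx, L3] at hxy
      have g1 := (PX k).2.1 (by simpa using hy)
      have g2 := B.pos u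
      omega
    · exfalso
      rw [C1] at hy
      rw [C2] at hx
      rw [L1 v hy, L3] at hxy
      have g1 := (PX j).2.1 (by simpa using hx)
      have g2 := B.pos v
      omega
    · rw [C2] at hx hy
      rw [L3, L3] at hxy
      have g1 : j.val % 2 = 1 := by simpa using hx
      have g2 : k.val % 2 = 1 := by simpa using hy
      rw [Fin.ext (PP.inj j.val j.isLt k.val k.isLt (by omega) hxy)]
  have inj2 : ∀ x y, c' x = false → c' y = false → l' x = l' y → x = y := by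
    rintro (u | j) (v | k) hx hy hxy
    · rw [C1] at hx hy
      rw [L2 u hx, L2 v hy] at hxy
      rw [B.inj u v (by rw [hx, hy]) (by omega)]
    · exfalso
      rw [C1] at hx
      rw [C2] at hy
      rw [L2 u hx, L3] at hxy
      have g0 : ¬ (k.val % 2 = 1) := by simpa using hy
      have g1 := (PX k).2.2 (by omega)
      have g2 := B.pos u
      omega
    · exfalso
      rw [C1] at hy
      rw [C2] at hx
      rw [L2 v hy, L3] at hxy
      have g0 : ¬ (j.val % 2 = 1) := by simpa using hx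
      have g1 := (PX j).2.2 (by omega)
      have g2 := B.pos v
      omega
    · rw [C2] at hx hy
      rw [L3, L3] at hxy
      have g1 : ¬ (j.val % 2 = 1) := by simpa using hx
      have g2 : ¬ (k.val % 2 = 1) := by simpa using hy
      rw [Fin.ext (PP.inj j.val j.isLt k.val k.isLt (by omega) hxy)]
  have hlin : ∀ u, 2 * l' (Sum.inl u) +
      (if c' (Sum.inl u) = c' (Sum.inr (Fin.last n)) then 0 else 1) =
      2 * l u + (n + 1) + (if c u = c e then 0 else 1) := by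
    intro u
    have hlc : c' (Sum.inr (Fin.last n)) = decide (n % 2 = 1) := C2 _
    rw [C1, hlc, he]
    rcases kind u with hu | hu
    · rw [L1 u hu]
      rcases Nat.mod_two_eq_zero_or_one n with h0 | h0
      · simp [hu, h0]; omega
      · simp [hu, h0]; omega
    · rw [L2 u hu]
      rcases Nat.mod_two_eq_zero_or_one n with h0 | h0
      · simp [hu, h0]; omega
      · simp [hu, h0]; omega
  refine ⟨c', l', a + (n + 1) / 2, b + (n + 2) / 2, ⟨?_, ?_, ?_, ?_, ?_, ?_, ?_⟩, C1, ?_, ?_, ?_,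
    ?_, ?_, hlin⟩
  · have := B.card
    rw [Fintype.card_sum, Fintype.card_fin]
    omega
  · rintro (u | j)
    · have := B.pos u
      rcases kind u with hu | hu
      · rw [L1 u hu]; omega
      · rw [L2 u hu]; omega
    · rw [L3]; exact (PX j).1
  · rintro (u | j) hx
    · rw [C1] at hx
      have := B.le1 u hx
      rw [L1 u hx]; omega
    · rw [C2] at hx
      have := (PX j).2.1 (by simpa using hx)
      rw [L3]; omega
  · rintro (u | j) hx
    · rw [C1] at hx
      have := B.le2 u hx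
      rw [L2 u hx]; omega
    · rw [C2] at hx
      have g0 : ¬ (j.val % 2 = 1) := by simpa using hx
      have := (PX j).2.2 (by omega)
      rw [L3]; omega
  · intro x y hxy h
    cases hx : c' x
    · exact inj2 x y hx (by rw [← hxy]; exact hx) h
    · exact inj1 x y hx (by rw [← hxy]; exact hx) h
  · intro x y h
    exact (E x y h).1
  · intro x y x' y' h h' hx hx' hsum
    obtain ⟨d1, f1⟩ := E x y h
    obtain ⟨d2, f2⟩ := E x' y' h'
    rcases f1 with ⟨u, v, e1, e2, e3, e4, e5⟩ | ⟨j, k, e1, e2, e3, e4⟩ | ⟨e1, e2⟩ <;>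
    rcases f2 with ⟨u', v', g1, g2, g3, g4, g5⟩ | ⟨j', k', g1, g2, g3, g4⟩ | ⟨g1, g2⟩
    · rw [e1, C1] at hx
      rw [g1, C1] at hx'
      obtain ⟨r1, r2⟩ := B.sum u v u' v' e3 g3 hx hx' (by omega)
      rw [e1, e2, g1, g2, r1, r2]; exact ⟨rfl, rfl⟩
    · exfalso; omega
    · exfalso; omega
    · exfalso; omega
    · have hk := k.isLt
      have hk' := k'.isLt
      have hjj : j.val = j'.val := PP.sinj j.val (by omega) j'.val (by omega) (by omega)
      have hkk : k.val = k'.val := by omega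
      have hj1 : j = j' := Fin.ext hjj
      have hk1 : k = k' := Fin.ext hkk
      subst hj1
      subst hk1
      rcases e2 with ⟨r1, r2⟩ | ⟨r1, r2⟩ <;> rcases g2 with ⟨s1, s2⟩ | ⟨s1, s2⟩
      · rw [r1, r2, s1, s2]; exact ⟨rfl, rfl⟩
      · exfalso
        rw [s1, ← r2] at hx'
        exact d1 (by rw [hx, hx'])
      · exfalso
        rw [s1, ← r2] at hx'
        exact d1 (by rw [hx, hx'])
      · rw [r1, r2, s1, s2]; exact ⟨rfl, rfl⟩
    · exfalso; omega
    · exfalso; omega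
    · exfalso; omega
    · rcases e1 with ⟨r1, r2⟩ | ⟨r1, r2⟩ <;> rcases g1 with ⟨s1, s2⟩ | ⟨s1, s2⟩
      · rw [r1, r2, s1, s2]; exact ⟨rfl, rfl⟩
      · exfalso
        rw [s1, ← r2] at hx'
        exact d1 (by rw [hx, hx'])
      · exfalso
        rw [s1, ← r2] at hx'
        exact d1 (by rw [hx, hx'])
      · rw [r1, r2, s1, s2]; exact ⟨rfl, rfl⟩
  · intro u
    rcases kind u with hu | hu
    · rw [L1 u hu]; omega
    · rw [L2 u hu]; omega
  · intro j
    have := PX j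
    rw [L3]
    rcases Nat.mod_two_eq_zero_or_one j.val with hp | hp
    · have q1 := this.2.2 hp
      omega
    · have q1 := this.2.1 hp
      omega
  · rw [L3]
    have h1 : (Fin.last n).val = n := rfl
    rw [h1]
    have h2 : n + 1 - 1 = n := rfl
    rw [h2] at hlast
    omega
  · intro hp
    refine ⟨?_, rfl, by omega⟩
    rw [C2, he]
    simp [hp]
  · intro hab hlt x y h
    rcases (E x y h).2 with ⟨u, v, e1, e2, e3, e4, e5⟩ | ⟨j, k, e1, e2, e3, e4⟩ | ⟨e1, e2⟩
    · have := hlt u v e3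
      omega
    · omega
    · omega

lemma extend2 {U : Type} [Fintype U] {G : SimpleGraph U} {c : U → Bool} {l : U → ℕ} {a b : ℕ}
    (B : Blk G c l a b) (e : U) (n : ℕ) (hn : 2 * l e ≤ n + 1)
    (hn2 : n % 2 = 1 ∨ 4 * l e ≤ n) : Extended2 G c l a b e n := by
  cases he : c e
  · obtain ⟨c', l', a', b', k1, k2, k3, k4, k5, k6, k7, k8⟩ :=
      extend1b B.swap e (by simp [he]) n hn hn2
    refine ⟨fun x => !c' x, l', b', a', k1.swap, ?_, k3, k4, k5, ?_, ?_, ?_⟩
    · intro u; simp [k2]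
    · intro hp
      obtain ⟨m1, m2, m3⟩ := k6 hp
      refine ⟨?_, m3, m2⟩
      show (!c' (Sum.inr (Fin.last n))) = c e
      rw [m1]; simp
    · intro hab hlt x y h
      rw [add_comm b' a']
      exact k7 (by omega) (fun x y h => by rw [add_comm b a]; exact hlt x y h) x y h
    · intro u
      have := k8 u
      simpa using this
  · exact extend1b B e he n hn hn2

/-- The statement of the leaf lemma. -/
def Leafed2 {U : Type} [Fintype U] (G : SimpleGraph U) (c : U → Bool) (l : U → ℕ) (a b : ℕ)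
    (y t : U) (n : ℕ) : Prop :=
  ∃ (c' : (U ⊕ Unit) ⊕ Fin (n + 1) → Bool) (l' : (U ⊕ Unit) ⊕ Fin (n + 1) → ℕ) (a' b' : ℕ),
    Blk (attach (addLeaf G y) (Sum.inl t) n) c' l' a' b' ∧
    ((∀ x z, G.Adj x z → l x + l z < a + b) →
      ∀ x z, (attach (addLeaf G y) (Sum.inl t) n).Adj x z → l' x + l' z < a' + b') ∧
    (∀ u, l u ≤ l' (Sum.inl (Sum.inl u))) ∧ 2 ≤ l' (Sum.inl (Sum.inr ())) ∧
    l' (Sum.inr (Fin.last n)) = 2 * (l y - 1) + l t + (if c y = c t then 0 else 1) ∧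
    (∀ u, 2 * l' (Sum.inl (Sum.inl u)) +
      (if c' (Sum.inl (Sum.inl u)) = c' (Sum.inr (Fin.last n)) then 0 else 1) = 2 * l u + n +
        (if c u = c t then (if c y = c t then 1 else 3) else (if c y = c t then 4 else 2))) ∧
    2 * l' (Sum.inl (Sum.inr ())) +
      (if c' (Sum.inl (Sum.inr ())) = c' (Sum.inr (Fin.last n)) then 0 else 1) +
        2 * (l y - 1) = n + (if c y = c t then 4 else 3)

lemma leaf1b {U : Type} [Fintype U] {G : SimpleGraph U} {c : U → Bool} {l : U → ℕ} {a b : ℕ}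
    (B : Blk G c l a b)
    (y t : U) (ht : c t = true) (hy : 2 ≤ l y) (n : ℕ) (hn : 20 * (a + b) ≤ n) :
    Leafed2 G c l a b y t n := by
  have lt1 := B.pos t
  have lt2 := B.le1 t ht
  have ly2 : l y ≤ a + b := by
    cases hc : c y
    · have := B.le2 y hc; omega
    · have := B.le1 y hc; omega
  obtain ⟨q, hq⟩ : ∃ q, q = l y - 1 := ⟨_, rfl⟩
  obtain ⟨p, hp⟩ : ∃ p, p = q + l t := ⟨_, rfl⟩
  obtain ⟨n3, hn3⟩ : ∃ n3, n3 = n + 1 - 2 * p - 2 * q := ⟨_, rfl⟩
  obtain ⟨g, hg⟩ : ∃ g, g = n3 / 2 := ⟨_, rfl⟩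
  obtain ⟨h, hh⟩ : ∃ h, h = (n3 + 1) / 2 := ⟨_, rfl⟩
  have hgh : g + h = n3 := by omega
  obtain ⟨d, hd⟩ : ∃ d, (c y = true ∧ d = 1) ∨ (c y = false ∧ d = 0) := by
    cases hc : c y
    · exact ⟨0, Or.inr ⟨rfl, rfl⟩⟩
    · exact ⟨1, Or.inl ⟨rfl, rfl⟩⟩
  have hd1 : d ≤ 1 := by rcases hd with ⟨_, h1⟩ | ⟨_, h1⟩ <;> omega
  obtain ⟨s3, hs3⟩ : ∃ s3, s3 + (2 * q + l t) = h + d := ⟨h + d - (2 * q + l t), by omega⟩
  obtain ⟨L3, P3⟩ := PL.exists n3 s3 (by omega) (by omega) (by omega)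
  have hn4 : n + 1 = n3 + 2 * p + 2 * q := by omega
  have hq1 : 1 ≤ q := by omega
  have hp1 : 2 ≤ p := by omega
  have hstart := P3.start
  obtain ⟨Λ, hΛ⟩ : ∃ Λ : ℕ → ℕ, Λ = fun j =>
      if j < 2 * p then (if j % 2 = 0 then h + (j / 2 + 1) else g + (j / 2 + 1))
      else if j < 2 * p + 2 * q then
        (if j % 2 = 0 then h + p + d + ((j - 2 * p) / 2 + 1)
          else g + p + (1 - d) + ((j - 2 * p) / 2 + 1))
      else L3 (j - 2 * p - 2 * q) := ⟨_, rfl⟩
  have ΛX : ∀ j, j ≤ n → j % 2 = 1 →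
      (j < 2 * p ∧ Λ j = g + (j / 2 + 1)) ∨
      (2 * p ≤ j ∧ j < 2 * p + 2 * q ∧ Λ j = g + p + (1 - d) + ((j - 2 * p) / 2 + 1)) ∨
      (2 * p + 2 * q ≤ j ∧ Λ j = L3 (j - 2 * p - 2 * q) ∧ 1 ≤ L3 (j - 2 * p - 2 * q) ∧
        L3 (j - 2 * p - 2 * q) ≤ g) := by
    intro j hj hj2
    rw [hΛ]
    simp only
    by_cases h1 : j < 2 * p
    · left
      rw [if_pos h1, if_neg (by omega)]
      exact ⟨h1, rfl⟩
    · by_cases h2 : j < 2 * p + 2 * q
      · right; left
        rw [if_neg h1, if_pos h2, if_neg (by omega)]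
        exact ⟨by omega, h2, rfl⟩
      · right; right
        rw [if_neg h1, if_neg h2]
        have r1 := P3.pos (j - 2 * p - 2 * q) (by omega)
        have r2 := P3.od (j - 2 * p - 2 * q) (by omega) (by omega)
        exact ⟨by omega, rfl, r1, by omega⟩
  have ΛY : ∀ j, j ≤ n → j % 2 = 0 →
      (j < 2 * p ∧ Λ j = h + (j / 2 + 1)) ∨
      (2 * p ≤ j ∧ j < 2 * p + 2 * q ∧ Λ j = h + p + d + ((j - 2 * p) / 2 + 1)) ∨
      (2 * p + 2 * q ≤ j ∧ Λ j = L3 (j - 2 * p - 2 * q) ∧ 1 ≤ L3 (j - 2 * p - 2 * q) ∧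
        L3 (j - 2 * p - 2 * q) ≤ h) := by
    intro j hj hj2
    rw [hΛ]
    simp only
    by_cases h1 : j < 2 * p
    · left
      rw [if_pos h1, if_pos hj2]
      exact ⟨h1, rfl⟩
    · by_cases h2 : j < 2 * p + 2 * q
      · right; left
        rw [if_neg h1, if_pos h2, if_pos hj2]
        exact ⟨by omega, h2, rfl⟩
      · right; right
        rw [if_neg h1, if_neg h2]
        have r1 := P3.pos (j - 2 * p - 2 * q) (by omega)
        have r2 := P3.ev (j - 2 * p - 2 * q) (by omega) (by omega)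
        exact ⟨by omega, rfl, r1, by omega⟩
  -- sums of consecutive path labels
  have Λs : ∀ j, j + 1 ≤ n →
      (j + 1 < 2 * p ∧ Λ j + Λ (j + 1) = n3 + j + 2) ∨
      (j + 1 = 2 * p ∧ Λ j + Λ (j + 1) = n3 + 2 * p + d + 1) ∨
      (2 * p ≤ j ∧ j + 1 < 2 * p + 2 * q ∧ Λ j + Λ (j + 1) = n3 + j + 3) ∨
      (j + 1 = 2 * p + 2 * q ∧ Λ j + Λ (j + 1) = n3 + 1) ∨
      (2 * p + 2 * q ≤ j ∧ j - 2 * p - 2 * q + 1 < n3 ∧ Λ j + Λ (j + 1) =
        L3 (j - 2 * p - 2 * q) + L3 (j - 2 * p - 2 * q + 1) ∧ 2 ≤ Λ j + Λ (j + 1) ∧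
        Λ j + Λ (j + 1) ≤ n3) := by
    intro j hj
    rcases Nat.mod_two_eq_zero_or_one j with hj2 | hj2
    · have r1 := ΛY j (by omega) hj2
      have r2 := ΛX (j + 1) hj (by omega)
      rcases r1 with ⟨r3, r4⟩ | ⟨r3, r4, r5⟩ | ⟨r3, r4, r5, r6⟩ <;>
      rcases r2 with ⟨u3, u4⟩ | ⟨u3, u4, u5⟩ | ⟨u3, u4, u5, u6⟩
      · left; omega
      · omega
      · omega
      · omega
      · right; right; left; omega
      · omega
      · omega
      · omega
      · right; right; right; right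
        rw [show j + 1 - 2 * p - 2 * q = j - 2 * p - 2 * q + 1 by omega] at u4 u5 u6
        omega
    · have r1 := ΛX j (by omega) hj2
      have r2 := ΛY (j + 1) hj (by omega)
      rcases r1 with ⟨r3, r4⟩ | ⟨r3, r4, r5⟩ | ⟨r3, r4, r5, r6⟩ <;>
      rcases r2 with ⟨u3, u4⟩ | ⟨u3, u4, u5⟩ | ⟨u3, u4, u5, u6⟩
      · left; omega
      · right; left; omega
      · omega
      · omega
      · right; right; left; omega
      · right; right; right; left
        rw [show j + 1 - 2 * p - 2 * q = 0 by omega, hstart] at u4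
        omega
      · omega
      · omega
      · right; right; right; right
        rw [show j + 1 - 2 * p - 2 * q = j - 2 * p - 2 * q + 1 by omega] at u4 u5 u6
        omega
  have Λinj : ∀ j k, j ≤ n → k ≤ n → j % 2 = k % 2 → Λ j = Λ k → j = k := by
    intro j k hj hk hjk hjk2
    rcases Nat.mod_two_eq_zero_or_one j with hj2 | hj2
    · have r1 := ΛY j hj hj2
      have r2 := ΛY k hk (by omega)
      rcases r1 with ⟨r3, r4⟩ | ⟨r3, r4, r5⟩ | ⟨r3, r4, r5, r6⟩ <;>
      rcases r2 with ⟨u3, u4⟩ | ⟨u3, u4, u5⟩ | ⟨u3, u4, u5, u6⟩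
      · omega
      · omega
      · omega
      · omega
      · omega
      · omega
      · omega
      · omega
      · have := P3.inj (j - 2 * p - 2 * q) (by omega) (k - 2 * p - 2 * q) (by omega) (by omega)
          (by omega)
        omega
    · have r1 := ΛX j hj hj2
      have r2 := ΛX k hk (by omega)
      rcases r1 with ⟨r3, r4⟩ | ⟨r3, r4, r5⟩ | ⟨r3, r4, r5, r6⟩ <;>
      rcases r2 with ⟨u3, u4⟩ | ⟨u3, u4, u5⟩ | ⟨u3, u4, u5, u6⟩
      · omega
      · omega
      · omega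
      · omega
      · omega
      · omega
      · omega
      · omega
      · have := P3.inj (j - 2 * p - 2 * q) (by omega) (k - 2 * p - 2 * q) (by omega) (by omega)
          (by omega)
        omega
  obtain ⟨OX, hOX⟩ : ∃ OX, OX = g + p + (1 - d) + q := ⟨_, rfl⟩
  obtain ⟨OY, hOY⟩ : ∃ OY, OY = h + p + d + q := ⟨_, rfl⟩
  have hO : OX + OY = n + 2 := by omega
  obtain ⟨c', hc'⟩ : ∃ c' : (U ⊕ Unit) ⊕ Fin (n + 1) → Bool, c' =
    Sum.elim (Sum.elim c (fun _ => !(c y))) (fun j : Fin (n + 1) => decide (j.val % 2 = 1)) :=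
      ⟨_, rfl⟩
  obtain ⟨l', hl'⟩ : ∃ l' : (U ⊕ Unit) ⊕ Fin (n + 1) → ℕ, l' =
    Sum.elim (Sum.elim (fun u => if c u = true then OX + l u else OY + l u)
      (fun _ => if c y = true then h + p + 1 else g + p + 1))
      (fun j : Fin (n + 1) => Λ j.val) := ⟨_, rfl⟩
  have C1 : ∀ u, c' (Sum.inl (Sum.inl u)) = c u := by intro u; rw [hc']; rfl
  have C2 : ∀ j : Fin (n + 1), c' (Sum.inr j) = decide (j.val % 2 = 1) := by
    intro j; rw [hc']; rfl
  have C3 : c' (Sum.inl (Sum.inr ())) = !(c y) := by rw [hc']; rfl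
  have L1 : ∀ u, c u = true → l' (Sum.inl (Sum.inl u)) = OX + l u := by
    intro u hu; rw [hl', Sum.elim_inl, Sum.elim_inl, if_pos hu]
  have L2 : ∀ u, c u = false → l' (Sum.inl (Sum.inl u)) = OY + l u := by
    intro u hu; rw [hl', Sum.elim_inl, Sum.elim_inl, if_neg (by simp [hu])]
  have L4 : ∀ j : Fin (n + 1), l' (Sum.inr j) = Λ j.val := by
    intro j; rw [hl']; rfl
  have L5 : (c y = true ∧ d = 1 ∧ l' (Sum.inl (Sum.inr ())) = h + p + 1) ∨
      (c y = false ∧ d = 0 ∧ l' (Sum.inl (Sum.inr ())) = g + p + 1) := by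
    rcases hd with ⟨h1, h2⟩ | ⟨h1, h2⟩
    · left; exact ⟨h1, h2, by rw [hl', Sum.elim_inl, Sum.elim_inr, if_pos h1]⟩
    · right; exact ⟨h1, h2, by rw [hl', Sum.elim_inl, Sum.elim_inr, if_neg (by simp [h1])]⟩
  have kind : ∀ u, c u = true ∨ c u = false := by
    intro u; cases c u <;> simp
  have hle1 : ∀ u, c u = true → l u ≤ a := B.le1
  have hle2 : ∀ u, c u = false → l u ≤ b := B.le2
  have E : ∀ x z, (attach (addLeaf G y) (Sum.inl t) n).Adj x z → c' x ≠ c' z ∧
      ((∃ u v, x = Sum.inl (Sum.inl u) ∧ z = Sum.inl (Sum.inl v) ∧ G.Adj u v ∧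
          l' x + l' z = n + 2 + (l u + l v) ∧ 2 ≤ l u + l v) ∨
        (((x = Sum.inl (Sum.inl y) ∧ z = Sum.inl (Sum.inr ())) ∨
          (x = Sum.inl (Sum.inr ()) ∧ z = Sum.inl (Sum.inl y))) ∧ l' x + l' z = n + 3) ∨
        (((x = Sum.inl (Sum.inl t) ∧ z = Sum.inr 0) ∨
          (x = Sum.inr 0 ∧ z = Sum.inl (Sum.inl t))) ∧ l' x + l' z + d = n3 + 2 * p + 2) ∨
        (∃ j k : Fin (n + 1), j.val + 1 = k.val ∧
          ((x = Sum.inr j ∧ z = Sum.inr k) ∨ (x = Sum.inr k ∧ z = Sum.inr j)) ∧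
          l' x + l' z = Λ j.val + Λ (j.val + 1))) := by
    intro x z hxz
    rcases attach_adj (addLeaf G y) (Sum.inl t) n x z hxz with ⟨u, v, h1, h2, h3⟩ |
      ⟨j, k, h1, h2⟩ | h1
    · rcases leaf_adj G y u v h3 with ⟨u', v', e1, e2, e3⟩ | e1
      · have hc := B.col u' v' e3
        have hs := B.sum_le e3
        refine ⟨by rw [h1, h2, e1, e2, C1, C1]; exact hc,
          Or.inl ⟨u', v', by rw [h1, e1], by rw [h2, e2], e3, ?_, hs.1⟩⟩
        rcases kind u' with hu | hu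
        · rcases kind v' with hv | hv
          · rw [hu, hv] at hc; exact absurd rfl hc
          · rw [h1, h2, e1, e2, L1 u' hu, L2 v' hv]; omega
        · rcases kind v' with hv | hv
          · rw [h1, h2, e1, e2, L2 u' hu, L1 v' hv]; omega
          · rw [hu, hv] at hc; exact absurd rfl hc
      · have hcc : c' (Sum.inl (Sum.inl y)) ≠ c' (Sum.inl (Sum.inr ())) := by
          rw [C1, C3]; cases c y <;> simp
        have hss : l' (Sum.inl (Sum.inl y)) + l' (Sum.inl (Sum.inr ())) = n + 3 := by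
          rcases L5 with ⟨m1, m2, m3⟩ | ⟨m1, m2, m3⟩
          · rw [L1 y m1, m3]; omega
          · rw [L2 y m1, m3]; omega
        refine ⟨?_, Or.inr (Or.inl ⟨?_, ?_⟩)⟩
        · rcases e1 with ⟨r1, r2⟩ | ⟨r1, r2⟩
          · rw [h1, h2, r1, r2]; exact hcc
          · rw [h1, h2, r1, r2]; exact hcc.symm
        · rcases e1 with ⟨r1, r2⟩ | ⟨r1, r2⟩
          · left; rw [h1, h2, r1, r2]; exact ⟨rfl, rfl⟩
          · right; rw [h1, h2, r1, r2]; exact ⟨rfl, rfl⟩
        · rcases e1 with ⟨r1, r2⟩ | ⟨r1, r2⟩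
          · rw [h1, h2, r1, r2]; exact hss
          · rw [h1, h2, r1, r2, add_comm]; exact hss
    · have hjk : c' (Sum.inr j) ≠ c' (Sum.inr k) := by
        rw [C2, C2]
        intro hh
        rw [decide_eq_decide] at hh
        omega
      have hsum : l' (Sum.inr j) + l' (Sum.inr k) = Λ j.val + Λ (j.val + 1) := by
        rw [L4, L4, h1]
      refine ⟨?_, Or.inr (Or.inr (Or.inr ⟨j, k, h1, h2, ?_⟩))⟩
      · rcases h2 with ⟨r1, r2⟩ | ⟨r1, r2⟩
        · rw [r1, r2]; exact hjk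
        · rw [r1, r2]; exact hjk.symm
      · rcases h2 with ⟨r1, r2⟩ | ⟨r1, r2⟩
        · rw [r1, r2]; exact hsum
        · rw [r1, r2, add_comm]; exact hsum
    · have h0 : (0 : Fin (n + 1)).val = 0 := rfl
      have hcc : c' (Sum.inl (Sum.inl t)) ≠ c' (Sum.inr 0) := by
        rw [C1, C2, ht]; simp
      have hss : l' (Sum.inl (Sum.inl t)) + l' (Sum.inr 0) + d = n3 + 2 * p + 2 := by
        rw [L1 t ht, L4, h0]
        rcases ΛY 0 (by omega) rfl with ⟨r3, r4⟩ | ⟨r3, r4, r5⟩ | ⟨r3, r4, r5, r6⟩ <;> omega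
      refine ⟨?_, Or.inr (Or.inr (Or.inl ⟨h1, ?_⟩))⟩
      · rcases h1 with ⟨r1, r2⟩ | ⟨r1, r2⟩
        · rw [r1, r2]; exact hcc
        · rw [r1, r2]; exact hcc.symm
      · rcases h1 with ⟨r1, r2⟩ | ⟨r1, r2⟩
        · rw [r1, r2]; exact hss
        · rw [r1, r2, add_comm (l' (Sum.inr 0))]; exact hss
  -- labels in the two classes
  have KX : ∀ z, c' z = true → (∃ u, z = Sum.inl (Sum.inl u) ∧ c u = true ∧ l' z = OX + l u ∧
        1 ≤ l u ∧ l u ≤ a) ∨ (z = Sum.inl (Sum.inr ()) ∧ d = 0 ∧ l' z = g + p + 1) ∨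
      (∃ j : Fin (n + 1), z = Sum.inr j ∧ j.val % 2 = 1 ∧ l' z = Λ j.val ∧ 1 ≤ Λ j.val ∧
        Λ j.val ≤ OX ∧ (d = 0 → Λ j.val ≠ g + p + 1)) := by
    rintro ((u | u) | j) hz
    · rw [C1] at hz
      left; exact ⟨u, rfl, hz, L1 u hz, B.pos u, B.le1 u hz⟩
    · right; left
      rcases L5 with ⟨m1, m2, m3⟩ | ⟨m1, m2, m3⟩
      · rw [C3, m1] at hz; exact absurd hz (by decide)
      · exact ⟨rfl, m2, m3⟩
    · right; right
      rw [C2] at hz
      have h1 : j.val % 2 = 1 := by simpa using hz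
      refine ⟨j, rfl, h1, L4 j, ?_⟩
      have hj := j.isLt
      rcases ΛX j.val (by omega) h1 with ⟨r3, r4⟩ | ⟨r3, r4, r5⟩ | ⟨r3, r4, r5, r6⟩
      · refine ⟨by omega, by omega, by omega⟩
      · refine ⟨by omega, by omega, by omega⟩
      · refine ⟨by omega, by omega, by omega⟩
  have KY : ∀ z, c' z = false → (∃ u, z = Sum.inl (Sum.inl u) ∧ c u = false ∧ l' z = OY + l u ∧
        1 ≤ l u ∧ l u ≤ b) ∨ (z = Sum.inl (Sum.inr ()) ∧ d = 1 ∧ l' z = h + p + 1) ∨
      (∃ j : Fin (n + 1), z = Sum.inr j ∧ j.val % 2 = 0 ∧ l' z = Λ j.val ∧ 1 ≤ Λ j.val ∧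
        Λ j.val ≤ OY ∧ (d = 1 → Λ j.val ≠ h + p + 1)) := by
    rintro ((u | u) | j) hz
    · rw [C1] at hz
      left; exact ⟨u, rfl, hz, L2 u hz, B.pos u, B.le2 u hz⟩
    · right; left
      rcases L5 with ⟨m1, m2, m3⟩ | ⟨m1, m2, m3⟩
      · exact ⟨rfl, m2, m3⟩
      · rw [C3, m1] at hz; exact absurd hz (by decide)
    · right; right
      rw [C2] at hz
      have h0 : ¬ (j.val % 2 = 1) := by simpa using hz
      have h1 : j.val % 2 = 0 := by omega
      refine ⟨j, rfl, h1, L4 j, ?_⟩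
      have hj := j.isLt
      rcases ΛY j.val (by omega) h1 with ⟨r3, r4⟩ | ⟨r3, r4, r5⟩ | ⟨r3, r4, r5, r6⟩
      · refine ⟨by omega, by omega, by omega⟩
      · refine ⟨by omega, by omega, by omega⟩
      · refine ⟨by omega, by omega, by omega⟩
  have inj1 : ∀ x z, c' x = true → c' z = true → l' x = l' z → x = z := by
    intro x z hx hz hxz
    rcases KX x hx with ⟨u, e1, e2, e3, e4, e5⟩ | ⟨e1, e2, e3⟩ | ⟨j, e1, e2, e3, e4, e5, e6⟩ <;>
    rcases KX z hz with ⟨u', f1, f2, f3, f4, f5⟩ | ⟨f1, f2, f3⟩ | ⟨j', f1, f2, f3, f4, f5, f6⟩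
    · rw [e1, f1, B.inj u u' (by rw [e2, f2]) (by omega)]
    · exfalso; omega
    · exfalso; omega
    · exfalso; omega
    · rw [e1, f1]
    · exfalso
      have := f6 e2
      omega
    · exfalso; omega
    · exfalso
      have := e6 f2
      omega
    · have hj := j.isLt
      have hj' := j'.isLt
      rw [e1, f1, Fin.ext (Λinj j.val j'.val (by omega) (by omega) (by omega) (by omega))]
  have inj2 : ∀ x z, c' x = false → c' z = false → l' x = l' z → x = z := by
    intro x z hx hz hxz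
    rcases KY x hx with ⟨u, e1, e2, e3, e4, e5⟩ | ⟨e1, e2, e3⟩ | ⟨j, e1, e2, e3, e4, e5, e6⟩ <;>
    rcases KY z hz with ⟨u', f1, f2, f3, f4, f5⟩ | ⟨f1, f2, f3⟩ | ⟨j', f1, f2, f3, f4, f5, f6⟩
    · rw [e1, f1, B.inj u u' (by rw [e2, f2]) (by omega)]
    · exfalso; omega
    · exfalso; omega
    · exfalso; omega
    · rw [e1, f1]
    · exfalso
      have := f6 e2
      omega
    · exfalso; omega
    · exfalso
      have := e6 f2
      omega
    · have hj := j.isLt
      have hj' := j'.isLt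
      rw [e1, f1, Fin.ext (Λinj j.val j'.val (by omega) (by omega) (by omega) (by omega))]
  have two : ∀ {α : Type} (w1 w2 x z x' z' : α) (C : α → Bool), C x ≠ C z → C x = true →
      C x' = true → ((x = w1 ∧ z = w2) ∨ (x = w2 ∧ z = w1)) →
      ((x' = w1 ∧ z' = w2) ∨ (x' = w2 ∧ z' = w1)) → x = x' ∧ z = z' := by
    intro α w1 w2 x z x' z' C h1 h2 h3 h4 h5
    rcases h4 with ⟨r1, r2⟩ | ⟨r1, r2⟩ <;> rcases h5 with ⟨s1, s2⟩ | ⟨s1, s2⟩
    · rw [r1, r2, s1, s2]; exact ⟨rfl, rfl⟩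
    · exfalso
      rw [s1, ← r2] at h3
      exact h1 (by rw [h2, h3])
    · exfalso
      rw [s1, ← r2] at h3
      exact h1 (by rw [h2, h3])
    · rw [r1, r2, s1, s2]; exact ⟨rfl, rfl⟩
  have hend : l' (Sum.inr (Fin.last n)) =
      2 * (l y - 1) + l t + (if c y = c t then 0 else 1) := by
    have h1 : (Fin.last n).val = n := rfl
    have hlast := P3.last
    rw [L4, h1, ht]
    have h2 : Λ n = L3 (n3 - 1) := by
      rw [hΛ]
      simp only
      rw [if_neg (by omega), if_neg (by omega)]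
      congr 1
      omega
    rw [h2]
    rcases hd with ⟨m1, m2⟩ | ⟨m1, m2⟩
    · rw [if_pos m1]; omega
    · rw [if_neg (by simp [m1])]; omega
  have hlc : c' (Sum.inr (Fin.last n)) = decide (n % 2 = 1) := C2 _
  have hlin1 : ∀ u, 2 * l' (Sum.inl (Sum.inl u)) +
      (if c' (Sum.inl (Sum.inl u)) = c' (Sum.inr (Fin.last n)) then 0 else 1) = 2 * l u + n +
        (if c u = c t then (if c y = c t then 1 else 3) else (if c y = c t then 4 else 2)) := by
    intro u
    rw [C1, hlc, ht]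
    clear E KX KY inj1 inj2 Λinj ΛX ΛY Λs L5 hend
    rcases kind u with hu | hu
    · rw [L1 u hu]
      rcases hd with ⟨m1, m2⟩ | ⟨m1, m2⟩ <;>
        rcases Nat.mod_two_eq_zero_or_one n with h0 | h0 <;> simp [hu, h0, m1] <;> omega
    · rw [L2 u hu]
      rcases hd with ⟨m1, m2⟩ | ⟨m1, m2⟩ <;>
        rcases Nat.mod_two_eq_zero_or_one n with h0 | h0 <;> simp [hu, h0, m1] <;> omega
  have hlin2 : 2 * l' (Sum.inl (Sum.inr ())) +
      (if c' (Sum.inl (Sum.inr ())) = c' (Sum.inr (Fin.last n)) then 0 else 1) +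
        2 * (l y - 1) = n + (if c y = c t then 4 else 3) := by
    rw [C3, hlc, ht]
    clear E KX KY inj1 inj2 Λinj ΛX ΛY Λs hend hlin1
    rcases L5 with ⟨m1, m2, m3⟩ | ⟨m1, m2, m3⟩ <;> rw [m3] <;>
      rcases Nat.mod_two_eq_zero_or_one n with h0 | h0 <;> simp [h0, m1] <;> omega
  refine ⟨c', l', OX + a, OY + b, ⟨?_, ?_, ?_, ?_, ?_, ?_, ?_⟩, ?_, ?_, ?_, hend, hlin1, hlin2⟩
  · have := B.card
    simp only [Fintype.card_sum, Fintype.card_fin, Fintype.card_unit]
    omega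
  · intro z
    cases hz : c' z
    · rcases KY z hz with ⟨u, e1, e2, e3, e4, e5⟩ | ⟨e1, e2, e3⟩ | ⟨j, e1, e2, e3, e4, e5, e6⟩ <;>
        omega
    · rcases KX z hz with ⟨u, e1, e2, e3, e4, e5⟩ | ⟨e1, e2, e3⟩ | ⟨j, e1, e2, e3, e4, e5, e6⟩ <;>
        omega
  · intro z hz
    rcases KX z hz with ⟨u, e1, e2, e3, e4, e5⟩ | ⟨e1, e2, e3⟩ | ⟨j, e1, e2, e3, e4, e5, e6⟩ <;>
      omega
  · intro z hz
    rcases KY z hz with ⟨u, e1, e2, e3, e4, e5⟩ | ⟨e1, e2, e3⟩ | ⟨j, e1, e2, e3, e4, e5, e6⟩ <;>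
      omega
  · intro x z hxz h1
    cases hx : c' x
    · exact inj2 x z hx (by rw [← hxz]; exact hx) h1
    · exact inj1 x z hx (by rw [← hxz]; exact hx) h1
  · intro x z h1
    exact (E x z h1).1
  · intro x z x' z' h1 h2 hx hx' hsum
    obtain ⟨d1, f1⟩ := E x z h1
    obtain ⟨d2, f2⟩ := E x' z' h2
    clear E KX KY inj1 inj2 Λinj ΛX ΛY L5 hOX hOY
    rcases f1 with ⟨u, v, e1, e2, e3, e4, e5⟩ | ⟨e1, e2⟩ | ⟨e1, e2⟩ | ⟨j, k, e1, e2, e3⟩ <;>
    rcases f2 with ⟨u', v', g1, g2, g3, g4, g5⟩ | ⟨g1, g2⟩ | ⟨g1, g2⟩ | ⟨j', k', g1, g2, g3⟩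
    · rw [e1, C1] at hx
      rw [g1, C1] at hx'
      obtain ⟨r1, r2⟩ := B.sum u v u' v' e3 g3 hx hx' (by omega)
      rw [e1, e2, g1, g2, r1, r2]; exact ⟨rfl, rfl⟩
    · exfalso; omega
    · exfalso; omega
    · exfalso
      have hk' := k'.isLt
      rcases Λs j'.val (by omega) with m1 | m1 | m1 | m1 | m1 <;> omega
    · exfalso; omega
    · exact two _ _ x z x' z' c' d1 hx hx' e1 g1
    · exfalso; omega
    · exfalso
      have hk' := k'.isLt
      rcases Λs j'.val (by omega) with m1 | m1 | m1 | m1 | m1 <;> omega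
    · exfalso; omega
    · exfalso; omega
    · exact two _ _ x z x' z' c' d1 hx hx' e1 g1
    · exfalso
      have hk' := k'.isLt
      rcases Λs j'.val (by omega) with m1 | m1 | m1 | m1 | m1 <;> omega
    · exfalso
      have hk' := k.isLt
      rcases Λs j.val (by omega) with m1 | m1 | m1 | m1 | m1 <;> omega
    · exfalso
      have hk' := k.isLt
      rcases Λs j.val (by omega) with m1 | m1 | m1 | m1 | m1 <;> omega
    · exfalso
      have hk' := k.isLt
      rcases Λs j.val (by omega) with m1 | m1 | m1 | m1 | m1 <;> omega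
    · have hk := k.isLt
      have hk' := k'.isLt
      have hjj : j.val = j'.val := by
        have hs : Λ j.val + Λ (j.val + 1) = Λ j'.val + Λ (j'.val + 1) := by omega
        rcases Λs j.val (by omega) with m1 | m1 | m1 | m1 | m1 <;>
        rcases Λs j'.val (by omega) with m2 | m2 | m2 | m2 | m2
        · omega
        · omega
        · omega
        · omega
        · omega
        · omega
        · omega
        · omega
        · omega
        · omega
        · omega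
        · omega
        · omega
        · omega
        · omega
        · omega
        · omega
        · omega
        · omega
        · omega
        · omega
        · omega
        · omega
        · omega
        · have := P3.sinj (j.val - 2 * p - 2 * q) m1.2.1 (j'.val - 2 * p - 2 * q) m2.2.1
            (by omega)
          omega
      have hj1 : j = j' := Fin.ext hjj
      have hk1 : k = k' := Fin.ext (by omega)
      subst hj1
      subst hk1
      exact two _ _ x z x' z' c' d1 hx hx' e2 g2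
  · intro hlt x z h1
    rcases (E x z h1).2 with ⟨u, v, e1, e2, e3, e4, e5⟩ | ⟨e1, e2⟩ | ⟨e1, e2⟩ |
      ⟨j, k, e1, e2, e3⟩
    · have := hlt u v e3
      omega
    · omega
    · omega
    · have hk := k.isLt
      rcases Λs j.val (by omega) with m1 | m1 | m1 | m1 | m1 <;> omega
  · intro u
    rcases kind u with hu | hu
    · rw [L1 u hu]; omega
    · rw [L2 u hu]; omega
  · rcases L5 with ⟨m1, m2, m3⟩ | ⟨m1, m2, m3⟩ <;> omega

lemma leafed2 {U : Type} [Fintype U] {G : SimpleGraph U} {c : U → Bool} {l : U → ℕ} {a b : ℕ}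
    (B : Blk G c l a b)
    (y t : U) (hy : 2 ≤ l y) (n : ℕ) (hn : 20 * (a + b) ≤ n) :
    Leafed2 G c l a b y t n := by
  cases ht : c t
  · obtain ⟨c', l', a', b', k1, k2, k3, k4, k5, k6, k7⟩ :=
      leaf1b B.swap y t (by simp [ht]) hy n (by omega)
    refine ⟨c', l', a', b', k1, ?_, k3, k4, ?_, ?_, ?_⟩
    · intro hlt
      exact k2 (fun x z h => by rw [add_comm b a]; exact hlt x z h)
    · rw [k5]
      simp [ht]
    · intro u
      rw [k6 u]
      simp [ht]
    · rw [k7]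
      simp [ht]
  · exact leaf1b B y t ht hy n hn

end SEMD
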