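import Mathlib
import Pool.Agent.SEMD.Refined

/-!
Arbitrary forests with two components and a long path; arbitrary trees and a long path.
-/

set_option autoImplicit false
set_option linter.unusedSectionVars false

namespace SEMD

/-- The statement of the induction. -/
def St (M n0 : ℕ) {V : Type} [Fintype V] (F : SimpleGraph V) : Prop :=
  ∀ t : V, ∃ w, M ≤ w ∧ ∀ n, n0 ≤ n →
    ∃ (c : V ⊕ Fin (n + 1) → Bool) (l : V ⊕ Fin (n + 1) → ℕ) (a b : ℕ),
      Blk (attach F t n) c l a b ∧ (∀ x z, (attach F t n).Adj x z → l x + l z < a + b) ∧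
      (∀ u, 2 ≤ l (Sum.inl u)) ∧ l (Sum.inr (Fin.last n)) = w

lemma St.transfer {M n0 : ℕ} {V V' : Type} [Fintype V] [Fintype V'] {F : SimpleGraph V}
    {F' : SimpleGraph V'} (h : St M n0 F) (e : V' → V) (he : Function.Injective e)
    (hc : Fintype.card V' = Fintype.card V) (hadj : ∀ x y, F'.Adj x y → F.Adj (e x) (e y)) :
    St M n0 F' := by
  intro t
  obtain ⟨w, hw, h1⟩ := h (e t)
  refine ⟨w, hw, fun n hn => ?_⟩
  obtain ⟨c, l, a, b, B, hlt, h2, h3⟩ := h1 n hn
  obtain ⟨E, hE⟩ : ∃ E : V' ⊕ Fin (n + 1) → V ⊕ Fin (n + 1), E = Sum.map e id := ⟨_, rfl⟩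
  have E1 : ∀ u, E (Sum.inl u) = Sum.inl (e u) := by intro u; rw [hE]; rfl
  have E2 : ∀ j, E (Sum.inr j) = Sum.inr j := by intro j; rw [hE]; rfl
  have hinj : Function.Injective E := by
    rintro (u | j) (v | k) huv
    · rw [E1, E1] at huv
      simp only [Sum.inl.injEq] at huv
      rw [he huv]
    · rw [E1, E2] at huv; simp at huv
    · rw [E1, E2] at huv; simp at huv
    · rw [E2, E2] at huv
      simp only [Sum.inr.injEq] at huv
      rw [huv]
  have hA : ∀ x y, (attach F' t n).Adj x y → (attach F (e t) n).Adj (E x) (E y) := by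
    intro x y hxy
    rcases attach_adj F' t n x y hxy with ⟨u, v, h1, h2, h3⟩ | ⟨j, k, h1, h2⟩ | h1
    · rw [h1, h2, E1, E1]; exact attach_inl (hadj u v h3)
    · rcases h2 with ⟨r1, r2⟩ | ⟨r1, r2⟩
      · rw [r1, r2, E2, E2]; exact attach_inr h1
      · rw [r1, r2, E2, E2]; exact (attach_inr h1).symm
    · rcases h1 with ⟨r1, r2⟩ | ⟨r1, r2⟩
      · rw [r1, r2, E1, E2]; exact attach_edge
      · rw [r1, r2, E1, E2]; exact attach_edge.symm
  refine ⟨_, _, a, b, B.transfer E hinj (by simp only [Fintype.card_sum, hc]) hA, ?_, ?_, ?_⟩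
  · intro x z hxz; exact hlt _ _ (hA x z hxz)
  · intro u
    show 2 ≤ l (E (Sum.inl u))
    rw [E1]; exact h2 _
  · show l (E (Sum.inr (Fin.last n))) = w
    rw [E2]; exact h3

lemma reindex1 {V : Type} {F : SimpleGraph V} (y t : V) (n0 n' n : ℕ) (hn : n = n0 + 1 + n') :
    ∃ e : (V ⊕ Unit) ⊕ Fin (n + 1) → ((V ⊕ Fin (n0 + 1)) ⊕ Unit) ⊕ Fin (n' + 1),
      Function.Injective e ∧ (∀ x z, (attach (addLeaf F y) (Sum.inl t) n).Adj x z →
        (attach (addLeaf (attach F t n0) (Sum.inl y)) (Sum.inl (Sum.inr (Fin.last n0))) n').Adj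
          (e x) (e z)) ∧ (∀ u, e (Sum.inl (Sum.inl u)) = Sum.inl (Sum.inl (Sum.inl u))) ∧
      e (Sum.inl (Sum.inr ())) = Sum.inl (Sum.inr ()) ∧
      e (Sum.inr (Fin.last n)) = Sum.inr (Fin.last n') := by
  obtain ⟨e, he⟩ : ∃ e : (V ⊕ Unit) ⊕ Fin (n + 1) → ((V ⊕ Fin (n0 + 1)) ⊕ Unit) ⊕ Fin (n' + 1),
    e = Sum.elim (Sum.elim (fun u => Sum.inl (Sum.inl (Sum.inl u))) (fun _ => Sum.inl (Sum.inr ())))
      (fun j : Fin (n + 1) => if h : j.val < n0 + 1 then Sum.inl (Sum.inl (Sum.inr ⟨j.val, h⟩))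
        else Sum.inr ⟨j.val - (n0 + 1), by have := j.isLt; omega⟩) := ⟨_, rfl⟩
  have e1 : ∀ a, e (Sum.inl (Sum.inl a)) = Sum.inl (Sum.inl (Sum.inl a)) := by
    intro a; rw [he]; rfl
  have e2 : e (Sum.inl (Sum.inr ())) = Sum.inl (Sum.inr ()) := by rw [he]; rfl
  have e3 : ∀ (j : Fin (n + 1)) (h : j.val < n0 + 1),
      e (Sum.inr j) = Sum.inl (Sum.inl (Sum.inr ⟨j.val, h⟩)) := by
    intro j h
    rw [he, Sum.elim_inr, dif_pos h]
  have e4 : ∀ (j : Fin (n + 1)) (_ : n0 + 1 ≤ j.val) (h' : j.val - (n0 + 1) < n' + 1),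
      e (Sum.inr j) = Sum.inr ⟨j.val - (n0 + 1), h'⟩ := by
    intro j h h'
    rw [he, Sum.elim_inr, dif_neg (by omega)]
  refine ⟨e, ?_, ?_, e1, e2, ?_⟩
  · rintro ((u | u) | j) ((v | v) | k) huv
    · rw [e1, e1] at huv
      simp only [Sum.inl.injEq] at huv
      rw [huv]
    · rw [e1, e2] at huv; simp at huv
    · exfalso
      rw [e1] at huv
      have hk := k.isLt
      rcases Nat.lt_or_ge k.val (n0 + 1) with h | h
      · rw [e3 k h] at huv; simp at huv
      · rw [e4 k h (by omega)] at huv; simp at huv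
    · rw [e1, e2] at huv; simp at huv
    · rfl
    · exfalso
      rw [e2] at huv
      have hk := k.isLt
      rcases Nat.lt_or_ge k.val (n0 + 1) with h | h
      · rw [e3 k h] at huv; simp at huv
      · rw [e4 k h (by omega)] at huv; simp at huv
    · exfalso
      rw [e1] at huv
      have hk := j.isLt
      rcases Nat.lt_or_ge j.val (n0 + 1) with h | h
      · rw [e3 j h] at huv; simp at huv
      · rw [e4 j h (by omega)] at huv; simp at huv
    · exfalso
      rw [e2] at huv
      have hk := j.isLt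
      rcases Nat.lt_or_ge j.val (n0 + 1) with h | h
      · rw [e3 j h] at huv; simp at huv
      · rw [e4 j h (by omega)] at huv; simp at huv
    · have hj := j.isLt
      have hk := k.isLt
      have hjk : j.val = k.val := by
        rcases Nat.lt_or_ge j.val (n0 + 1) with h | h <;>
          rcases Nat.lt_or_ge k.val (n0 + 1) with h' | h'
        · rw [e3 j h, e3 k h'] at huv
          simp only [Sum.inl.injEq, Sum.inr.injEq, Fin.mk.injEq] at huv
          exact huv
        · rw [e3 j h, e4 k h' (by omega)] at huv; simp at huv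
        · rw [e4 j h (by omega), e3 k h'] at huv; simp at huv
        · rw [e4 j h (by omega), e4 k h' (by omega)] at huv
          simp only [Sum.inr.injEq, Fin.mk.injEq] at huv
          omega
      rw [Fin.ext hjk]
  · have hpath : ∀ j k : Fin (n + 1), j.val + 1 = k.val →
        (attach (addLeaf (attach F t n0) (Sum.inl y)) (Sum.inl (Sum.inr (Fin.last n0))) n').Adj
          (e (Sum.inr j)) (e (Sum.inr k)) := by
      intro j k hjk
      have hj := j.isLt
      have hk := k.isLt
      rcases Nat.lt_trichotomy k.val (n0 + 1) with h | h | h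
      · rw [e3 j (by omega), e3 k h]
        exact attach_inl (leaf_inl (attach_inr hjk))
      · rw [e3 j (by omega), e4 k (by omega) (by omega)]
        have h1 : (⟨j.val, by omega⟩ : Fin (n0 + 1)) = Fin.last n0 := Fin.ext (by
          show j.val = n0
          omega)
        have h2 : (⟨k.val - (n0 + 1), by omega⟩ : Fin (n' + 1)) = 0 := Fin.ext (by
          show k.val - (n0 + 1) = 0
          omega)
        rw [h1, h2]
        exact attach_edge
      · rw [e4 j (by omega) (by omega), e4 k (by omega) (by omega)]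
        exact attach_inr (by
          show j.val - (n0 + 1) + 1 = k.val - (n0 + 1)
          omega)
    intro x z hxz
    rcases attach_adj (addLeaf F y) (Sum.inl t) n x z hxz with ⟨u, v, h1, h2, h3⟩ |
      ⟨j, k, h1, h2⟩ | h1
    · rcases leaf_adj F y u v h3 with ⟨u', v', g1, g2, g3⟩ | g1
      · rw [h1, h2, g1, g2, e1, e1]
        exact attach_inl (leaf_inl (attach_inl g3))
      · rcases g1 with ⟨r1, r2⟩ | ⟨r1, r2⟩
        · rw [h1, h2, r1, r2, e1, e2]
          exact attach_inl leaf_edge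
        · rw [h1, h2, r1, r2, e1, e2]
          exact (attach_inl leaf_edge).symm
    · rcases h2 with ⟨r1, r2⟩ | ⟨r1, r2⟩
      · rw [r1, r2]; exact hpath j k h1
      · rw [r1, r2]; exact (hpath j k h1).symm
    · have h6 : (attach (addLeaf (attach F t n0) (Sum.inl y)) (Sum.inl (Sum.inr (Fin.last n0)))
          n').Adj (e (Sum.inl (Sum.inl t))) (e (Sum.inr 0)) := by
        rw [e1, e3 0 (Nat.succ_pos n0)]
        exact attach_inl (leaf_inl attach_edge)
      rcases h1 with ⟨r1, r2⟩ | ⟨r1, r2⟩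
      · rw [r1, r2]; exact h6
      · rw [r1, r2]; exact h6.symm
  · rw [e4 (Fin.last n) (by rw [Fin.val_last]; omega) (by rw [Fin.val_last]; omega)]
    congr 1
    apply Fin.ext
    show (Fin.last n).val - (n0 + 1) = n'
    rw [Fin.val_last]; omega

lemma reindex2 {V : Type} {F : SimpleGraph V} (y : V) (n0 n' n : ℕ) (h0 : 1 ≤ n0)
    (hn : n = n0 + n') :
    ∃ e : (V ⊕ Unit) ⊕ Fin (n + 1) → (V ⊕ Fin (n0 + 1)) ⊕ Fin (n' + 1),
      Function.Injective e ∧ (∀ x z, (attach (addLeaf F y) (Sum.inr ()) n).Adj x z →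
        (attach (attach F y n0) (Sum.inr (Fin.last n0)) n').Adj (e x) (e z)) ∧
      (∀ u, e (Sum.inl (Sum.inl u)) = Sum.inl (Sum.inl u)) ∧
      e (Sum.inl (Sum.inr ())) = Sum.inl (Sum.inr 0) ∧
      e (Sum.inr (Fin.last n)) = Sum.inr (Fin.last n') := by
  obtain ⟨e, he⟩ : ∃ e : (V ⊕ Unit) ⊕ Fin (n + 1) → (V ⊕ Fin (n0 + 1)) ⊕ Fin (n' + 1),
    e = Sum.elim (Sum.elim (fun u => Sum.inl (Sum.inl u)) (fun _ => Sum.inl (Sum.inr 0)))
      (fun j : Fin (n + 1) => if h : j.val < n0 then Sum.inl (Sum.inr ⟨j.val + 1, by omega⟩)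
        else Sum.inr ⟨j.val - n0, by have := j.isLt; omega⟩) := ⟨_, rfl⟩
  have e1 : ∀ a, e (Sum.inl (Sum.inl a)) = Sum.inl (Sum.inl a) := by
    intro a; rw [he]; rfl
  have e2 : e (Sum.inl (Sum.inr ())) = Sum.inl (Sum.inr 0) := by rw [he]; rfl
  have e3 : ∀ (j : Fin (n + 1)) (_ : j.val < n0) (h' : j.val + 1 < n0 + 1),
      e (Sum.inr j) = Sum.inl (Sum.inr ⟨j.val + 1, h'⟩) := by
    intro j h h'
    rw [he, Sum.elim_inr, dif_pos h]
  have e4 : ∀ (j : Fin (n + 1)) (_ : n0 ≤ j.val) (h' : j.val - n0 < n' + 1),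
      e (Sum.inr j) = Sum.inr ⟨j.val - n0, h'⟩ := by
    intro j h h'
    rw [he, Sum.elim_inr, dif_neg (by omega)]
  refine ⟨e, ?_, ?_, e1, e2, ?_⟩
  · rintro ((u | u) | j) ((v | v) | k) huv
    · rw [e1, e1] at huv
      simp only [Sum.inl.injEq] at huv
      rw [huv]
    · rw [e1, e2] at huv; simp at huv
    · exfalso
      rw [e1] at huv
      have hk := k.isLt
      rcases Nat.lt_or_ge k.val n0 with h | h
      · rw [e3 k h (by omega)] at huv; simp at huv
      · rw [e4 k h (by omega)] at huv; simp at huv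
    · rw [e1, e2] at huv; simp at huv
    · rfl
    · exfalso
      rw [e2] at huv
      have hk := k.isLt
      rcases Nat.lt_or_ge k.val n0 with h | h
      · rw [e3 k h (by omega)] at huv
        simp only [Sum.inl.injEq, Sum.inr.injEq] at huv
        have := congrArg Fin.val huv
        have h0' : (0 : Fin (n0 + 1)).val = 0 := rfl
        rw [h0'] at this
        simp only at this
        omega
      · rw [e4 k h (by omega)] at huv; simp at huv
    · exfalso
      rw [e1] at huv
      have hk := j.isLt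
      rcases Nat.lt_or_ge j.val n0 with h | h
      · rw [e3 j h (by omega)] at huv; simp at huv
      · rw [e4 j h (by omega)] at huv; simp at huv
    · exfalso
      rw [e2] at huv
      have hk := j.isLt
      rcases Nat.lt_or_ge j.val n0 with h | h
      · rw [e3 j h (by omega)] at huv
        simp only [Sum.inl.injEq, Sum.inr.injEq] at huv
        have := congrArg Fin.val huv
        have h0' : (0 : Fin (n0 + 1)).val = 0 := rfl
        rw [h0'] at this
        simp only at this
        omega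
      · rw [e4 j h (by omega)] at huv; simp at huv
    · have hj := j.isLt
      have hk := k.isLt
      have hjk : j.val = k.val := by
        rcases Nat.lt_or_ge j.val n0 with h | h <;> rcases Nat.lt_or_ge k.val n0 with h' | h'
        · rw [e3 j h (by omega), e3 k h' (by omega)] at huv
          simp only [Sum.inl.injEq, Sum.inr.injEq, Fin.mk.injEq] at huv
          omega
        · rw [e3 j h (by omega), e4 k h' (by omega)] at huv; simp at huv
        · rw [e4 j h (by omega), e3 k h' (by omega)] at huv; simp at huv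
        · rw [e4 j h (by omega), e4 k h' (by omega)] at huv
          simp only [Sum.inr.injEq, Fin.mk.injEq] at huv
          omega
      rw [Fin.ext hjk]
  · have hpath : ∀ j k : Fin (n + 1), j.val + 1 = k.val →
        (attach (attach F y n0) (Sum.inr (Fin.last n0)) n').Adj (e (Sum.inr j))
          (e (Sum.inr k)) := by
      intro j k hjk
      have hj := j.isLt
      have hk := k.isLt
      rcases Nat.lt_trichotomy k.val n0 with h | h | h
      · rw [e3 j (by omega) (by omega), e3 k h (by omega)]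
        exact attach_inl (attach_inr (by
          show j.val + 1 + 1 = k.val + 1
          omega))
      · rw [e3 j (by omega) (by omega), e4 k (by omega) (by omega)]
        have h1 : (⟨j.val + 1, by omega⟩ : Fin (n0 + 1)) = Fin.last n0 := Fin.ext (by
          show j.val + 1 = n0
          omega)
        have h2 : (⟨k.val - n0, by omega⟩ : Fin (n' + 1)) = 0 := Fin.ext (by
          show k.val - n0 = 0
          omega)
        rw [h1, h2]
        exact attach_edge
      · rw [e4 j (by omega) (by omega), e4 k (by omega) (by omega)]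
        exact attach_inr (by
          show j.val - n0 + 1 = k.val - n0
          omega)
    intro x z hxz
    rcases attach_adj (addLeaf F y) (Sum.inr ()) n x z hxz with ⟨u, v, h1, h2, h3⟩ |
      ⟨j, k, h1, h2⟩ | h1
    · rcases leaf_adj F y u v h3 with ⟨u', v', g1, g2, g3⟩ | g1
      · rw [h1, h2, g1, g2, e1, e1]
        exact attach_inl (attach_inl g3)
      · rcases g1 with ⟨r1, r2⟩ | ⟨r1, r2⟩
        · rw [h1, h2, r1, r2, e1, e2]
          exact attach_inl attach_edge
        · rw [h1, h2, r1, r2, e1, e2]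
          exact (attach_inl attach_edge).symm
    · rcases h2 with ⟨r1, r2⟩ | ⟨r1, r2⟩
      · rw [r1, r2]; exact hpath j k h1
      · rw [r1, r2]; exact (hpath j k h1).symm
    · have h6 : (attach (attach F y n0) (Sum.inr (Fin.last n0)) n').Adj
          (e (Sum.inl (Sum.inr ()))) (e (Sum.inr 0)) := by
        have h00 : (0 : Fin (n + 1)).val = 0 := rfl
        rw [e2, e3 0 (by rw [h00]; omega) (by rw [h00]; omega)]
        exact attach_inl (attach_inr (by rfl))
      rcases h1 with ⟨r1, r2⟩ | ⟨r1, r2⟩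
      · rw [r1, r2]; exact h6
      · rw [r1, r2]; exact h6.symm
  · rw [e4 (Fin.last n) (by rw [Fin.val_last]; omega) (by rw [Fin.val_last]; omega)]
    congr 1
    apply Fin.ext
    show (Fin.last n).val - n0 = n'
    rw [Fin.val_last]; omega

/-- Adding a leaf. -/
lemma St.leaf {M n0 n1 : ℕ} {V : Type} [Fintype V] {F : SimpleGraph V} (h : St M n0 F)
    (h0 : 1 ≤ n0) (h01 : 21 * n0 + 20 * Fintype.card V + 21 ≤ n1) (y : V) :
    St M n1 (addLeaf F y) := by
  have hV : 1 ≤ Fintype.card V := by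
    have : Nonempty V := ⟨y⟩
    exact Fintype.card_pos
  rintro (t | t)
  · obtain ⟨w, hw, h1⟩ := h t
    obtain ⟨c, l, a, b, B, hlt, h2, h3⟩ := h1 n0 le_rfl
    have hab := B.card
    rw [Fintype.card_sum, Fintype.card_fin] at hab
    refine ⟨2 * (l (Sum.inl y) - 1) + l (Sum.inr (Fin.last n0)) +
      (if c (Sum.inl y) = c (Sum.inr (Fin.last n0)) then 0 else 1), ?_, fun n hn => ?_⟩
    rotate_left
    · obtain ⟨n', hn'⟩ : ∃ n', n = n0 + 1 + n' := ⟨n - (n0 + 1), by omega⟩
      obtain ⟨c', l', a', b', k1, k2, k3, k4, k5⟩ :=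
        leafed B hlt (by omega) (Sum.inl y) (Sum.inr (Fin.last n0)) (h2 y) n' (by omega)
      obtain ⟨e, g1, g2, g3, g4, g5⟩ := reindex1 (F := F) y t n0 n' n hn'
      refine ⟨_, _, a', b', k1.transfer e g1 ?_ g2, ?_, ?_, ?_⟩
      · simp only [Fintype.card_sum, Fintype.card_fin, Fintype.card_unit]
        omega
      · intro x z hxz; exact k2 _ _ (g2 x z hxz)
      · rintro (u | u)
        · show 2 ≤ l' (e (Sum.inl (Sum.inl u)))
          rw [g3]
          have r1 := k3 (Sum.inl u)
          have r2 := h2 u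
          omega
        · show 2 ≤ l' (e (Sum.inl (Sum.inr ())))
          rw [g4]; exact k4
      · show l' (e (Sum.inr (Fin.last n))) = _
        rw [g5]; exact k5
    · rw [h3]; omega
  · obtain ⟨w, hw, h1⟩ := h y
    obtain ⟨c, l, a, b, B, hlt, h2, h3⟩ := h1 n0 le_rfl
    have hab := B.card
    have hle := le_card B (Sum.inr (Fin.last n0))
    rw [Fintype.card_sum, Fintype.card_fin] at hab hle
    refine ⟨w, hw, fun n hn => ?_⟩
    obtain ⟨n', hn'⟩ : ∃ n', n = n0 + n' := ⟨n - n0, by omega⟩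
    obtain ⟨c', l', a', b', k1, k2, k3, k4, k5, k6, k7⟩ :=
      extend B (Sum.inr (Fin.last n0)) n' (by omega) (Or.inr (by omega))
    obtain ⟨e, g1, g2, g3, g4, g5⟩ := reindex2 (F := F) y n0 n' n h0 hn'
    have hlt' := k7 (by omega) hlt
    refine ⟨_, _, a', b', k1.transfer e g1 ?_ g2, ?_, ?_, ?_⟩
    · simp only [Fintype.card_sum, Fintype.card_fin, Fintype.card_unit]
      omega
    · intro x z hxz; exact hlt' _ _ (g2 x z hxz)
    · rintro (u | u)
      · show 2 ≤ l' (e (Sum.inl (Sum.inl u)))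
        rw [g3]
        have r1 := (k3 (Sum.inl u)).1
        have r2 := h2 u
        omega
      · show 2 ≤ l' (e (Sum.inl (Sum.inr ())))
        rw [g4]
        have r1 := (k3 (Sum.inr 0)).1
        have r2 := B.pos (Sum.inr 0)
        omega
    · show l' (e (Sum.inr (Fin.last n))) = _
      rw [g5, k5, h3]

/-- A tree with one vertex. -/
lemma blk_single {V : Type} [Fintype V] (T : SimpleGraph V) (h : Fintype.card V = 1) :
    Blk T (fun _ => true) (fun _ => 1) 1 0 := by
  have hs : ∀ u v : V, u = v := by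
    intro u v
    have := Fintype.card_le_one_iff.mp (le_of_eq h)
    exact this u v
  refine ⟨by omega, fun _ => le_rfl, fun _ _ => le_rfl, ?_, fun u v _ _ => hs u v, ?_, ?_⟩
  · intro v hv; exact absurd hv (by decide)
  · intro u v huv
    exact absurd (hs u v) huv.ne
  · intro u v u' v' _ _ _ _ _
    exact ⟨hs _ _, hs _ _⟩

lemma st_base {A B : Type} [Fintype A] [Fintype B] (S : SimpleGraph A) (T : SimpleGraph B)
    (hS : S.IsTree) (hT : T.IsTree) (hA : Fintype.card A = 1) (hB : Fintype.card B = 1)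
    (M n0 : ℕ) (hM : 2 ≤ M) (hn0 : 50 * M ≤ n0) : St M n0 (S ⊕g T) := by
  have main : ∀ {A B : Type} [Fintype A] [Fintype B] (S : SimpleGraph A) (T : SimpleGraph B)
      (_ : S.IsTree) (_ : T.IsTree) (_ : Fintype.card A = 1) (_ : Fintype.card B = 1) (t : B),
      ∃ w, M ≤ w ∧ ∀ n, n0 ≤ n → ∃ (c : (A ⊕ B) ⊕ Fin (n + 1) → Bool)
        (l : (A ⊕ B) ⊕ Fin (n + 1) → ℕ) (a b : ℕ), Blk (attach (S ⊕g T) (Sum.inr t) n) c l a b ∧
        (∀ x z, (attach (S ⊕g T) (Sum.inr t) n).Adj x z → l x + l z < a + b) ∧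
        (∀ u, 2 ≤ l (Sum.inl u)) ∧ l (Sum.inr (Fin.last n)) = w := by
    intro A B _ _ S T hS hT hA hB t
    obtain ⟨r⟩ := hS.connected.nonempty
    obtain ⟨w, w1, w2, w3⟩ := start_layout (N := M) (blk_single S hA) (blk_single T hB) r t rfl hS
      (by omega)
    refine ⟨w, by omega, fun n hn => ?_⟩
    obtain ⟨c, l, X, Y, k1, k2, k3, k4⟩ := w3 n (by omega)
    refine ⟨c, l, X, Y, k1, k2, fun u => ?_, k4⟩
    have := k3 u
    omega
  rintro (t | t)
  · obtain ⟨w, hw, h1⟩ := main T S hT hS hB hA t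
    refine ⟨w, hw, fun n hn => ?_⟩
    obtain ⟨c, l, a, b, k1, k2, k3, k4⟩ := h1 n hn
    obtain ⟨E, hE⟩ : ∃ E : (A ⊕ B) ⊕ Fin (n + 1) → (B ⊕ A) ⊕ Fin (n + 1),
      E = Sum.map Sum.swap id := ⟨_, rfl⟩
    have E1 : ∀ u, E (Sum.inl (Sum.inl u)) = Sum.inl (Sum.inr u) := by intro u; rw [hE]; rfl
    have E1' : ∀ u, E (Sum.inl (Sum.inr u)) = Sum.inl (Sum.inl u) := by intro u; rw [hE]; rfl
    have E2 : ∀ j, E (Sum.inr j) = Sum.inr j := by intro j; rw [hE]; rfl
    have hinj : Function.Injective E := by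
      rw [hE]
      exact Sum.map_injective.mpr ⟨Sum.swap_leftInverse.injective, Function.injective_id⟩
    have hA' : ∀ x y, (attach (S ⊕g T) (Sum.inl t) n).Adj x y →
        (attach (T ⊕g S) (Sum.inr t) n).Adj (E x) (E y) := by
      intro x y hxy
      rcases attach_adj (S ⊕g T) (Sum.inl t) n x y hxy with ⟨u, v, h1, h2, h3⟩ |
        ⟨j, k, h1, h2⟩ | h1
      · rcases u with u | u <;> rcases v with v | v
        · rw [h1, h2, E1, E1]
          exact attach_inl (by simpa using h3)
        · simp at h3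
        · simp at h3
        · rw [h1, h2, E1', E1']
          exact attach_inl (by simpa using h3)
      · rcases h2 with ⟨r1, r2⟩ | ⟨r1, r2⟩
        · rw [r1, r2, E2, E2]; exact attach_inr h1
        · rw [r1, r2, E2, E2]; exact (attach_inr h1).symm
      · rcases h1 with ⟨r1, r2⟩ | ⟨r1, r2⟩
        · rw [r1, r2, E1, E2]; exact attach_edge
        · rw [r1, r2, E1, E2]; exact attach_edge.symm
    refine ⟨_, _, a, b, k1.transfer E hinj (by simp only [Fintype.card_sum]; omega) hA', ?_, ?_, ?_⟩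
    · intro x z hxz; exact k2 _ _ (hA' x z hxz)
    · rintro (u | u)
      · show 2 ≤ l (E (Sum.inl (Sum.inl u)))
        rw [E1]; exact k3 _
      · show 2 ≤ l (E (Sum.inl (Sum.inr u)))
        rw [E1']; exact k3 _
    · show l (E (Sum.inr (Fin.last n))) = w
      rw [E2]; exact k4
  · exact main S T hS hT hA hB t

/-- Removing a leaf of `S`. -/
lemma st_step {A B : Type} [Fintype A] [Fintype B] (S : SimpleGraph A) (T : SimpleGraph B)
    (hS : S.IsTree) (hA : 2 ≤ Fintype.card A) (M n0 n1 : ℕ) (h0 : 1 ≤ n0)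
    (h01 : 21 * n0 + 20 * (Fintype.card A + Fintype.card B) + 21 ≤ n1)
    (ih : ∀ (A' : Type) [Fintype A'] (S' : SimpleGraph A'), S'.IsTree →
      Fintype.card A' + 1 = Fintype.card A → St M n0 (S' ⊕g T)) : St M n1 (S ⊕g T) := by
  classical
  have : Nontrivial A := Fintype.one_lt_card_iff_nontrivial.mp hA
  obtain ⟨v, hv⟩ := hS.exists_vert_degree_one_of_nontrivial
  obtain ⟨y, hy1, hy2⟩ := SimpleGraph.degree_eq_one_iff_existsUnique_adj.mp hv
  have hT' : (S.induce {v}ᶜ).IsTree :=
    ⟨hS.connected.induce_compl_singleton_of_degree_eq_one hv, hS.isAcyclic.induce _⟩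
  have hcard : Fintype.card ({v}ᶜ : Set A) + 1 = Fintype.card A := by
    rw [Fintype.card_compl_set]
    simp
    omega
  have h := ih _ (S.induce {v}ᶜ) hT' hcard
  have hyv : y ≠ v := hy1.ne.symm
  have h2 := h.leaf (n1 := n1) h0 (by
    rw [Fintype.card_sum]; omega) (Sum.inl ⟨y, by simpa using hyv⟩)
  obtain ⟨e, he⟩ : ∃ e : A ⊕ B → (({v}ᶜ : Set A) ⊕ B) ⊕ Unit, e =
    Sum.elim (fun u => if hu : u = v then Sum.inr () else Sum.inl (Sum.inl ⟨u, by simpa using hu⟩))
      (fun w => Sum.inl (Sum.inr w)) := ⟨_, rfl⟩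
  have e1 : e (Sum.inl v) = Sum.inr () := by rw [he, Sum.elim_inl, dif_pos rfl]
  have e2 : ∀ (u : A) (hu : u ≠ v) (hu' : u ∈ ({v}ᶜ : Set A)),
      e (Sum.inl u) = Sum.inl (Sum.inl ⟨u, hu'⟩) := by
    intro u hu hu'
    rw [he, Sum.elim_inl, dif_neg hu]
  have e3 : ∀ w, e (Sum.inr w) = Sum.inl (Sum.inr w) := by intro w; rw [he]; rfl
  have hmem : ∀ u : A, u ≠ v → u ∈ ({v}ᶜ : Set A) := by intro u hu; simpa using hu
  refine h2.transfer e ?_ ?_ ?_
  · rintro (u | u) (u' | u') huu
    · by_cases hu : u = v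
      · by_cases hu' : u' = v
        · rw [hu, hu']
        · rw [hu, e1, e2 u' hu' (hmem u' hu')] at huu
          simp at huu
      · by_cases hu' : u' = v
        · rw [hu', e1, e2 u hu (hmem u hu)] at huu
          simp at huu
        · rw [e2 u hu (hmem u hu), e2 u' hu' (hmem u' hu')] at huu
          simp only [Sum.inl.injEq, Subtype.mk.injEq] at huu
          rw [huu]
    · by_cases hu : u = v
      · rw [hu, e1, e3] at huu; simp at huu
      · rw [e2 u hu (hmem u hu), e3] at huu; simp at huu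
    · by_cases hu : u' = v
      · rw [hu, e1, e3] at huu; simp at huu
      · rw [e2 u' hu (hmem u' hu), e3] at huu; simp at huu
    · rw [e3, e3] at huu
      simp only [Sum.inl.injEq, Sum.inr.injEq] at huu
      rw [huu]
  · simp only [Fintype.card_sum, Fintype.card_unit]
    omega
  · rintro (u | u) (u' | u') huu
    · have hadj : S.Adj u u' := by simpa using huu
      by_cases hu : u = v
      · have hu'y : u' = y := hy2 u' (by rw [hu] at hadj; exact hadj)
        rw [hu, e1, hu'y, e2 y hyv (hmem y hyv)]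
        exact leaf_edge.symm
      · by_cases hu' : u' = v
        · have huy : u = y := hy2 u (by rw [hu'] at hadj; exact hadj.symm)
          rw [hu', e1, huy, e2 y hyv (hmem y hyv)]
          exact leaf_edge
        · rw [e2 u hu (hmem u hu), e2 u' hu' (hmem u' hu')]
          refine leaf_inl ?_
          have : (S.induce {v}ᶜ).Adj ⟨u, hmem u hu⟩ ⟨u', hmem u' hu'⟩ := by simpa using hadj
          simpa using this
    · simp at huu
    · simp at huu
    · have hadj : T.Adj u u' := by simpa using huu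
      rw [e3, e3]
      exact leaf_inl (by simpa using hadj)

lemma st_swap {A B : Type} [Fintype A] [Fintype B] {S : SimpleGraph A} {T : SimpleGraph B}
    {M n0 : ℕ} (h : St M n0 (T ⊕g S)) : St M n0 (S ⊕g T) := by
  refine h.transfer Sum.swap Sum.swap_leftInverse.injective
    (by rw [Fintype.card_sum, Fintype.card_sum, add_comm]) ?_
  rintro (u | u) (u' | u') huu
  · simpa using huu
  · simp at huu
  · simp at huu
  · simpa using huu

lemma st_trees (M : ℕ) (hM : 2 ≤ M) : ∀ k, ∀ (A B : Type) [Fintype A] [Fintype B]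
    (S : SimpleGraph A) (T : SimpleGraph B), S.IsTree → T.IsTree →
    Fintype.card A + Fintype.card B = k → St M (M * 50 ^ k) (S ⊕g T) := by
  intro k
  induction k with
  | zero =>
    intro A B _ _ S T hS hT hk
    have : Nonempty A := hS.connected.nonempty
    have : 0 < Fintype.card A := Fintype.card_pos
    omega
  | succ k ih =>
    intro A B _ _ S T hS hT hk
    have hA : 1 ≤ Fintype.card A := by
      have : Nonempty A := hS.connected.nonempty
      exact Fintype.card_pos
    have hB : 1 ≤ Fintype.card B := by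
      have : Nonempty B := hT.connected.nonempty
      exact Fintype.card_pos
    obtain ⟨X, hX⟩ : ∃ X, X = M * 50 ^ k := ⟨_, rfl⟩
    have hX1 : M * 50 ^ (k + 1) = 50 * X := by
      rw [hX, pow_succ]; ring
    have hX2 : k < 50 ^ k := Nat.lt_pow_self (by norm_num)
    have hX3 : 2 * 50 ^ k ≤ X := by
      rw [hX]; exact Nat.mul_le_mul_right _ hM
    have hX4 : M ≤ X := by
      rw [hX]
      exact Nat.le_mul_of_pos_right _ (by positivity)
    rw [hX1]
    rw [← hX] at ih
    by_cases h1 : 2 ≤ Fintype.card A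
    · refine st_step S T hS h1 M X (50 * X) (by omega) (by omega) ?_
      intro A' _ S' hS' hc
      exact ih A' B S' T hS' hT (by omega)
    · by_cases h2 : 2 ≤ Fintype.card B
      · refine st_swap (st_step T S hT h2 M X (50 * X) (by omega) (by omega) ?_)
        intro B' _ T' hT' hc
        exact ih B' A T' S hT' hS (by omega)
      · refine st_base S T hS hT (by omega) (by omega) M (50 * X) (by omega) (by omega)

lemma map_attach {V V' : Type} {F : SimpleGraph V} {F' : SimpleGraph V'} (e : V' → V) (t : V')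
    (n : ℕ) (he : Function.Injective e) (hadj : ∀ x y, F'.Adj x y → F.Adj (e x) (e y)) :
    ∃ E : V' ⊕ Fin (n + 1) → V ⊕ Fin (n + 1), (∀ u, E (Sum.inl u) = Sum.inl (e u)) ∧
      (∀ j, E (Sum.inr j) = Sum.inr j) ∧ Function.Injective E ∧
      ∀ x y, (attach F' t n).Adj x y → (attach F (e t) n).Adj (E x) (E y) := by
  obtain ⟨E, hE⟩ : ∃ E : V' ⊕ Fin (n + 1) → V ⊕ Fin (n + 1), E = Sum.map e id := ⟨_, rfl⟩
  have E1 : ∀ u, E (Sum.inl u) = Sum.inl (e u) := by intro u; rw [hE]; rfl
  have E2 : ∀ j, E (Sum.inr j) = Sum.inr j := by intro j; rw [hE]; rfl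
  refine ⟨E, E1, E2, ?_, ?_⟩
  · rintro (u | j) (v | k) huv
    · rw [E1, E1] at huv
      simp only [Sum.inl.injEq] at huv
      rw [he huv]
    · rw [E1, E2] at huv; simp at huv
    · rw [E1, E2] at huv; simp at huv
    · rw [E2, E2] at huv
      simp only [Sum.inr.injEq] at huv
      rw [huv]
  · intro x y hxy
    rcases attach_adj F' t n x y hxy with ⟨u, v, h1, h2, h3⟩ | ⟨j, k, h1, h2⟩ | h1
    · rw [h1, h2, E1, E1]; exact attach_inl (hadj u v h3)
    · rcases h2 with ⟨r1, r2⟩ | ⟨r1, r2⟩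
      · rw [r1, r2, E2, E2]; exact attach_inr h1
      · rw [r1, r2, E2, E2]; exact (attach_inr h1).symm
    · rcases h1 with ⟨r1, r2⟩ | ⟨r1, r2⟩
      · rw [r1, r2, E1, E2]; exact attach_edge
      · rw [r1, r2, E1, E2]; exact attach_edge.symm

/-- A tree with a path, with linear control of the labels. -/
def Lin (N : ℕ) {V : Type} [Fintype V] (R : SimpleGraph V) (t : V) : Prop :=
  ∃ (w : ℕ) (C K : V → ℕ), w ≤ N ∧ (∀ u, C u ≤ N ∧ K u ≤ N) ∧ ∀ n, N ≤ n →
    ∃ (c : V ⊕ Fin (n + 1) → Bool) (l : V ⊕ Fin (n + 1) → ℕ) (a b : ℕ),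
      Blk (attach R t n) c l a b ∧ (∀ u, 2 ≤ l (Sum.inl u)) ∧ l (Sum.inr (Fin.last n)) = w ∧
      ∀ u, 2 * l (Sum.inl u) + (if c (Sum.inl u) = c (Sum.inr (Fin.last n)) then 0 else 1) + K u =
        n + C u

/-- A tree with a path, the last label of the path being prescribed. -/
def Tun (N : ℕ) {V : Type} [Fintype V] (R : SimpleGraph V) (t : V) : Prop :=
  ∀ w, N ≤ w → ∀ n, 50 * w ≤ n →
    ∃ (c : V ⊕ Fin (n + 1) → Bool) (l : V ⊕ Fin (n + 1) → ℕ) (a b : ℕ),
      Blk (attach R t n) c l a b ∧ l (Sum.inr (Fin.last n)) = w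

lemma Lin.transfer {N : ℕ} {V V' : Type} [Fintype V] [Fintype V'] {F : SimpleGraph V}
    {F' : SimpleGraph V'} {t : V'} (e : V' → V) (h : Lin N F (e t)) (he : Function.Injective e)
    (hc : Fintype.card V' = Fintype.card V) (hadj : ∀ x y, F'.Adj x y → F.Adj (e x) (e y)) :
    Lin N F' t := by
  obtain ⟨w, C, K, hw, hCK, h1⟩ := h
  refine ⟨w, fun u => C (e u), fun u => K (e u), hw, fun u => hCK (e u), fun n hn => ?_⟩
  obtain ⟨c, l, a, b, B, h2, h3, h4⟩ := h1 n hn
  obtain ⟨E, E1, E2, hinj, hA⟩ := map_attach (F := F) (F' := F') e t n he hadj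
  refine ⟨_, _, a, b, B.transfer E hinj (by simp only [Fintype.card_sum, hc]) hA, ?_, ?_, ?_⟩
  · intro u
    show 2 ≤ l (E (Sum.inl u))
    rw [E1]; exact h2 _
  · show l (E (Sum.inr (Fin.last n))) = w
    rw [E2]; exact h3
  · intro u
    show 2 * l (E (Sum.inl u)) + (if c (E (Sum.inl u)) = c (E (Sum.inr (Fin.last n))) then 0
      else 1) + K (e u) = n + C (e u)
    rw [E1, E2]; exact h4 _

lemma Tun.transfer {N : ℕ} {V V' : Type} [Fintype V] [Fintype V'] {F : SimpleGraph V}
    {F' : SimpleGraph V'} {t : V'} (e : V' → V) (h : Tun N F (e t)) (he : Function.Injective e)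
    (hc : Fintype.card V' = Fintype.card V) (hadj : ∀ x y, F'.Adj x y → F.Adj (e x) (e y)) :
    Tun N F' t := by
  intro w hw n hn
  obtain ⟨c, l, a, b, B, h3⟩ := h w hw n hn
  obtain ⟨E, E1, E2, hinj, hA⟩ := map_attach (F := F) (F' := F') e t n he hadj
  refine ⟨_, _, a, b, B.transfer E hinj (by simp only [Fintype.card_sum, hc]) hA, ?_⟩
  show l (E (Sum.inr (Fin.last n))) = w
  rw [E2]; exact h3

lemma lin_single {V : Type} [Fintype V] (R : SimpleGraph V) (h : Fintype.card V = 1) (t : V)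
    (N : ℕ) (hN : 4 ≤ N) : Lin N R t := by
  refine ⟨1, fun _ => 3, fun _ => 0, by omega,
    fun _ => ⟨show 3 ≤ N by omega, show 0 ≤ N by omega⟩, fun n hn => ?_⟩
  obtain ⟨c', l', a', b', k1, k2, k3, k4, k5, k6, k7, k8⟩ :=
    extend2 (blk_single R h) t n (by omega) (Or.inr (by omega))
  refine ⟨c', l', a', b', k1, fun u => ?_, k5, fun u => ?_⟩
  · have := (k3 u).1
    omega
  · have h9 : 2 * l' (Sum.inl u) +
        (if c' (Sum.inl u) = c' (Sum.inr (Fin.last n)) then 0 else 1) = 2 * 1 + (n + 1) + 0 := by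
      have := k8 u
      simpa using this
    show 2 * l' (Sum.inl u) + (if c' (Sum.inl u) = c' (Sum.inr (Fin.last n)) then 0 else 1) + 0 =
      n + 3
    omega

/-- Adding a leaf: both the linear version and the version with a prescribed last label. -/
lemma lin_leaf {N : ℕ} {V : Type} [Fintype V] {R : SimpleGraph V} {t : V} (h : Lin N R t)
    (hVN : Fintype.card V ≤ N) (hN : 50 ≤ N) (y : V) :
    Lin (50 * N) (addLeaf R y) (Sum.inl t) ∧ Tun (50 * N) (addLeaf R y) (Sum.inl t) := by
  have hV : 1 ≤ Fintype.card V := by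
    have : Nonempty V := ⟨y⟩
    exact Fintype.card_pos
  obtain ⟨w, C, K, hw, hCK, h1⟩ := h
  constructor
  · obtain ⟨c, l, a, b, B, h2, h3, h4⟩ := h1 N le_rfl
    have hab := B.card
    have hl : ∀ z, l z ≤ 3 * N := by
      intro z
      have := le_card B z
      rw [Fintype.card_sum, Fintype.card_fin] at this
      omega
    rw [Fintype.card_sum, Fintype.card_fin] at hab
    refine ⟨2 * (l (Sum.inl y) - 1) +
      l (Sum.inr (Fin.last N)) + (if c (Sum.inl y) = c (Sum.inr (Fin.last N)) then 0 else 1),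
      Sum.elim (fun u => 2 * l (Sum.inl u) +
        (if c (Sum.inl u) = c (Sum.inr (Fin.last N)) then
          (if c (Sum.inl y) = c (Sum.inr (Fin.last N)) then 1 else 3)
          else (if c (Sum.inl y) = c (Sum.inr (Fin.last N)) then 4 else 2)))
        (fun _ => if c (Sum.inl y) = c (Sum.inr (Fin.last N)) then 4 else 3),
      Sum.elim (fun _ => N + 1) (fun _ => N + 1 + 2 * (l (Sum.inl y) - 1)), ?_, ?_,
      fun n hn => ?_⟩
    · have r1 := hl (Sum.inl y)
      have r2 := hl (Sum.inr (Fin.last N))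
      split_ifs <;> omega
    · rintro (u | u)
      · have r1 := hl (Sum.inl u)
        constructor
        · show 2 * l (Sum.inl u) +
            (if c (Sum.inl u) = c (Sum.inr (Fin.last N)) then
              (if c (Sum.inl y) = c (Sum.inr (Fin.last N)) then 1 else 3)
              else (if c (Sum.inl y) = c (Sum.inr (Fin.last N)) then 4 else 2)) ≤ 50 * N
          split_ifs <;> omega
        · show N + 1 ≤ 50 * N
          omega
      · have r1 := hl (Sum.inl y)
        constructor
        · show (if c (Sum.inl y) = c (Sum.inr (Fin.last N)) then 4 else 3) ≤ 50 * N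
          split_ifs <;> omega
        · show N + 1 + 2 * (l (Sum.inl y) - 1) ≤ 50 * N
          omega
    obtain ⟨n', hn'⟩ : ∃ n', n = N + 1 + n' := ⟨n - (N + 1), by omega⟩
    obtain ⟨c', l', a', b', k1, k2, k3, k4, k5, k6, k7⟩ :=
      leafed2 B (Sum.inl y) (Sum.inr (Fin.last N)) (h2 y) n' (by omega)
    obtain ⟨e, g1, g2, g3, g4, g5⟩ := reindex1 (F := R) y t N n' n hn'
    refine ⟨_, _, a', b', k1.transfer e g1 ?_ g2, ?_, ?_, ?_⟩
    · simp only [Fintype.card_sum, Fintype.card_fin, Fintype.card_unit]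
      omega
    · rintro (u | u)
      · show 2 ≤ l' (e (Sum.inl (Sum.inl u)))
        rw [g3]
        have r1 := k3 (Sum.inl u)
        have r2 := h2 u
        omega
      · show 2 ≤ l' (e (Sum.inl (Sum.inr ())))
        rw [g4]; exact k4
    · show l' (e (Sum.inr (Fin.last n))) = _
      rw [g5]; exact k5
    · rintro (u | u)
      · show 2 * l' (e (Sum.inl (Sum.inl u))) + (if c' (e (Sum.inl (Sum.inl u))) =
          c' (e (Sum.inr (Fin.last n))) then 0 else 1) + (N + 1) = n + (2 * l (Sum.inl u) +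
        (if c (Sum.inl u) = c (Sum.inr (Fin.last N)) then
          (if c (Sum.inl y) = c (Sum.inr (Fin.last N)) then 1 else 3)
          else (if c (Sum.inl y) = c (Sum.inr (Fin.last N)) then 4 else 2)))
        rw [g3, g5, k6 (Sum.inl u)]
        omega
      · show 2 * l' (e (Sum.inl (Sum.inr ()))) + (if c' (e (Sum.inl (Sum.inr ()))) =
          c' (e (Sum.inr (Fin.last n))) then 0 else 1) + (N + 1 + 2 * (l (Sum.inl y) - 1)) =
          n + (if c (Sum.inl y) = c (Sum.inr (Fin.last N)) then 4 else 3)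
        rw [g4, g5]
        omega
  · intro w' hw' n hn
    have hy := hCK y
    obtain ⟨m0, hm0⟩ : ∃ m0, m0 + C y + w = w' + K y + 2 := ⟨w' + K y + 2 - (C y + w), by omega⟩
    obtain ⟨c, l, a, b, B, h2, h3, h4⟩ := h1 m0 (by omega)
    have hab := B.card
    rw [Fintype.card_sum, Fintype.card_fin] at hab
    obtain ⟨n', hn'⟩ : ∃ n', n = m0 + 1 + n' := ⟨n - (m0 + 1), by omega⟩
    obtain ⟨c', l', a', b', k1, k2, k3, k4, k5, k6, k7⟩ :=
      leafed2 B (Sum.inl y) (Sum.inr (Fin.last m0)) (h2 y) n' (by omega)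
    obtain ⟨e, g1, g2, g3, g4, g5⟩ := reindex1 (F := R) y t m0 n' n hn'
    refine ⟨_, _, a', b', k1.transfer e g1 ?_ g2, ?_⟩
    · simp only [Fintype.card_sum, Fintype.card_fin, Fintype.card_unit]
      omega
    · show l' (e (Sum.inr (Fin.last n))) = _
      rw [g5, k5, h3]
      have r1 := h2 y
      have r2 := h4 y
      omega

/-- Arbitrary trees. -/
lemma lin_trees : ∀ k, ∀ (V : Type) [Fintype V] (R : SimpleGraph V), R.IsTree →
    Fintype.card V = k → ∀ t, Lin (50 ^ k) R t ∧ (2 ≤ Fintype.card V → Tun (50 ^ k) R t) := by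
  intro k
  induction k with
  | zero =>
    intro V _ R hR hk t
    have : Nonempty V := ⟨t⟩
    have : 0 < Fintype.card V := Fintype.card_pos
    omega
  | succ k ih =>
    intro V _ R hR hk t
    by_cases h1 : Fintype.card V = 1
    · have hk0 : k = 0 := by omega
      subst hk0
      exact ⟨lin_single R h1 t _ (by norm_num), fun h2 => absurd h2 (by omega)⟩
    have hVpos : 1 ≤ Fintype.card V := by
      have : Nonempty V := ⟨t⟩
      exact Fintype.card_pos
    have hX1 : 50 ^ (k + 1) = 50 * 50 ^ k := by rw [pow_succ]; ring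
    have hX2 : k < 50 ^ k := Nat.lt_pow_self (by norm_num)
    have hX3 : 50 ≤ 50 ^ k := by
      calc 50 = 50 ^ 1 := by norm_num
        _ ≤ 50 ^ k := Nat.pow_le_pow_right (by norm_num) (by omega)
    rw [hX1]
    classical
    have hnt : Nontrivial V := Fintype.one_lt_card_iff_nontrivial.mp (by omega)
    obtain ⟨v, hvt, hv⟩ : ∃ v, v ≠ t ∧ R.degree v = 1 := by
      obtain ⟨u, v, huv, hu, hv⟩ := hR.exists_ne_and_degree_eq_one
      by_cases h : u = t
      · exact ⟨v, fun h' => huv (by rw [h, h']), hv⟩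
      · exact ⟨u, h, hu⟩
    obtain ⟨y, hy1, hy2⟩ := SimpleGraph.degree_eq_one_iff_existsUnique_adj.mp hv
    have hT' : (R.induce {v}ᶜ).IsTree :=
      ⟨hR.connected.induce_compl_singleton_of_degree_eq_one hv, hR.isAcyclic.induce _⟩
    have hcard : Fintype.card ({v}ᶜ : Set V) + 1 = Fintype.card V := by
      rw [Fintype.card_compl_set]
      simp
      omega
    have hmem : ∀ u : V, u ≠ v → u ∈ ({v}ᶜ : Set V) := by intro u hu; simpa using hu
    have hyv : y ≠ v := hy1.ne.symm
    have h := (ih _ (R.induce {v}ᶜ) hT' (by omega) ⟨t, hmem t hvt.symm⟩).1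
    have h2 := lin_leaf h (by omega) hX3 ⟨y, hmem y hyv⟩
    obtain ⟨e, he⟩ : ∃ e : V → ({v}ᶜ : Set V) ⊕ Unit, e =
      (fun u => if hu : u = v then Sum.inr () else Sum.inl ⟨u, hmem u hu⟩) := ⟨_, rfl⟩
    have e1 : e v = Sum.inr () := by rw [he]; simp
    have e2 : ∀ (u : V) (hu : u ≠ v), e u = Sum.inl ⟨u, hmem u hu⟩ := by
      intro u hu
      rw [he]
      simp [hu]
    have hinj : Function.Injective e := by
      intro u u' huu
      by_cases hu : u = v
      · by_cases hu' : u' = v
        · rw [hu, hu']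
        · rw [hu, e1, e2 u' hu'] at huu
          simp at huu
      · by_cases hu' : u' = v
        · rw [hu', e1, e2 u hu] at huu
          simp at huu
        · rw [e2 u hu, e2 u' hu'] at huu
          simp only [Sum.inl.injEq, Subtype.mk.injEq] at huu
          exact huu
    have hcc : Fintype.card V = Fintype.card (({v}ᶜ : Set V) ⊕ Unit) := by
      simp only [Fintype.card_sum, Fintype.card_unit]
      omega
    have hadj : ∀ x z, R.Adj x z → (addLeaf (R.induce {v}ᶜ) ⟨y, hmem y hyv⟩).Adj (e x) (e z) := by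
      intro u u' hadj
      by_cases hu : u = v
      · have hu'y : u' = y := hy2 u' (by rw [hu] at hadj; exact hadj)
        rw [hu, e1, hu'y, e2 y hyv]
        exact leaf_edge.symm
      · by_cases hu' : u' = v
        · have huy : u = y := hy2 u (by rw [hu'] at hadj; exact hadj.symm)
          rw [hu', e1, huy, e2 y hyv]
          exact leaf_edge
        · rw [e2 u hu, e2 u' hu']
          refine leaf_inl ?_
          simpa using hadj
    have het : e t = Sum.inl ⟨t, hmem t hvt.symm⟩ := e2 t hvt.symm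
    rw [← het] at h2
    exact ⟨Lin.transfer e h2.1 hinj hcc hadj, fun _ => Tun.transfer e h2.2 hinj hcc hadj⟩

/-- Two labelled graphs, one on top of the other, joined by an edge. -/
lemma stack {V1 V2 : Type} [Fintype V1] [Fintype V2] {G : SimpleGraph V1} {H : SimpleGraph V2}
    {c1 : V1 → Bool} {l1 : V1 → ℕ} {a1 b1 : ℕ} {c2 : V2 → Bool} {l2 : V2 → ℕ} {a2 b2 : ℕ}
    (B1 : Blk G c1 l1 a1 b1) (B2 : Blk H c2 l2 a2 b2) (f : V1) (f' : V2) (hc : c1 f ≠ c2 f')
    (hs : l1 f + (if c1 f = true then a2 else b2) + l2 f' = a2 + b2 + 1)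
    (hlt : ∀ x z, G.Adj x z → l1 x + l1 z < a1 + b1) (h1 : 2 ≤ a1 + b1) :
    ∃ (c : V1 ⊕ V2 → Bool) (l : V1 ⊕ V2 → ℕ),
      Blk ((G ⊕g H) ⊔ SimpleGraph.edge (Sum.inl f) (Sum.inr f')) c l (a1 + a2) (b1 + b2) ∧
      ∀ x z, ((G ⊕g H) ⊔ SimpleGraph.edge (Sum.inl f) (Sum.inr f')).Adj x z →
        l x + l z < (a1 + a2) + (b1 + b2) := by
  obtain ⟨c, hcd⟩ : ∃ c : V1 ⊕ V2 → Bool, c = Sum.elim c1 c2 := ⟨_, rfl⟩
  obtain ⟨l, hld⟩ : ∃ l : V1 ⊕ V2 → ℕ, l =
    Sum.elim (fun u => (if c1 u = true then a2 else b2) + l1 u) l2 := ⟨_, rfl⟩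
  have C1 : ∀ u, c (Sum.inl u) = c1 u := by intro u; rw [hcd]; rfl
  have C2 : ∀ u, c (Sum.inr u) = c2 u := by intro u; rw [hcd]; rfl
  have L1 : ∀ u, c1 u = true → l (Sum.inl u) = a2 + l1 u := by
    intro u hu; rw [hld, Sum.elim_inl, if_pos hu]
  have L2 : ∀ u, c1 u = false → l (Sum.inl u) = b2 + l1 u := by
    intro u hu; rw [hld, Sum.elim_inl, if_neg (by simp [hu])]
  have L3 : ∀ u, l (Sum.inr u) = l2 u := by intro u; rw [hld]; rfl
  have kind : ∀ u, c1 u = true ∨ c1 u = false := by
    intro u; cases c1 u <;> simp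
  have hc2 : 1 ≤ a2 + b2 := by
    rw [B2.card]
    have : Nonempty V2 := ⟨f'⟩
    exact Fintype.card_pos
  have E : ∀ x z, ((G ⊕g H) ⊔ SimpleGraph.edge (Sum.inl f) (Sum.inr f')).Adj x z → c x ≠ c z ∧
      ((∃ u v, x = Sum.inl u ∧ z = Sum.inl v ∧ G.Adj u v ∧
          l x + l z = a2 + b2 + (l1 u + l1 v) ∧ 2 ≤ l1 u + l1 v) ∨
        (∃ u v, x = Sum.inr u ∧ z = Sum.inr v ∧ H.Adj u v ∧ l x + l z = l2 u + l2 v ∧
          l2 u + l2 v ≤ a2 + b2) ∨
        (((x = Sum.inl f ∧ z = Sum.inr f') ∨ (x = Sum.inr f' ∧ z = Sum.inl f)) ∧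
          l x + l z = a2 + b2 + 1)) := by
    intro x z hxz
    rw [SimpleGraph.sup_adj, SimpleGraph.edge_adj] at hxz
    rcases hxz with h | ⟨h, _⟩
    · rcases x with u | u <;> rcases z with v | v
      · have h2 : G.Adj u v := by simpa using h
        have hcc := B1.col u v h2
        have hss := B1.sum_le h2
        refine ⟨by rw [C1, C1]; exact hcc, Or.inl ⟨u, v, rfl, rfl, h2, ?_, hss.1⟩⟩
        rcases kind u with hu | hu
        · rcases kind v with hv | hv
          · rw [hu, hv] at hcc; exact absurd rfl hcc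
          · rw [L1 u hu, L2 v hv]; omega
        · rcases kind v with hv | hv
          · rw [L2 u hu, L1 v hv]; omega
          · rw [hu, hv] at hcc; exact absurd rfl hcc
      · simp at h
      · simp at h
      · have h2 : H.Adj u v := by simpa using h
        have hcc := B2.col u v h2
        have hss := B2.sum_le h2
        exact ⟨by rw [C2, C2]; exact hcc,
          Or.inr (Or.inl ⟨u, v, rfl, rfl, h2, by rw [L3, L3], hss.2⟩)⟩
    · have hcc : c (Sum.inl f) ≠ c (Sum.inr f') := by rw [C1, C2]; exact hc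
      have hss : l (Sum.inl f) + l (Sum.inr f') = a2 + b2 + 1 := by
        rw [L3]
        rcases kind f with hu | hu
        · rw [if_pos hu] at hs
          rw [L1 f hu]; omega
        · rw [if_neg (by simp [hu])] at hs
          rw [L2 f hu]; omega
      refine ⟨?_, Or.inr (Or.inr ⟨h, ?_⟩)⟩
      · rcases h with ⟨r1, r2⟩ | ⟨r1, r2⟩
        · rw [r1, r2]; exact hcc
        · rw [r1, r2]; exact hcc.symm
      · rcases h with ⟨r1, r2⟩ | ⟨r1, r2⟩
        · rw [r1, r2]; exact hss
        · rw [r1, r2, add_comm]; exact hss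
  refine ⟨c, l, ⟨?_, ?_, ?_, ?_, ?_, ?_, ?_⟩, ?_⟩
  · have k1 := B1.card
    have k2 := B2.card
    rw [Fintype.card_sum]
    omega
  · rintro (u | u)
    · have := B1.pos u
      rcases kind u with hu | hu
      · rw [L1 u hu]; omega
      · rw [L2 u hu]; omega
    · rw [L3]; exact B2.pos u
  · rintro (u | u) hu
    · rw [C1] at hu
      have := B1.le1 u hu
      rw [L1 u hu]; omega
    · rw [C2] at hu
      have := B2.le1 u hu
      rw [L3]; omega
  · rintro (u | u) hu
    · rw [C1] at hu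
      have := B1.le2 u hu
      rw [L2 u hu]; omega
    · rw [C2] at hu
      have := B2.le2 u hu
      rw [L3]; omega
  · rintro (u | u) (v | v) huv h
    · rw [C1, C1] at huv
      rcases kind u with hu | hu
      · have hv : c1 v = true := by rw [← huv]; exact hu
        rw [L1 u hu, L1 v hv] at h
        rw [B1.inj u v huv (by omega)]
      · have hv : c1 v = false := by rw [← huv]; exact hu
        rw [L2 u hu, L2 v hv] at h
        rw [B1.inj u v huv (by omega)]
    · exfalso
      rw [C1, C2] at huv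
      have p1 := B1.pos u
      rw [L3] at h
      rcases kind u with hu | hu
      · have hv : c2 v = true := by rw [← huv]; exact hu
        have := B2.le1 v hv
        rw [L1 u hu] at h
        omega
      · have hv : c2 v = false := by rw [← huv]; exact hu
        have := B2.le2 v hv
        rw [L2 u hu] at h
        omega
    · exfalso
      rw [C1, C2] at huv
      have p1 := B1.pos v
      rw [L3] at h
      rcases kind v with hu | hu
      · have hv : c2 u = true := by rw [huv]; exact hu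
        have := B2.le1 u hv
        rw [L1 v hu] at h
        omega
      · have hv : c2 u = false := by rw [huv]; exact hu
        have := B2.le2 u hv
        rw [L2 v hu] at h
        omega
    · rw [C2, C2] at huv
      rw [L3, L3] at h
      rw [B2.inj u v huv h]
  · intro x z h
    exact (E x z h).1
  · intro x z x' z' h h' hx hx' hsum
    obtain ⟨d1, f1⟩ := E x z h
    obtain ⟨d2, f2⟩ := E x' z' h'
    rcases f1 with ⟨u, v, e1, e2, e3, e4, e5⟩ | ⟨u, v, e1, e2, e3, e4, e5⟩ | ⟨e1, e2⟩ <;>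
    rcases f2 with ⟨u', v', g1, g2, g3, g4, g5⟩ | ⟨u', v', g1, g2, g3, g4, g5⟩ | ⟨g1, g2⟩
    · rw [e1, C1] at hx
      rw [g1, C1] at hx'
      obtain ⟨r1, r2⟩ := B1.sum u v u' v' e3 g3 hx hx' (by omega)
      rw [e1, e2, g1, g2, r1, r2]; exact ⟨rfl, rfl⟩
    · exfalso; omega
    · exfalso; omega
    · exfalso; omega
    · rw [e1, C2] at hx
      rw [g1, C2] at hx'
      obtain ⟨r1, r2⟩ := B2.sum u v u' v' e3 g3 hx hx' (by omega)
      rw [e1, e2, g1, g2, r1, r2]; exact ⟨rfl, rfl⟩
    · exfalso; omega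
    · exfalso; omega
    · exfalso; omega
    · rcases e1 with ⟨r1, r2⟩ | ⟨r1, r2⟩ <;> rcases g1 with ⟨s1, s2⟩ | ⟨s1, s2⟩
      · rw [r1, r2, s1, s2]; exact ⟨rfl, rfl⟩
      · exfalso
        rw [s1, ← r2] at hx'
        exact d1 (by rw [hx, hx'])
      · exfalso
        rw [s1, ← r2] at hx'
        exact d1 (by rw [hx, hx'])
      · rw [r1, r2, s1, s2]; exact ⟨rfl, rfl⟩
  · intro x z h
    rcases (E x z h).2 with ⟨u, v, e1, e2, e3, e4, e5⟩ | ⟨u, v, e1, e2, e3, e4, e5⟩ | ⟨e1, e2⟩
    · have := hlt u v e3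
      omega
    · omega
    · omega

lemma reindex3 {V C : Type} {F : SimpleGraph V} {R : SimpleGraph C} (t : V) (r : C)
    (n1 n2 n : ℕ) (hn : n = n1 + 1 + n2) :
    ∃ e : (V ⊕ C) ⊕ Fin (n + 1) → (V ⊕ Fin (n1 + 1)) ⊕ (C ⊕ Fin (n2 + 1)),
      Function.Injective e ∧ (∀ x z, (join F R t r n).Adj x z →
        ((attach F t n1 ⊕g attach R r n2) ⊔ SimpleGraph.edge (Sum.inl (Sum.inr (Fin.last n1)))
          (Sum.inr (Sum.inr (Fin.last n2)))).Adj (e x) (e z)) := by
  obtain ⟨e, he⟩ : ∃ e : (V ⊕ C) ⊕ Fin (n + 1) → (V ⊕ Fin (n1 + 1)) ⊕ (C ⊕ Fin (n2 + 1)),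
    e = Sum.elim (Sum.elim (fun u => Sum.inl (Sum.inl u)) (fun u => Sum.inr (Sum.inl u)))
      (fun j : Fin (n + 1) => if h : j.val < n1 + 1 then Sum.inl (Sum.inr ⟨j.val, h⟩)
        else Sum.inr (Sum.inr ⟨n - j.val, by have := j.isLt; omega⟩)) := ⟨_, rfl⟩
  have e1 : ∀ a, e (Sum.inl (Sum.inl a)) = Sum.inl (Sum.inl a) := by
    intro a; rw [he]; rfl
  have e2 : ∀ a, e (Sum.inl (Sum.inr a)) = Sum.inr (Sum.inl a) := by
    intro a; rw [he]; rfl
  have e3 : ∀ (j : Fin (n + 1)) (h : j.val < n1 + 1),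
      e (Sum.inr j) = Sum.inl (Sum.inr ⟨j.val, h⟩) := by
    intro j h
    rw [he, Sum.elim_inr, dif_pos h]
  have e4 : ∀ (j : Fin (n + 1)) (_ : n1 + 1 ≤ j.val) (h' : n - j.val < n2 + 1),
      e (Sum.inr j) = Sum.inr (Sum.inr ⟨n - j.val, h'⟩) := by
    intro j h h'
    rw [he, Sum.elim_inr, dif_neg (by omega)]
  have Bl : ∀ x z, (attach F t n1).Adj x z →
      ((attach F t n1 ⊕g attach R r n2) ⊔ SimpleGraph.edge (Sum.inl (Sum.inr (Fin.last n1)))
          (Sum.inr (Sum.inr (Fin.last n2)))).Adj (Sum.inl x) (Sum.inl z) := by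
    intro x z h
    rw [SimpleGraph.sup_adj]
    left; simpa using h
  have Br : ∀ x z, (attach R r n2).Adj x z →
      ((attach F t n1 ⊕g attach R r n2) ⊔ SimpleGraph.edge (Sum.inl (Sum.inr (Fin.last n1)))
          (Sum.inr (Sum.inr (Fin.last n2)))).Adj (Sum.inr x) (Sum.inr z) := by
    intro x z h
    rw [SimpleGraph.sup_adj]
    left; simpa using h
  have Be : ((attach F t n1 ⊕g attach R r n2) ⊔ SimpleGraph.edge
      (Sum.inl (Sum.inr (Fin.last n1))) (Sum.inr (Sum.inr (Fin.last n2)))).Adj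
        (Sum.inl (Sum.inr (Fin.last n1))) (Sum.inr (Sum.inr (Fin.last n2))) := by
    rw [SimpleGraph.sup_adj]
    right
    rw [SimpleGraph.edge_adj]
    simp
  refine ⟨e, ?_, ?_⟩
  · rintro ((u | u) | j) ((v | v) | k) huv
    · rw [e1, e1] at huv
      simp only [Sum.inl.injEq] at huv
      rw [huv]
    · rw [e1, e2] at huv; simp at huv
    · exfalso
      rw [e1] at huv
      have hk := k.isLt
      rcases Nat.lt_or_ge k.val (n1 + 1) with h | h
      · rw [e3 k h] at huv; simp at huv
      · rw [e4 k h (by omega)] at huv; simp at huv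
    · rw [e1, e2] at huv; simp at huv
    · rw [e2, e2] at huv
      simp only [Sum.inl.injEq, Sum.inr.injEq] at huv
      rw [huv]
    · exfalso
      rw [e2] at huv
      have hk := k.isLt
      rcases Nat.lt_or_ge k.val (n1 + 1) with h | h
      · rw [e3 k h] at huv; simp at huv
      · rw [e4 k h (by omega)] at huv; simp at huv
    · exfalso
      rw [e1] at huv
      have hk := j.isLt
      rcases Nat.lt_or_ge j.val (n1 + 1) with h | h
      · rw [e3 j h] at huv; simp at huv
      · rw [e4 j h (by omega)] at huv; simp at huv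
    · exfalso
      rw [e2] at huv
      have hk := j.isLt
      rcases Nat.lt_or_ge j.val (n1 + 1) with h | h
      · rw [e3 j h] at huv; simp at huv
      · rw [e4 j h (by omega)] at huv; simp at huv
    · have hj := j.isLt
      have hk := k.isLt
      have hjk : j.val = k.val := by
        rcases Nat.lt_or_ge j.val (n1 + 1) with h | h <;>
          rcases Nat.lt_or_ge k.val (n1 + 1) with h' | h'
        · rw [e3 j h, e3 k h'] at huv
          simp only [Sum.inl.injEq, Sum.inr.injEq, Fin.mk.injEq] at huv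
          exact huv
        · rw [e3 j h, e4 k h' (by omega)] at huv; simp at huv
        · rw [e4 j h (by omega), e3 k h'] at huv; simp at huv
        · rw [e4 j h (by omega), e4 k h' (by omega)] at huv
          simp only [Sum.inr.injEq, Fin.mk.injEq] at huv
          omega
      rw [Fin.ext hjk]
  · have hpath : ∀ j k : Fin (n + 1), j.val + 1 = k.val →
        ((attach F t n1 ⊕g attach R r n2) ⊔ SimpleGraph.edge (Sum.inl (Sum.inr (Fin.last n1)))
          (Sum.inr (Sum.inr (Fin.last n2)))).Adj (e (Sum.inr j)) (e (Sum.inr k)) := by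
      intro j k hjk
      have hj := j.isLt
      have hk := k.isLt
      rcases Nat.lt_trichotomy k.val (n1 + 1) with h | h | h
      · rw [e3 j (by omega), e3 k h]
        exact Bl _ _ (attach_inr hjk)
      · rw [e3 j (by omega), e4 k (by omega) (by omega)]
        have h1 : (⟨j.val, by omega⟩ : Fin (n1 + 1)) = Fin.last n1 := Fin.ext (by
          show j.val = n1
          omega)
        have h2 : (⟨n - k.val, by omega⟩ : Fin (n2 + 1)) = Fin.last n2 := Fin.ext (by
          show n - k.val = n2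
          omega)
        rw [h1, h2]
        exact Be
      · rw [e4 j (by omega) (by omega), e4 k (by omega) (by omega)]
        refine Br _ _ (attach_inr ?_).symm
        show n - k.val + 1 = n - j.val
        omega
    intro x z hxz
    rcases join_adj F R t r n x z hxz with ⟨u, v, h1, h2, h3⟩ | ⟨u, v, h1, h2, h3⟩ |
      ⟨j, k, h1, h2⟩ | h1 | h1
    · rw [h1, h2, e1, e1]
      exact Bl _ _ (attach_inl h3)
    · rw [h1, h2, e2, e2]
      exact Br _ _ (attach_inl h3)
    · rcases h2 with ⟨r1, r2⟩ | ⟨r1, r2⟩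
      · rw [r1, r2]; exact hpath j k h1
      · rw [r1, r2]; exact (hpath j k h1).symm
    · have h6 : ((attach F t n1 ⊕g attach R r n2) ⊔ SimpleGraph.edge
          (Sum.inl (Sum.inr (Fin.last n1))) (Sum.inr (Sum.inr (Fin.last n2)))).Adj
          (e (Sum.inl (Sum.inl t))) (e (Sum.inr 0)) := by
        rw [e1, e3 0 (Nat.succ_pos n1)]
        exact Bl _ _ attach_edge
      rcases h1 with ⟨r1, r2⟩ | ⟨r1, r2⟩
      · rw [r1, r2]; exact h6
      · rw [r1, r2]; exact h6.symm
    · have h6 : ((attach F t n1 ⊕g attach R r n2) ⊔ SimpleGraph.edge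
          (Sum.inl (Sum.inr (Fin.last n1))) (Sum.inr (Sum.inr (Fin.last n2)))).Adj
          (e (Sum.inl (Sum.inr r))) (e (Sum.inr (Fin.last n))) := by
        have hl : (Fin.last n).val = n := rfl
        rw [e2, e4 (Fin.last n) (by rw [hl]; omega) (by rw [hl]; omega)]
        have h2 : (⟨n - (Fin.last n).val, by rw [hl]; omega⟩ : Fin (n2 + 1)) = 0 := Fin.ext (by
          show n - (Fin.last n).val = 0
          rw [hl]; omega)
        rw [h2]
        exact Br _ _ attach_edge
      rcases h1 with ⟨r1, r2⟩ | ⟨r1, r2⟩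
      · rw [r1, r2]; exact h6
      · rw [r1, r2]; exact h6.symm

end SEMD
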